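import Pool.Agent.Work.MP_c07f0d_lc.SZ.FregeConj

/-!
# Frege proofs of almost quadratic size of contradictory linear systems
-/

set_option linter.unusedSectionVars false

namespace SizeSep

open FregeEF LineSize GridLine GridLine.Xor

variable {F : FregeSystem} {n m : ℕ}

lemma cs_fl (A : Fin m → Cl n) (j : ℕ) : ∀ l : List (Fin m), cs (fl A l) j 0 ≤ 3 * l.length := by
  intro l
  induction l with
  | nil =>
    rw [cs_zero (f := fl A []) (fun i => rfl)]
    omega
  | cons u l ih =>
    have h1 := cs_xor (fun i => memF (A u) i) (fl A l) j 0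
    have h2 : cs (fun i => memF (A u) i) j 0 ≤ 3 := by
      have e : (fun i : ℕ => memF (A u) i) = tri (A u |>.1 0) (A u |>.1 1) (A u |>.1 2) :=
        funext (memF_tri (A u))
      rw [e]
      have h3 := cs_xor (fun i => xor (decide (i = ((A u).1 0 : ℕ))) (decide (i = ((A u).1 1 : ℕ))))
        (fun i => decide (i = ((A u).1 2 : ℕ))) j 0
      have h4 := cs_xor (fun i => decide (i = ((A u).1 0 : ℕ)))
        (fun i => decide (i = ((A u).1 1 : ℕ))) j 0
      have h5 := cs_single_le ((A u).1 0 : ℕ) j 0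
      have h6 := cs_single_le ((A u).1 1 : ℕ) j 0
      have h7 := cs_single_le ((A u).1 2 : ℕ) j 0
      unfold tri
      omega
    have h3 : cs (fl A (u :: l)) j 0 = cs (fun i => xor (memF (A u) i) (fl A l i)) j 0 := rfl
    rw [h3, List.length_cons]
    omega

/-- The premises for one equation. -/
def kPrem (r : Bool) : List (Fm ℕ) :=
  [.imp (.var 0) (LineSize.litF r (xor2 (xor2 (.var 1) (.var 2)) (.var 3))),
    Fm.iff (.var 4) (xor2 (.var 1) (.var 2)), Fm.iff (.var 5) (xor2 (.var 4) (.var 3))]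

lemma k_test (r : Bool) :
    smallTest (kPrem r) (.imp (.var 0) (LineSize.litF r (.var 5))) = true := by
  cases r <;> decide

lemma k_valid (r : Bool) (v : ℕ → Prop) (h : ∀ p ∈ kPrem r, p.eval v) :
    (Fm.imp (.var 0) (LineSize.litF r (.var 5))).eval v := by
  simp only [kPrem, List.mem_cons, List.not_mem_nil, or_false, forall_eq_or_imp, forall_eq] at h
  obtain ⟨h1, h2, h3⟩ := h
  cases r <;>
    simp only [LineSize.litF, Fm.iff, xor2, Fm.eval, Bool.false_eq_true, if_false, if_true]
      at h1 h2 h3 ⊢ <;>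
    (by_cases a1 : v 1 <;> by_cases a2 : v 2 <;> by_cases a3 : v 3 <;> simp_all)

/-- One equation. -/
lemma leaf_pb {x y z k : ℕ} (r : Bool) (G : Fm ℕ) {g c : ℕ} (hG : G.size ≤ g)
    (hx : x < 2 ^ k) (hy : y < 2 ^ k) (hz : z < 2 ^ k)
    (hE : F.PB (Fm.imp G (LineSize.litF r (xor2 (xor2 (.var x) (.var y)) (.var z)))) c) :
    F.PB (Fm.imp G (LineSize.litF r (par (tri x y z) k 0))) (c + F.K * (g + 300 * 2 ^ k)) := by
  have hp : 1 ≤ 2 ^ k := Nat.one_le_two_pow
  have hg : 1 ≤ g := G.size_pos.trans hG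
  obtain ⟨c1, p1, q1⟩ := merge_pb (F := F) (fun i => decide (i = x)) (fun i => decide (i = y)) k 0
  obtain ⟨c2, p2, q2⟩ := merge_pb (F := F)
    (fun i => xor (decide (i = x)) (decide (i = y))) (fun i => decide (i = z)) k 0
  rw [par_single hx, par_single hy] at p1
  rw [par_single hz] at p2
  have i1 := cs_single_le x k 0
  have i2 := cs_single_le y k 0
  have i3 := cs_single_le z k 0
  have i4 := cs_xor (fun i => decide (i = x)) (fun i => decide (i = y)) k 0
  have i5 := cs_xor (fun i => xor (decide (i = x)) (decide (i = y))) (fun i => decide (i = z)) k 0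
  set P := par (fun i => xor (decide (i = x)) (decide (i = y))) k 0 with hP
  set Q := par (fun i => xor (xor (decide (i = x)) (decide (i = y))) (decide (i = z))) k 0 with hQ
  have z1 : P.size ≤ 12 * 2 ^ k + 1 := by
    refine (par_size _ _ _).trans ?_
    have := Nat.mul_le_mul_right (2 ^ k) (Nat.mul_le_mul_left 6 (i4.trans (Nat.add_le_add i1 i2)))
    omega
  have z2 : Q.size ≤ 18 * 2 ^ k + 1 := by
    refine (par_size _ _ _).trans ?_
    have := Nat.mul_le_mul_right (2 ^ k)
      (Nat.mul_le_mul_left 6 (i5.trans (Nat.add_le_add (i4.trans (Nat.add_le_add i1 i2)) i3)))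
    omega
  have fin := F.infer (kPrem r) (.imp (.var 0) (LineSize.litF r (.var 5)))
    [G, .var x, .var y, .var z, P, Q] [c, c1, c2] (g + 19 * 2 ^ k) (k_test r) (k_valid r) (by omega)
    (by
      simp only [List.mem_cons, List.not_mem_nil, or_false, forall_eq_or_imp, forall_eq, Fm.size]
      exact ⟨by omega, by omega, by omega, by omega, by omega, by omega⟩) (by
      refine .cons ?_ (.cons ?_ (.cons ?_ .nil))
      · simpa [litF_substN, Fm.subst, sub, xor2] using hE
      · simpa [Fm.subst, sub, Fm.iff, xor2] using p1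
      · simpa [Fm.subst, sub, Fm.iff, xor2] using p2)
  have fin' : F.PB (Fm.imp G (LineSize.litF r Q)) ([c, c1, c2].sum + F.K * (g + 19 * 2 ^ k)) := by
    simpa [litF_substN, Fm.subst, sub] using fin
  refine fin'.mono ?_
  simp only [List.sum_cons, List.sum_nil]
  have w1 : F.K * (48 * (cs (fun i => decide (i = x)) k 0 + cs (fun i => decide (i = y)) k 0)
      * 2 ^ k + 8 * 2 ^ k) ≤ F.K * (104 * 2 ^ k) := by
    apply Nat.mul_le_mul_left
    have := Nat.mul_le_mul_right (2 ^ k) (Nat.mul_le_mul_left 48 (Nat.add_le_add i1 i2))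
    omega
  have w2 : F.K * (48 * (cs (fun i => xor (decide (i = x)) (decide (i = y))) k 0
      + cs (fun i => decide (i = z)) k 0) * 2 ^ k + 8 * 2 ^ k) ≤ F.K * (152 * 2 ^ k) := by
    apply Nat.mul_le_mul_left
    have := Nat.mul_le_mul_right (2 ^ k)
      (Nat.mul_le_mul_left 48 (Nat.add_le_add (i4.trans (Nat.add_le_add i1 i2)) i3))
    omega
  have w3 : F.K * (g + 300 * 2 ^ k) = F.K * (g + 19 * 2 ^ k) + F.K * (104 * 2 ^ k)
      + F.K * (152 * 2 ^ k) + 25 * (F.K * 2 ^ k) := by ring
  rw [w3]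
  omega

/-- The sum of a list of equations, by repeated halving. -/
lemma sum_pb (A : Fin m → Cl n) (G : Fm ℕ) {g H k : ℕ} (hG : G.size ≤ g) (hk : n ≤ 2 ^ k) :
    ∀ (κ : ℕ) (l : List (Fin m)), l.length ≤ 2 ^ κ →
    (∀ u ∈ l, F.PB (Fm.imp G (eqN (A u))) H) →
    ∃ c, F.PB (Fm.imp G (LineSize.litF (bl A l) (par (fl A l) k 0))) c ∧
      c + F.K * g ≤ 2 ^ κ * (H + F.K * (2 * g + 300 * 2 ^ k * (κ + 1))) := by
  have hK := F.K_pos
  have hg : 1 ≤ g := G.size_pos.trans hG
  have hp1 : 1 ≤ 2 ^ k := Nat.one_le_two_pow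
  intro κ
  induction κ with
  | zero =>
    intro l hl hE
    match l, hl, hE with
    | [], _, _ =>
      have h0 : par (fl A []) k 0 = .bot := par_zero (fun _ => rfl) _ _
      have h1 := F.infer [] (.imp (.var 0) (.neg .bot)) [G] [] g (by decide)
        (by intro v _; exact fun _ h => h) hg (by simpa using hG) .nil
      have h2 : F.PB (Fm.imp G (.neg .bot)) (F.K * g) := by
        simpa [Fm.subst, sub] using h1
      refine ⟨F.K * g, ?_, ?_⟩
      · rw [h0]
        exact h2
      · have e : 2 ^ 0 * (H + F.K * (2 * g + 300 * 2 ^ k * (0 + 1)))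
            = H + 2 * (F.K * g) + 300 * (F.K * 2 ^ k) := by ring
        rw [e]
        omega
    | [u], _, hE =>
      have h1 := hE u (List.mem_singleton.2 rfl)
      rw [eqN_eq] at h1
      have h2 := leaf_pb (k := k) (clRhs (A u)) G hG (((A u).1 0).2.trans_le hk)
        (((A u).1 1).2.trans_le hk) (((A u).1 2).2.trans_le hk) h1
      refine ⟨H + F.K * (g + 300 * 2 ^ k), ?_, ?_⟩
      · have e1 : fl A [u] = tri ((A u).1 0) ((A u).1 1) ((A u).1 2) := by
          funext i
          rw [← memF_tri]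
          simp [fl, valB]
        have e2 : bl A [u] = clRhs (A u) := by simp [bl, valB]
        rw [e1, e2]
        exact h2
      · have e : 2 ^ 0 * (H + F.K * (2 * g + 300 * 2 ^ k * (0 + 1)))
            = (H + F.K * (g + 300 * 2 ^ k)) + F.K * g := by ring
        rw [e]
    | _ :: _ :: _, hl, _ => simp at hl
  | succ κ ih =>
    intro l hl hE
    have l1 : (l.take (2 ^ κ)).length ≤ 2 ^ κ := by
      rw [List.length_take]
      omega
    have l2 : (l.drop (2 ^ κ)).length ≤ 2 ^ κ := by
      rw [List.length_drop]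
      rw [pow_succ] at hl
      omega
    obtain ⟨c1, p1, q1⟩ := ih (l.take (2 ^ κ)) l1 (fun u hu => hE u (List.mem_of_mem_take hu))
    obtain ⟨c2, p2, q2⟩ := ih (l.drop (2 ^ κ)) l2 (fun u hu => hE u (List.mem_of_mem_drop hu))
    obtain ⟨c3, p3, q3⟩ := merge_pb (F := F) (fl A (l.take (2 ^ κ))) (fl A (l.drop (2 ^ κ))) k 0
    have hfl : fl A l = fun i => xor (fl A (l.take (2 ^ κ)) i) (fl A (l.drop (2 ^ κ)) i) := by
      funext i
      show valB _ l = xor (valB _ _) (valB _ _)
      rw [← valB_append, List.take_append_drop]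
    have hbl : bl A l = xor (bl A (l.take (2 ^ κ))) (bl A (l.drop (2 ^ κ))) := by
      show valB _ l = xor (valB _ _) (valB _ _)
      rw [← valB_append, List.take_append_drop]
    rw [← hfl] at p3
    have i1 := cs_fl A k (l.take (2 ^ κ))
    have i2 := cs_fl A k (l.drop (2 ^ κ))
    have i3 := cs_fl A k l
    have hp : 1 ≤ 2 ^ κ := Nat.one_le_two_pow
    rw [pow_succ] at hl ⊢
    generalize 2 ^ κ = p at *
    generalize hN : 2 ^ k = N at *
    set M := g + (36 * p * N + 1) with hM
    have bd : ∀ l' : List (Fin m), cs (fl A l') k 0 ≤ 6 * p → (par (fl A l') k 0).size ≤ M := by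
      intro l' h
      refine (par_size _ _ _).trans ?_
      rw [hN]
      have := Nat.mul_le_mul_right N (Nat.mul_le_mul_left 6 h)
      have e : 6 * (6 * p) * N = 36 * p * N := by ring
      omega
    have fin := F.infer (sPrem (bl A (l.take p)) (bl A (l.drop p)))
      (.imp (.var 0) (LineSize.litF (xor (bl A (l.take p)) (bl A (l.drop p))) (.var 3)))
      [G, par (fl A (l.take p)) k 0, par (fl A (l.drop p)) k 0, par (fl A l) k 0]
      [c1, c2, c3] M (s_test _ _) (s_valid _ _) (by omega) (by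
        simp only [List.mem_cons, List.not_mem_nil, or_false, forall_eq_or_imp, forall_eq]
        exact ⟨by omega, bd _ (by omega), bd _ (by omega), bd _ (by omega)⟩) (by
        refine .cons ?_ (.cons ?_ (.cons ?_ .nil))
        · simpa [litF_substN, Fm.subst, sub] using p1
        · simpa [litF_substN, Fm.subst, sub] using p2
        · simpa [Fm.subst, sub, xor2, Fm.iff] using p3)
    have fin' : F.PB (Fm.imp G (LineSize.litF (bl A l) (par (fl A l) k 0)))
        (c1 + c2 + c3 + F.K * M) := by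
      refine FregeSystem.PB.mono (s := [c1, c2, c3].sum + F.K * M) ?_ ?_
      · rw [hbl]
        simpa [litF_substN, Fm.subst, sub] using fin
      · simp only [List.sum_cons, List.sum_nil]
        omega
    refine ⟨_, fin', ?_⟩
    have w1 : F.K * (48 * (cs (fl A (l.take p)) k 0 + cs (fl A (l.drop p)) k 0) * N + 8 * N)
        ≤ 288 * (F.K * p * N) + 8 * (F.K * N) := by
      have e : 288 * (F.K * p * N) + 8 * (F.K * N) = F.K * (48 * (6 * p) * N + 8 * N) := by ring
      rw [e]
      apply Nat.mul_le_mul_left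
      have h : cs (fl A (l.take p)) k 0 + cs (fl A (l.drop p)) k 0 ≤ 6 * p := by omega
      have := Nat.mul_le_mul_right N (Nat.mul_le_mul_left 48 h)
      omega
    have w2 : F.K * M = F.K * g + 36 * (F.K * p * N) + F.K := by
      rw [hM]; ring
    have w3 : F.K * N ≤ F.K * p * N := by
      calc F.K * N = F.K * 1 * N := by ring
        _ ≤ F.K * p * N := Nat.mul_le_mul_right _ (Nat.mul_le_mul_left _ hp)
    have w4 : F.K ≤ F.K * N := Nat.le_mul_of_pos_right _ hp1
    have w5 : p * 2 * (H + F.K * (2 * g + 300 * N * (κ + 1 + 1)))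
        = 2 * (p * (H + F.K * (2 * g + 300 * N * (κ + 1)))) + 600 * (F.K * p * N) := by ring
    rw [w5]
    omega

lemma fu_valid (v : ℕ → Prop) (h : ∀ p ∈ [Fm.imp (.var 0) .bot], p.eval v) :
    (Fm.neg (.var 0)).eval v := by
  simp only [List.mem_cons, List.not_mem_nil, or_false, forall_eq, Fm.eval] at h ⊢
  tauto

/-- Frege proofs of almost quadratic size. -/
theorem frege_size (F : FregeSystem) (A : Fin m → Cl n)
    (h : ¬ ∃ x : Fin n → Bool, ∀ i, chi (clSup (A i)) x = sg (clRhs (A i))) :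
    ∃ L, F.IsProof (tauN A) L ∧ lsize L ≤ 2000 * F.K * (m * (m + n) * (Nat.clog 2 m + 1)) := by
  classical
  obtain ⟨hm, hn, us, hus, hmemF, hval⟩ := list_spec A h
  have hK := F.K_pos
  set κ := Nat.clog 2 m with hκ
  have hkm : 2 ^ κ ≤ 2 * m := two_pow_clog_le hm
  have hmk : m ≤ 2 ^ κ := Nat.le_pow_clog (by norm_num) _
  set k := Nat.clog 2 n with hk
  have hkn : 2 ^ k ≤ 2 * n := two_pow_clog_le hn
  have hnk : n ≤ 2 ^ k := Nat.le_pow_clog (by norm_num) _
  set f : ℕ → Fm ℕ := fun i => (eqE A i).subst fun i : Fin n => (.var (i : ℕ) : Fm ℕ) with hf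
  have hfs : ∀ i, (f i).size ≤ 26 := fun i => by
    rw [hf]
    exact (size_toN _).trans_le (eqE_size A i)
  set G := conjT f κ 0 with hG
  have hGs : G.size ≤ 54 * m := by
    have : G.size + 1 ≤ 2 ^ κ * (26 + 1) := conjT_size f hfs κ 0
    omega
  have hM : 1 ≤ 54 * m := by omega
  have h0 : F.PB (Fm.imp G G) (F.K * (54 * m)) := by
    have := F.infer [] (.imp (.var 0) (.var 0)) [G] [] (54 * m) (by decide)
      (by intro v _; exact id) hM (by simpa using hGs) .nil
    simpa [Fm.subst, sub] using this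
  have hE : ∀ u ∈ us, F.PB (Fm.imp G (eqN (A u))) (F.K * (54 * m) * (κ + 1)) := by
    intro u _
    have h1 := conj_pb f G hGs κ 0 _ hGs h0 u (u.2.trans_le hmk)
    simp only [Nat.zero_add, hf, eqE, u.2, dif_pos] at h1
    refine FregeSystem.PB.mono h1 ?_
    have : F.K * (54 * m) * (κ + 1) = F.K * (54 * m) + F.K * (54 * m) * κ := by ring
    omega
  obtain ⟨c, p1, q1⟩ := sum_pb A G hGs hnk κ us (hus.trans hmk) hE
  have hQ : par (fl A us) k 0 = .bot := par_zero (fun i => hmemF i) _ _
  have hb : bl A us = true := hval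
  rw [hb, hQ] at p1
  have p1' : F.PB (Fm.imp G .bot) c := p1
  have fin := F.infer [Fm.imp (.var 0) .bot] (.neg (.var 0)) [G] [c] (54 * m) (by decide) fu_valid
    hM (by simpa using hGs) (.cons (by simpa [Fm.subst, sub] using p1') .nil)
  have fin' : F.PB (Fm.neg G) ([c].sum + F.K * (54 * m)) := by
    simpa [Fm.subst, sub] using fin
  have fin2 : F.PB (tauN A) ([c].sum + F.K * (54 * m)) := by
    have h10 : ∀ φ, φ = Fm.neg G → F.PB φ ([c].sum + F.K * (54 * m)) := fun φ hφ => hφ ▸ fin'
    exact h10 _ (tauN_eq A)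
  refine (fin2.mono ?_).isProof
  simp only [List.sum_cons, List.sum_nil]
  have t1 : 2 ^ κ * (F.K * (54 * m) * (κ + 1) + F.K * (2 * (54 * m) + 300 * 2 ^ k * (κ + 1)))
      ≤ 2 * m * (F.K * (54 * m) * (κ + 1) + F.K * (2 * (54 * m) + 300 * (2 * n) * (κ + 1))) := by
    refine Nat.mul_le_mul hkm (Nat.add_le_add_left (Nat.mul_le_mul_left _ (Nat.add_le_add_left
      (Nat.mul_le_mul_right _ (Nat.mul_le_mul_left _ hkn)) _)) _)
  have t2 : 2 * m * (F.K * (54 * m) * (κ + 1) + F.K * (2 * (54 * m) + 300 * (2 * n) * (κ + 1)))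
      ≤ 2000 * F.K * (m * (m + n) * (κ + 1)) := by
    have e1 : 2000 * F.K * (m * (m + n) * (κ + 1))
        = 2 * m * (F.K * (54 * m) * (κ + 1) + F.K * (2 * (54 * m) + 300 * (2 * n) * (κ + 1)))
          + (1676 * (F.K * m * m) + 1892 * (F.K * m * m * κ) + 800 * (F.K * m * n * (κ + 1))) := by
      ring
    rw [e1]
    exact Nat.le_add_right _ _
  omega

end SizeSep
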