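import Mathlib

/-!
# Elementary asymptotics
-/

namespace SizeSep

open Filter Topology

lemma nat_rpow_tendsto {δ : ℝ} (hδ : 0 < δ) :
    Tendsto (fun n : ℕ => (n : ℝ) ^ δ) atTop atTop :=
  (tendsto_rpow_atTop hδ).comp tendsto_natCast_atTop_atTop

lemma arith_s {a b ε : ℝ} (ha : 1 ≤ a) (hb : 0 ≤ b) (hε : 0 < ε) (hε' : ε ≤ 1 / 2) :
    ∀ᶠ n : ℕ in atTop, (a * n) ^ (2 - 2 * ε) + b * n ≤ (n : ℝ) ^ (2 - ε) := by
  have h1 := (nat_rpow_tendsto hε).eventually_ge_atTop (a ^ (2 - 2 * ε) + b)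
  filter_upwards [h1, eventually_ge_atTop 1] with n hn hn1
  have hn1' : (1 : ℝ) ≤ n := by exact_mod_cast hn1
  have hn0 : (0 : ℝ) < n := by linarith
  rw [Real.mul_rpow (by linarith) hn0.le]
  have h2 : (n : ℝ) ≤ (n : ℝ) ^ (2 - 2 * ε) := by
    calc (n : ℝ) = (n : ℝ) ^ (1 : ℝ) := (Real.rpow_one _).symm
      _ ≤ _ := Real.rpow_le_rpow_of_exponent_le hn1' (by linarith)
  have h3 : (n : ℝ) ^ (2 - ε) = (n : ℝ) ^ ε * (n : ℝ) ^ (2 - 2 * ε) := by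
    rw [← Real.rpow_add hn0]
    congr 1
    ring
  rw [h3]
  have h4 : (0 : ℝ) ≤ (n : ℝ) ^ (2 - 2 * ε) := by positivity
  nlinarith [mul_le_mul_of_nonneg_left h2 hb, mul_le_mul_of_nonneg_right hn h4]

lemma pow_le_two_rpow {δ : ℝ} (hδ : 0 < δ) (s c : ℝ) (hc : 0 < c) :
    ∀ᶠ n : ℕ in atTop, c * (n : ℝ) ^ s ≤ (2 : ℝ) ^ ((n : ℝ) ^ δ) := by
  have h1 := isLittleO_rpow_exp_pos_mul_atTop (s / δ) (b := Real.log 2) (Real.log_pos (by norm_num))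
  have h2 := h1.comp_tendsto (nat_rpow_tendsto hδ)
  have h3 := h2.def (c := 1 / c) (by positivity)
  filter_upwards [h3, eventually_ge_atTop 1] with n hn hn1
  have hn0 : (0 : ℝ) < n := by exact_mod_cast hn1
  simp only [Function.comp] at hn
  rw [← Real.rpow_mul hn0.le, mul_div_cancel₀ _ hδ.ne', Real.norm_of_nonneg (by positivity),
    Real.norm_of_nonneg (by positivity)] at hn
  have h4 : (2 : ℝ) ^ ((n : ℝ) ^ δ) = Real.exp (Real.log 2 * (n : ℝ) ^ δ) :=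
    Real.rpow_def_of_pos (by norm_num) _
  rw [h4]
  calc c * (n : ℝ) ^ s ≤ c * (1 / c * Real.exp (Real.log 2 * (n : ℝ) ^ δ)) :=
        mul_le_mul_of_nonneg_left hn hc.le
    _ = _ := by field_simp

lemma arith_T {a b δ : ℝ} (ha : 1 ≤ a) (hb : 0 < b) (hδ : 0 < δ) :
    ∀ᶠ n : ℕ in atTop, (2 : ℝ) ^ ((a * n) ^ δ) + b * n ≤ (2 : ℝ) ^ ((n : ℝ) ^ (2 * δ)) := by
  have h1 := (nat_rpow_tendsto hδ).eventually_ge_atTop (a ^ δ + 1)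
  have h2 := pow_le_two_rpow hδ 1 b hb
  filter_upwards [h1, h2, eventually_ge_atTop 1] with n hn h2 hn1
  have hn1' : (1 : ℝ) ≤ n := by exact_mod_cast hn1
  have hn0 : (0 : ℝ) < n := by linarith
  rw [Real.rpow_one] at h2
  rw [Real.mul_rpow (by linarith) hn0.le]
  have ha1 : 1 ≤ a ^ δ := Real.one_le_rpow ha hδ.le
  have hnδ : 1 ≤ (n : ℝ) ^ δ := Real.one_le_rpow hn1' hδ.le
  have h3 : (n : ℝ) ^ (2 * δ) = (n : ℝ) ^ δ * (n : ℝ) ^ δ := by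
    rw [← Real.rpow_add hn0]
    congr 1
    ring
  have h4 : a ^ δ * (n : ℝ) ^ δ + 1 ≤ (n : ℝ) ^ (2 * δ) := by
    rw [h3]
    nlinarith
  have h5 : (2 : ℝ) ^ ((n : ℝ) ^ δ) ≤ (2 : ℝ) ^ (a ^ δ * (n : ℝ) ^ δ) :=
    Real.rpow_le_rpow_of_exponent_le (by norm_num) (by nlinarith)
  calc (2 : ℝ) ^ (a ^ δ * (n : ℝ) ^ δ) + b * n
      ≤ (2 : ℝ) ^ (a ^ δ * (n : ℝ) ^ δ) + (2 : ℝ) ^ (a ^ δ * (n : ℝ) ^ δ) := by linarith
    _ = (2 : ℝ) ^ (a ^ δ * (n : ℝ) ^ δ + 1) := by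
        rw [Real.rpow_add (by norm_num), Real.rpow_one]
        ring
    _ ≤ _ := Real.rpow_le_rpow_of_exponent_le (by norm_num) h4

end SizeSep
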