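import Pool.Agent.Work.MP_c07f0d_lc.SD.XorSpace

/-!
# From a Frege proof of a negated conjunction to a refutation of its members
-/

set_option linter.unusedSectionVars false

namespace GridLine

open LineSize FregeEF

namespace Xor

/-- Formulas built from the formulas in `G` by conjunctions. -/
inductive ConjOf {α : Type} (G : List (Fm α)) : Fm α → Prop
  | leaf {x : Fm α} (h : x ∈ G) : ConjOf G x
  | node {x y : Fm α} (hx : ConjOf G x) (hy : ConjOf G y) : ConjOf G (.and x y)

variable {F : FregeSystem} {α β : Type} {Γ : List (Fm α)}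

lemma one_le_size (x : Fm α) : 1 ≤ x.size := by
  cases x <;> simp [Fm.size]

lemma ad_and {M : ℕ} (hM1 : 1 ≤ M) (x y : Fm α) (hx : x.size ≤ M) (hy : y.size ≤ M) :
    Ad F Γ [x, y] [.and x y] (F.K * M) (2 * F.K) := by
  have h := Ad.rule (F := F) (Γ := Γ) hM1 [.var 0, .var 1] (.and (.var 0) (.var 1)) [x, y]
    (by decide) (fun v hv => ⟨hv _ (by simp), hv _ (by simp)⟩) (by
      intro z hz
      simp only [List.mem_cons, List.not_mem_nil, or_false] at hz
      rcases hz with rfl | rfl
      · exact hx
      · exact hy)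
  exact h

lemma ad_neg_bot (x : Fm α) :
    Ad F Γ [x, .neg x] [.bot] (F.K * x.size) (2 * F.K) := by
  have h := Ad.rule (F := F) (Γ := Γ) (one_le_size x) [.var 0, .neg (.var 0)] .bot [x]
    (by decide) (fun v hv => hv (.neg (.var 0)) (by simp) (hv (.var 0) (by simp))) (by
      intro z hz
      simp only [List.mem_cons, List.not_mem_nil, or_false] at hz
      rw [hz])
  exact h

/-- Deriving a conjunction of hypotheses. -/
lemma ad_conj {t : Fm α} (ht : ConjOf Γ t) :
    Ad F Γ [] [t] ((F.K + 1) * t.size) ((2 * F.K + 3) * t.size) := by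
  induction ht with
  | @leaf x h =>
    have h1 := one_le_size x
    refine (Ad.hyp (F := F) h).mono (fun _ h => h) ?_ ?_
    · nlinarith
    · nlinarith
  | @node x y _ _ ihx ihy =>
    have hx := one_le_size x
    have hy := one_le_size y
    have hs : (Fm.and x y).size = x.size + y.size + 1 := rfl
    have h1 := ihx.both ihy (U := (F.K + 1) * (Fm.and x y).size) (by rw [hs]; nlinarith) (by
      rw [lsize_cons, lsize_nil, hs]
      nlinarith)
    have h2 := ad_and (F := F) (Γ := Γ) (M := (Fm.and x y).size) (by omega) x y (by omega)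
      (by omega)
    refine (h1.trans h2 (U := (F.K + 1) * (Fm.and x y).size) le_rfl ?_).mono (fun _ h => h)
      le_rfl ?_
    · simp only [List.cons_append, List.nil_append, lsize_cons, lsize_nil]
      rw [Nat.add_mul, hs]
      omega
    · rw [hs]
      nlinarith

lemma run_mono {R : List Rule} {s s' T : ℕ} {M : List (Fm α)} (h : Run R [] s T M)
    (hs : s ≤ s') : Run R Γ s' T M := by
  induction h with
  | start => exact Run.start
  | step _ h1 h2 ih =>
    refine Run.step ih ?_ (h2.trans hs)
    rcases h1 with h1 | ⟨φ, h1 | h1, h3⟩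
    · exact Or.inl h1
    · exact absurd h1 (by simp)
    · exact Or.inr ⟨φ, Or.inr h1, h3⟩

lemma run_subst {R : List Rule} {s T : ℕ} {M : List (Fm α)} (h : Run R [] s T M)
    (σ : α → Fm β) (hσ : ∀ x, (σ x).size ≤ 1) : Run R [] s T (M.map (Fm.subst σ)) := by
  induction h with
  | start => exact Run.start
  | @step T M M' _ h1 h2 ih =>
    refine Run.step ih ?_ ?_
    · rcases h1 with h1 | ⟨φ, h1 | h1, h3⟩
      · refine Or.inl ?_
        intro ψ hψ
        obtain ⟨χ, hχ, rfl⟩ := List.mem_map.1 hψ
        exact List.mem_map_of_mem (h1 hχ)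
      · exact absurd h1 (by simp)
      · refine Or.inr ⟨φ.subst σ, Or.inr (h1.subst σ), ?_⟩
        intro ψ hψ
        obtain ⟨χ, hχ, rfl⟩ := List.mem_map.1 hψ
        rcases h3 χ hχ with rfl | h4
        · exact Or.inl rfl
        · exact Or.inr (List.mem_map_of_mem h4)
    · have := lsize_map_subst_le σ 1 le_rfl M' hσ
      omega

/-- The variables with index less than `n`; the others are replaced by `⊥`. -/
def cut (n : ℕ) (i : ℕ) : Fm (Fin n) := if h : i < n then .var ⟨i, h⟩ else .bot

lemma cut_size (n i : ℕ) : (cut n i).size ≤ 1 := by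
  unfold cut
  split_ifs <;> simp [Fm.size]

lemma subst_cut {n : ℕ} (t : Fm (Fin n)) : (t.subst fun i => (.var i.val : Fm ℕ)).subst (cut n) = t := by
  induction t with
  | var i => simp [Fm.subst, cut]
  | bot => rfl
  | neg x ih => simp only [Fm.subst, ih]
  | and x y ih1 ih2 => simp only [Fm.subst, ih1, ih2]
  | or x y ih1 ih2 => simp only [Fm.subst, ih1, ih2]
  | imp x y ih1 ih2 => simp only [Fm.subst, ih1, ih2]

/-- A Frege proof with memory of the negation of a conjunction `t` of formulas in `Γ` gives a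
refutation of `Γ`. -/
theorem run_bot {n : ℕ} {Γ : List (Fm (Fin n))} {s T : ℕ} {M : List (Fm ℕ)}
    (hM : Run F.rules [] s T M) {t : Fm (Fin n)} (ht : ConjOf Γ t)
    (hneg : Fm.neg (t.subst fun i => .var i.val) ∈ M) :
    ∃ T' M', T' ≤ T + (4 * F.K + 3) * t.size ∧
      Run F.rules Γ (s + (2 * F.K + 2) * t.size) T' M' ∧ Fm.bot ∈ M' := by
  have h1 : Run F.rules Γ (s + (2 * F.K + 2) * t.size) T (M.map (Fm.subst (cut n))) :=
    run_mono (run_subst hM (cut n) (cut_size n)) (by omega)
  have h2 : Fm.neg t ∈ M.map (Fm.subst (cut n)) := by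
    refine List.mem_map.2 ⟨_, hneg, ?_⟩
    show Fm.neg ((t.subst fun i => .var i.val).subst (cut n)) = _
    rw [subst_cut]
  have h3 : lsize (M.map (Fm.subst (cut n))) ≤ s := run_lsize (run_subst hM (cut n) (cut_size n))
  have ht1 := one_le_size t
  obtain ⟨T1, a1, b1⟩ := ad_conj (F := F) ht _ T _ h1 (by simp) (by nlinarith)
  obtain ⟨T2, a2, b2⟩ := ad_neg_bot (F := F) (Γ := Γ) t _ T1 _ b1 (by
    intro ψ hψ
    simp only [List.mem_cons, List.not_mem_nil, or_false] at hψ
    rcases hψ with rfl | rfl
    · simp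
    · exact List.mem_append_right _ h2) (by
    rw [lsize_append, lsize_cons, lsize_nil]
    nlinarith)
  exact ⟨T2, _, by nlinarith, b2, by simp⟩

end Xor

end GridLine
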