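import Pool.Agent.Work.MP_c07f0d_lc.Basic
import Pool.Agent.Work.MP_c07f0d_lc.LS.Upper2

/-!
# A calculus for the size of extended Frege proofs, chains of prefix parities
-/

set_option linter.unusedSectionVars false

namespace SizeSep

open FregeEF LineSize

/-- All variables of the formula are less than `k`. -/
def Bel (k : ℕ) (φ : Fm ℕ) : Prop := ∀ x, φ.Occurs x → x < k

lemma Bel.mono {k k' : ℕ} {φ : Fm ℕ} (h : Bel k φ) (hk : k ≤ k') : Bel k' φ :=
  fun x hx => (h x hx).trans_le hk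

lemma bel_bot (k : ℕ) : Bel k .bot := fun _ h => h.elim

lemma bel_var {k x : ℕ} (h : x < k) : Bel k (.var x) := fun y hy => by
  have : x = y := hy
  omega

lemma bel_subst {k : ℕ} {σ : ℕ → Fm ℕ} (h : ∀ x, Bel k (σ x)) (φ : Fm ℕ) :
    Bel k (φ.subst σ) := by
  induction φ with
  | var x => exact h x
  | bot => exact fun _ h => h.elim
  | neg φ ih => exact fun j hj => ih j hj
  | and φ ψ ih1 ih2 => exact fun j hj => hj.elim (ih1 j) (ih2 j)
  | or φ ψ ih1 ih2 => exact fun j hj => hj.elim (ih1 j) (ih2 j)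
  | imp φ ψ ih1 ih2 => exact fun j hj => hj.elim (ih1 j) (ih2 j)

lemma sub_size {α : Type} {θ : List (Fm α)} {M : ℕ} (hM : 1 ≤ M) (hθ : ∀ x ∈ θ, x.size ≤ M) (x : ℕ) :
    (sub θ x).size ≤ M := by
  unfold sub
  by_cases hx : x < θ.length
  · rw [List.getD_eq_getElem?_getD, List.getElem?_eq_getElem hx]
    exact hθ _ (List.getElem_mem hx)
  · rw [List.getD_eq_getElem?_getD, List.getElem?_eq_none (by omega)]
    simpa [Fm.size] using hM

lemma sub_bel {k : ℕ} {θ : List (Fm ℕ)} (hθ : ∀ x ∈ θ, Bel k x) (x : ℕ) : Bel k (sub θ x) := by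
  unfold sub
  by_cases hx : x < θ.length
  · rw [List.getD_eq_getElem?_getD, List.getElem?_eq_getElem hx]
    exact hθ _ (List.getElem_mem hx)
  · rw [List.getD_eq_getElem?_getD, List.getElem?_eq_none (by omega)]
    exact bel_bot k

/-- Adding an instance of a derivation to an extended Frege proof. -/
lemma ef_cut {R : List Rule} {τ : Fm ℕ} {Γ Q : List (Fm ℕ)} (h : IsDeriv R Γ Q) (σ : ℕ → Fm ℕ)
    {L : List (Fm ℕ)} {E : List (ℕ × Fm ℕ)} (h0 : IsEF R τ L E) (hΓ : ∀ p ∈ Γ, p.subst σ ∈ L) :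
    ∃ L', IsEF R τ L' E ∧ (∀ p ∈ Q, p.subst σ ∈ L') ∧ L ⊆ L' ∧
      (∀ ψ ∈ L', ψ ∈ L ∨ ∃ p : Fm ℕ, ψ = p.subst σ) ∧
      lsize L' ≤ lsize (Q.map (Fm.subst σ)) + lsize L := by
  induction h with
  | nil => exact ⟨L, h0, by simp, fun _ h => h, fun ψ h => Or.inl h, by simp [lsize]⟩
  | @hyp Q φ _ hφ ih =>
    obtain ⟨L', h1, h2, h3, h5, h4⟩ := ih
    refine ⟨L', h1, ?_, h3, h5, ?_⟩
    · intro p hp
      rcases List.mem_cons.1 hp with hp | hp
      · subst hp; exact h3 (hΓ _ hφ)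
      · exact h2 _ hp
    · rw [List.map_cons, lsize_cons]; omega
  | @step Q φ _ hi ih =>
    obtain ⟨L', h1, h2, h3, h5, h4⟩ := ih
    refine ⟨φ.subst σ :: L', h1.step ?_, ?_, ?_, ?_, ?_⟩
    · exact (hi.subst σ).mono (by
        intro x hx
        obtain ⟨p, hp, rfl⟩ := List.mem_map.1 hx
        exact h2 p hp)
    · intro p hp
      rcases List.mem_cons.1 hp with hp | hp
      · subst hp; exact List.mem_cons_self ..
      · exact List.mem_cons_of_mem _ (h2 _ hp)
    · intro p hp; exact List.mem_cons_of_mem _ (h3 hp)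
    · intro ψ hψ
      rcases List.mem_cons.1 hψ with hψ | hψ
      · exact Or.inr ⟨φ, hψ⟩
      · exact h5 ψ hψ
    · rw [List.map_cons, lsize_cons, lsize_cons]; omega

/-- The state of an extended Frege proof meant for `τ`: all variables in use are less than `k`. -/
structure St (F : FregeSystem) (τ : Fm ℕ) where
  k : ℕ
  L : List (Fm ℕ)
  E : List (ℕ × Fm ℕ)
  ef : IsEF F.rules τ L E
  bel : ∀ ψ ∈ L, Bel k ψ
  tau : Bel k τ

variable {F : FregeSystem} {τ : Fm ℕ}

/-- `s'` is a continuation of `s` with at most `c` new symbols. -/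
def Cont (c : ℕ) (s s' : St F τ) : Prop :=
  s.L ⊆ s'.L ∧ s.k ≤ s'.k ∧ lsize s'.L ≤ lsize s.L + c

lemma Cont.refl (s : St F τ) : Cont 0 s s := ⟨fun _ h => h, le_rfl, by omega⟩

lemma Cont.trans {c c' d : ℕ} {s s' s'' : St F τ} (h : Cont c s s') (h' : Cont c' s' s'')
    (hd : c + c' ≤ d) : Cont d s s'' :=
  ⟨fun _ hx => h'.1 (h.1 hx), h.2.1.trans h'.2.1, by have := h.2.2; have := h'.2.2; omega⟩

lemma Cont.mono {c d : ℕ} {s s' : St F τ} (h : Cont c s s') (hd : c ≤ d) : Cont d s s' :=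
  ⟨h.1, h.2.1, by have := h.2.2; omega⟩

/-- A small inference. -/
lemma St.rule (s : St F τ) {M : ℕ} (hM : 1 ≤ M) (prem : List (Fm ℕ)) (concl : Fm ℕ)
    (θ : List (Fm ℕ)) (ht : smallTest prem concl = true)
    (hv : ∀ v : ℕ → Prop, (∀ p ∈ prem, p.eval v) → concl.eval v)
    (hθ : ∀ x ∈ θ, x.size ≤ M) (hk : ∀ x ∈ θ, Bel s.k x)
    (hp : ∀ p ∈ prem, p.subst (sub θ) ∈ s.L) :
    ∃ s' : St F τ, Cont (F.K * M) s s' ∧ s'.k = s.k ∧ concl.subst (sub θ) ∈ s'.L := by
  obtain ⟨Q, h1, h2, h3⟩ := F.K_spec prem concl ht hv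
  obtain ⟨L', g1, g2, g3, g4, g5⟩ := ef_cut h1 (sub θ) s.ef hp
  refine ⟨⟨s.k, L', s.E, g1, ?_, s.tau⟩, ⟨g3, le_rfl, ?_⟩, rfl, g2 _ h2⟩
  · intro ψ hψ
    rcases g4 ψ hψ with h | ⟨p, rfl⟩
    · exact s.bel ψ h
    · exact bel_subst (sub_bel hk) p
  · have h5 := lsize_map_subst_le (sub θ) M hM Q (sub_size hM hθ)
    have h6 : lsize Q * M ≤ F.K * M := Nat.mul_le_mul_right _ h3
    show lsize L' ≤ lsize s.L + F.K * M
    omega

/-- An extension axiom. -/
lemma St.ext (s : St F τ) (φ : Fm ℕ) (hφ : Bel s.k φ) :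
    ∃ s' : St F τ, Cont (2 * φ.size + 5) s s' ∧ s'.k = s.k + 1 ∧
      Fm.iff (.var s.k) φ ∈ s'.L := by
  refine ⟨⟨s.k + 1, Fm.iff (.var s.k) φ :: s.L, (s.k, φ) :: s.E, ?_, ?_, s.tau.mono (by omega)⟩,
    ⟨?_, ?_, ?_⟩, rfl, List.mem_cons_self ..⟩
  · refine IsEF.ext s.k φ s.ef ?_ ?_ ?_
    · exact fun h => lt_irrefl _ (hφ _ h)
    · exact fun ψ hψ h => lt_irrefl _ (s.bel ψ hψ _ h)
    · exact fun h => lt_irrefl _ (s.tau _ h)
  · intro ψ hψ
    rcases List.mem_cons.1 hψ with rfl | hψ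
    · intro x hx
      have h1 : s.k = x ∨ φ.Occurs x := by
        rcases hx with (h | h) | (h | h)
        · exact Or.inl h
        · exact Or.inr h
        · exact Or.inr h
        · exact Or.inl h
      rcases h1 with h | h
      · omega
      · have := hφ x h
        omega
    · exact (s.bel ψ hψ).mono (by omega)
  · exact fun x hx => List.mem_cons_of_mem _ hx
  · show s.k ≤ s.k + 1
    omega
  · show lsize (Fm.iff (.var s.k) φ :: s.L) ≤ _
    rw [lsize_cons]
    simp only [Fm.iff, Fm.size]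
    omega

/-- Many inferences of the same cost. -/
lemma St.loop (s : St F τ) (φ : ℕ → Fm ℕ) (c : ℕ) (j : ℕ)
    (h : ∀ i < j, ∀ s' : St F τ, s.L ⊆ s'.L → s'.k = s.k →
      ∃ s'' : St F τ, Cont c s' s'' ∧ s''.k = s'.k ∧ φ i ∈ s''.L) :
    ∃ s' : St F τ, Cont (c * j) s s' ∧ s'.k = s.k ∧ ∀ i < j, φ i ∈ s'.L := by
  induction j with
  | zero => exact ⟨s, (Cont.refl s).mono (Nat.zero_le _), rfl, fun i hi => absurd hi (by omega)⟩
  | succ j ih =>
    obtain ⟨s1, a1, a2, a3⟩ := ih (fun i hi => h i (by omega))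
    obtain ⟨s2, b1, b2, b3⟩ := h j (by omega) s1 a1.1 a2
    refine ⟨s2, a1.trans b1 (by rw [Nat.mul_succ]), b2.trans a2, fun i hi => ?_⟩
    rcases Nat.lt_succ_iff_lt_or_eq.1 hi with h1 | h1
    · exact b1.1 (a3 i h1)
    · subst h1; exact b3

/-! ### Chains of prefix parities -/

/-- The number of `i < N` with `f i`. -/
def cnt (f : ℕ → Bool) : ℕ → ℕ
  | 0 => 0
  | N + 1 => cnt f N + if f N then 1 else 0

/-- `Q i` is (a name of) the exclusive or of the variables `j < i` with `f j`. -/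
structure Chain (L : List (Fm ℕ)) (k : ℕ) (f : ℕ → Bool) (N : ℕ) (Q : ℕ → Fm ℕ) : Prop where
  zero : Q 0 = .bot
  size : ∀ i ≤ N, (Q i).size ≤ 1
  bel : ∀ i ≤ N, Bel k (Q i)
  skip : ∀ i < N, f i = false → Q (i + 1) = Q i
  ax : ∀ i < N, f i = true → Fm.iff (Q (i + 1)) (xor2 (Q i) (.var i)) ∈ L

lemma Chain.mono {L L' : List (Fm ℕ)} {k k' N : ℕ} {f : ℕ → Bool} {Q : ℕ → Fm ℕ}
    (h : Chain L k f N Q) (hL : L ⊆ L') (hk : k ≤ k') : Chain L' k' f N Q :=
  ⟨h.zero, h.size, fun i hi => (h.bel i hi).mono hk, h.skip, fun i hi hf => hL (h.ax i hi hf)⟩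

lemma Chain.cont {c : ℕ} {s s' : St F τ} {N : ℕ} {f : ℕ → Bool} {Q : ℕ → Fm ℕ}
    (h : Chain s.L s.k f N Q) (hc : Cont c s s') : Chain s'.L s'.k f N Q :=
  h.mono hc.1 hc.2.1

lemma Chain.snoc {L : List (Fm ℕ)} {k N : ℕ} {f : ℕ → Bool} {Q : ℕ → Fm ℕ}
    (h : Chain L k f N Q) (v : Fm ℕ) (hv : v.size ≤ 1) (hb : Bel k v)
    (h1 : f N = false → v = Q N)
    (h2 : f N = true → Fm.iff v (xor2 (Q N) (.var N)) ∈ L) :
    Chain L k f (N + 1) (fun i => if i ≤ N then Q i else v) := by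
  refine ⟨?_, ?_, ?_, ?_, ?_⟩
  · simp [h.zero]
  · intro i hi
    show (if i ≤ N then Q i else v).size ≤ 1
    split_ifs with hc
    · exact h.size i hc
    · exact hv
  · intro i hi
    show Bel k (if i ≤ N then Q i else v)
    split_ifs with hc
    · exact h.bel i hc
    · exact hb
  · intro i hi hf
    show (if i + 1 ≤ N then Q (i + 1) else v) = (if i ≤ N then Q i else v)
    rcases Nat.lt_succ_iff_lt_or_eq.1 hi with hc | hc
    · rw [if_pos (by omega), if_pos (by omega)]
      exact h.skip i hc hf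
    · subst hc
      rw [if_neg (by omega), if_pos le_rfl]
      exact h1 hf
  · intro i hi hf
    show Fm.iff (if i + 1 ≤ N then Q (i + 1) else v) (xor2 (if i ≤ N then Q i else v) (.var i)) ∈ L
    rcases Nat.lt_succ_iff_lt_or_eq.1 hi with hc | hc
    · rw [if_pos (by omega), if_pos (by omega)]
      exact h.ax i hc hf
    · subst hc
      rw [if_neg (by omega), if_pos le_rfl]
      exact h2 hf

/-- Between two places without variables the chain is constant. -/
lemma Chain.const {L : List (Fm ℕ)} {k N : ℕ} {f : ℕ → Bool} {Q : ℕ → Fm ℕ}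
    (h : Chain L k f N Q) {i j : ℕ} (hij : i ≤ j) (hj : j ≤ N)
    (hf : ∀ l, i ≤ l → l < j → f l = false) : Q j = Q i := by
  induction j with
  | zero =>
    have : i = 0 := by omega
    rw [this]
  | succ j ih =>
    rcases Nat.lt_or_ge i (j + 1) with h1 | h1
    · rw [h.skip j (by omega) (hf j (by omega) (by omega))]
      exact ih (by omega) (by omega) (fun l hl hl' => hf l hl (by omega))
    · have : i = j + 1 := by omega
      rw [this]

/-- Introducing a chain. -/
lemma mk_chain (s : St F τ) (f : ℕ → Bool) (N : ℕ) (hN : N ≤ s.k) :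
    ∃ (s' : St F τ) (Q : ℕ → Fm ℕ), Cont (23 * cnt f N) s s' ∧ Chain s'.L s'.k f N Q := by
  induction N with
  | zero =>
    refine ⟨s, fun _ => .bot, (Cont.refl s).mono (Nat.zero_le _), rfl, ?_, ?_, ?_, ?_⟩
    · intro i _; exact le_rfl
    · intro i _; exact bel_bot _
    · intro i hi; omega
    · intro i hi; omega
  | succ N ih =>
    obtain ⟨s1, Q, h1, h2⟩ := ih (by omega)
    rcases Bool.eq_false_or_eq_true (f N) with hf | hf
    · have hb : Bel s1.k (xor2 (Q N) (.var N)) := by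
        intro x hx
        have hx' : (Q N).Occurs x ∨ N = x := by
          rcases hx with (h | h) | (h | h)
          · exact Or.inl h
          · exact Or.inr h
          · exact Or.inl h
          · exact Or.inr h
        rcases hx' with h | h
        · exact h2.bel N le_rfl x h
        · have := h1.2.1
          omega
      obtain ⟨s2, g1, g2, g3⟩ := s1.ext _ hb
      have hsz : (xor2 (Q N) (.var N) : Fm ℕ).size ≤ 9 := by
        have := h2.size N le_rfl
        simp only [xor2, Fm.size]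
        omega
      refine ⟨s2, _, h1.trans g1 ?_, (h2.cont g1).snoc (.var s1.k) le_rfl
        (bel_var (by omega)) (fun h => absurd (h.symm.trans hf) (by decide)) (fun _ => g3)⟩
      simp only [cnt, hf, if_true]
      omega
    · refine ⟨s1, _, h1.mono ?_, h2.snoc (Q N) (h2.size N le_rfl) (h2.bel N le_rfl)
        (fun _ => rfl) (fun h => absurd (h.symm.trans hf) (by decide))⟩
      simp only [cnt]
      omega

/-! ### Merging two chains -/

def mPrem1 : List (Fm ℕ) :=
  [Fm.iff (.var 0) (xor2 (.var 1) (.var 2)), Fm.iff (.var 3) (xor2 (.var 1) (.var 5)),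
    Fm.iff (.var 4) (xor2 (.var 0) (.var 5))]

def mPrem2 : List (Fm ℕ) :=
  [Fm.iff (.var 0) (xor2 (.var 1) (.var 2)), Fm.iff (.var 3) (xor2 (.var 2) (.var 5)),
    Fm.iff (.var 4) (xor2 (.var 0) (.var 5))]

def mPrem3 : List (Fm ℕ) :=
  [Fm.iff (.var 0) (xor2 (.var 1) (.var 2)), Fm.iff (.var 3) (xor2 (.var 1) (.var 5)),
    Fm.iff (.var 4) (xor2 (.var 2) (.var 5))]

lemma m_valid1 (v : ℕ → Prop) (h : ∀ p ∈ mPrem1, p.eval v) :
    (Fm.iff (.var 4) (xor2 (.var 3) (.var 2))).eval v := by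
  simp only [mPrem1, List.mem_cons, List.not_mem_nil, or_false, forall_eq_or_imp, forall_eq,
    Fm.eval, Fm.iff, xor2] at h ⊢
  obtain ⟨h1, h2, h3⟩ := h
  by_cases a1 : v 1 <;> by_cases a2 : v 2 <;> by_cases a5 : v 5 <;> simp_all

lemma m_valid2 (v : ℕ → Prop) (h : ∀ p ∈ mPrem2, p.eval v) :
    (Fm.iff (.var 4) (xor2 (.var 1) (.var 3))).eval v := by
  simp only [mPrem2, List.mem_cons, List.not_mem_nil, or_false, forall_eq_or_imp, forall_eq,
    Fm.eval, Fm.iff, xor2] at h ⊢
  obtain ⟨h1, h2, h3⟩ := h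
  by_cases a1 : v 1 <;> by_cases a2 : v 2 <;> by_cases a5 : v 5 <;> simp_all

lemma m_valid3 (v : ℕ → Prop) (h : ∀ p ∈ mPrem3, p.eval v) :
    (Fm.iff (.var 0) (xor2 (.var 3) (.var 4))).eval v := by
  simp only [mPrem3, List.mem_cons, List.not_mem_nil, or_false, forall_eq_or_imp, forall_eq,
    Fm.eval, Fm.iff, xor2] at h ⊢
  obtain ⟨h1, h2, h3⟩ := h
  by_cases a1 : v 1 <;> by_cases a2 : v 2 <;> by_cases a5 : v 5 <;> simp_all

lemma merge (s : St F τ) {f g : ℕ → Bool} {P Q R : ℕ → Fm ℕ} {N : ℕ}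
    (hP : Chain s.L s.k f N P) (hQ : Chain s.L s.k g N Q)
    (hR : Chain s.L s.k (fun i => xor (f i) (g i)) N R) (hN : N ≤ s.k) :
    ∀ i ≤ N, ∃ s' : St F τ, Cont (F.K * (1 + cnt f i + cnt g i)) s s' ∧ s'.k = s.k ∧
      Fm.iff (R i) (xor2 (P i) (Q i)) ∈ s'.L := by
  intro i
  induction i with
  | zero =>
    intro _
    obtain ⟨s', h1, h2, h3⟩ := s.rule (M := 1) le_rfl [] (Fm.iff .bot (xor2 .bot .bot)) []
      (by decide) (by intro v _; simp only [Fm.eval, Fm.iff, xor2]; tauto) (by simp) (by simp)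
      (by simp)
    refine ⟨s', h1.mono ?_, h2, ?_⟩
    · simp [cnt]
    · rw [hP.zero, hQ.zero, hR.zero]
      simpa [Fm.subst, Fm.iff, xor2] using h3
  | succ i ih =>
    intro hi
    obtain ⟨s1, h1, h2, h3⟩ := ih (by omega)
    have hθ : ∀ y ∈ [R i, P i, Q i, P (i + 1), Q (i + 1), R (i + 1), .var i],
        y.size ≤ 1 ∧ Bel s1.k y := by
      intro y hy
      rw [h2]
      simp only [List.mem_cons, List.not_mem_nil, or_false] at hy
      rcases hy with rfl | rfl | rfl | rfl | rfl | rfl | rfl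
      · exact ⟨hR.size _ (by omega), hR.bel _ (by omega)⟩
      · exact ⟨hP.size _ (by omega), hP.bel _ (by omega)⟩
      · exact ⟨hQ.size _ (by omega), hQ.bel _ (by omega)⟩
      · exact ⟨hP.size _ (by omega), hP.bel _ (by omega)⟩
      · exact ⟨hQ.size _ (by omega), hQ.bel _ (by omega)⟩
      · exact ⟨hR.size _ (by omega), hR.bel _ (by omega)⟩
      · exact ⟨le_rfl, bel_var (by omega)⟩
    simp only [List.mem_cons, List.not_mem_nil, or_false, forall_eq_or_imp, forall_eq] at hθ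
    obtain ⟨t1, t2, t3, t4, t5, t6, t7⟩ := hθ
    rcases Bool.eq_false_or_eq_true (f i) with hf | hf <;>
      rcases Bool.eq_false_or_eq_true (g i) with hg | hg
    · -- both
      have hr : R (i + 1) = R i := hR.skip i (by omega) (by simp [hf, hg])
      obtain ⟨s2, b1, b2, b3⟩ := s1.rule (M := 1) le_rfl mPrem3
        (Fm.iff (.var 0) (xor2 (.var 3) (.var 4))) [R i, P i, Q i, P (i + 1), Q (i + 1), .var i]
        (by decide) m_valid3 (by
          simp only [List.mem_cons, List.not_mem_nil, or_false, forall_eq_or_imp, forall_eq]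
          exact ⟨t1.1, t2.1, t3.1, t4.1, t5.1, t7.1⟩) (by
          simp only [List.mem_cons, List.not_mem_nil, or_false, forall_eq_or_imp, forall_eq]
          exact ⟨t1.2, t2.2, t3.2, t4.2, t5.2, t7.2⟩) (by
          simp only [mPrem3, List.mem_cons, List.not_mem_nil, or_false, forall_eq_or_imp, forall_eq]
          refine ⟨?_, ?_, ?_⟩
          · simpa [Fm.subst, sub, xor2, Fm.iff] using h3
          · simpa [Fm.subst, sub, xor2, Fm.iff] using h1.1 (hP.ax i (by omega) hf)
          · simpa [Fm.subst, sub, xor2, Fm.iff] using h1.1 (hQ.ax i (by omega) hg))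
      refine ⟨s2, h1.trans b1 ?_, b2.trans h2, ?_⟩
      · rw [← Nat.mul_add]
        apply Nat.mul_le_mul_left
        simp only [cnt, hf, hg, if_true, Bool.false_eq_true, if_false]
        omega
      · rw [hr]
        simpa [Fm.subst, sub, xor2, Fm.iff] using b3
    · -- only f
      have hq : Q (i + 1) = Q i := hQ.skip i (by omega) hg
      obtain ⟨s2, b1, b2, b3⟩ := s1.rule (M := 1) le_rfl mPrem1
        (Fm.iff (.var 4) (xor2 (.var 3) (.var 2))) [R i, P i, Q i, P (i + 1), R (i + 1), .var i]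
        (by decide) m_valid1 (by
          simp only [List.mem_cons, List.not_mem_nil, or_false, forall_eq_or_imp, forall_eq]
          exact ⟨t1.1, t2.1, t3.1, t4.1, t6.1, t7.1⟩) (by
          simp only [List.mem_cons, List.not_mem_nil, or_false, forall_eq_or_imp, forall_eq]
          exact ⟨t1.2, t2.2, t3.2, t4.2, t6.2, t7.2⟩) (by
          simp only [mPrem1, List.mem_cons, List.not_mem_nil, or_false, forall_eq_or_imp, forall_eq]
          refine ⟨?_, ?_, ?_⟩
          · simpa [Fm.subst, sub, xor2, Fm.iff] using h3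
          · simpa [Fm.subst, sub, xor2, Fm.iff] using h1.1 (hP.ax i (by omega) hf)
          · simpa [Fm.subst, sub, xor2, Fm.iff] using h1.1 (hR.ax i (by omega) (by simp [hf, hg])))
      refine ⟨s2, h1.trans b1 ?_, b2.trans h2, ?_⟩
      · rw [← Nat.mul_add]
        apply Nat.mul_le_mul_left
        simp only [cnt, hf, hg, if_true, Bool.false_eq_true, if_false]
        omega
      · rw [hq]
        simpa [Fm.subst, sub, xor2, Fm.iff] using b3
    · -- only g
      have hp : P (i + 1) = P i := hP.skip i (by omega) hf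
      obtain ⟨s2, b1, b2, b3⟩ := s1.rule (M := 1) le_rfl mPrem2
        (Fm.iff (.var 4) (xor2 (.var 1) (.var 3))) [R i, P i, Q i, Q (i + 1), R (i + 1), .var i]
        (by decide) m_valid2 (by
          simp only [List.mem_cons, List.not_mem_nil, or_false, forall_eq_or_imp, forall_eq]
          exact ⟨t1.1, t2.1, t3.1, t5.1, t6.1, t7.1⟩) (by
          simp only [List.mem_cons, List.not_mem_nil, or_false, forall_eq_or_imp, forall_eq]
          exact ⟨t1.2, t2.2, t3.2, t5.2, t6.2, t7.2⟩) (by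
          simp only [mPrem2, List.mem_cons, List.not_mem_nil, or_false, forall_eq_or_imp, forall_eq]
          refine ⟨?_, ?_, ?_⟩
          · simpa [Fm.subst, sub, xor2, Fm.iff] using h3
          · simpa [Fm.subst, sub, xor2, Fm.iff] using h1.1 (hQ.ax i (by omega) hg)
          · simpa [Fm.subst, sub, xor2, Fm.iff] using h1.1 (hR.ax i (by omega) (by simp [hf, hg])))
      refine ⟨s2, h1.trans b1 ?_, b2.trans h2, ?_⟩
      · rw [← Nat.mul_add]
        apply Nat.mul_le_mul_left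
        simp only [cnt, hf, hg, if_true, Bool.false_eq_true, if_false]
        omega
      · rw [hp]
        simpa [Fm.subst, sub, xor2, Fm.iff] using b3
    · -- none
      refine ⟨s1, h1.mono ?_, h2, ?_⟩
      · simp only [cnt, hf, hg]
        exact le_rfl
      · rw [hP.skip i (by omega) hf, hQ.skip i (by omega) hg,
          hR.skip i (by omega) (by simp [hf, hg])]
        exact h3

end SizeSep
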