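import Pool.Agent.Work.MP_c07f0d_lc.SD.SepDefs
import Mathlib.Data.Countable.Basic
import Mathlib.Logic.Equiv.List
import Mathlib.Data.Fintype.BigOperators
import Mathlib.Algebra.BigOperators.Field

/-!
# One system of equations for all Frege systems: diagonalisation
-/

set_option linter.unusedSectionVars false

namespace GridLine

open Finset FregeEF

namespace Xor

/-! ### There are countably many Frege systems -/

/-- A code of a formula. -/
def fmCode : Fm ℕ → List ℕ
  | .var i => [0, i]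
  | .bot => [1]
  | .neg φ => 2 :: fmCode φ
  | .and φ ψ => 3 :: (fmCode φ ++ fmCode ψ)
  | .or φ ψ => 4 :: (fmCode φ ++ fmCode ψ)
  | .imp φ ψ => 5 :: (fmCode φ ++ fmCode ψ)

lemma fmCode_append {φ ψ : Fm ℕ} {a b : List ℕ} (h : fmCode φ ++ a = fmCode ψ ++ b) :
    φ = ψ ∧ a = b := by
  induction φ generalizing ψ a b with
  | var i =>
    cases ψ <;> simp [fmCode] at h ⊢
    exact h
  | bot =>
    cases ψ <;> simp [fmCode] at h ⊢
    exact h
  | neg φ ih =>
    cases ψ <;> simp [fmCode] at h ⊢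
    exact ih h
  | and φ φ' ih ih' =>
    cases ψ <;> simp [fmCode] at h ⊢
    obtain ⟨h1, h2⟩ := ih h
    obtain ⟨h3, h4⟩ := ih' h2
    exact ⟨⟨h1, h3⟩, h4⟩
  | or φ φ' ih ih' =>
    cases ψ <;> simp [fmCode] at h ⊢
    obtain ⟨h1, h2⟩ := ih h
    obtain ⟨h3, h4⟩ := ih' h2
    exact ⟨⟨h1, h3⟩, h4⟩
  | imp φ φ' ih ih' =>
    cases ψ <;> simp [fmCode] at h ⊢
    obtain ⟨h1, h2⟩ := ih h
    obtain ⟨h3, h4⟩ := ih' h2
    exact ⟨⟨h1, h3⟩, h4⟩

lemma fmCode_injective : Function.Injective fmCode := fun φ ψ h =>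
  (fmCode_append (a := []) (b := []) (by rw [h])).1

instance : Countable (Fm ℕ) := fmCode_injective.countable

instance : Countable Rule :=
  Function.Injective.countable (f := fun r : Rule => (r.prem, r.concl)) (by
    rintro ⟨p, c⟩ ⟨p', c'⟩ h
    simp only [Prod.mk.injEq] at h
    rw [h.1, h.2])

instance : Countable FregeSystem :=
  Function.Injective.countable (f := fun F : FregeSystem => F.rules) (by
    rintro ⟨r, _, _⟩ ⟨r', _, _⟩ h
    simp only at h
    subst h
    rfl)

/-! ### Diagonalisation -/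

open Classical in
/-- If each of countably many properties fails for a fraction at most `c / n` only, then there is one
sequence which has each of the properties from some index on. -/
theorem exists_diag {ι : ℕ → Type} [∀ n, Fintype (ι n)] {κ : Type} [Countable κ]
    (P : κ → ∀ n, ι n → Prop) (Q : ∀ n, ι n → Prop) (n₀ : ℕ)
    (hP : ∀ j, ∃ c : ℕ, ∀ n, 1 ≤ n →
      ((Finset.univ.filter fun x : ι n => ¬ P j n x).card : ℝ) ≤ c / n * (Fintype.card (ι n) : ℝ))
    (hQ : ∃ c : ℕ, ∀ n, 1 ≤ n →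
      ((Finset.univ.filter fun x : ι n => ¬ Q n x).card : ℝ) ≤ c / n * (Fintype.card (ι n) : ℝ))
    (hex : ∀ n, n₀ ≤ n → ∃ x : ι n, Q n x) :
    ∃ x : ∀ n, ι (n + n₀), (∀ n, Q (n + n₀) (x n)) ∧
      ∀ j, ∃ N, ∀ n, N ≤ n → P j (n + n₀) (x n) := by
  obtain ⟨c₀, hc₀⟩ := hQ
  choose c hc using hP
  rcases isEmpty_or_nonempty κ with hκ | hκ
  · choose y hy using fun n : ℕ => hex (n + n₀) (Nat.le_add_left _ _)
    exact ⟨y, hy, fun j => (hκ.false j).elim⟩
  obtain ⟨e, he⟩ := exists_surjective_nat κ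
  -- `C J` is the total constant of the first `J` properties
  set C : ℕ → ℕ := fun J => c₀ + ∑ i ∈ Finset.range J, c (e i) with hC
  have hCmono : Monotone C := by
    intro a b hab
    simp only [hC]
    exact Nat.add_le_add_left (Finset.sum_le_sum_of_subset
      (Finset.range_subset_range.2 hab)) _
  -- for `C J < n` there is an element with the first `J` properties
  have key : ∀ J n : ℕ, n₀ ≤ n → C J < n → ∃ x : ι n, Q n x ∧ ∀ i < J, P (e i) n x := by
    intro J n hn₀ hJ
    by_contra hcon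
    push Not at hcon
    have hn : 1 ≤ n := by omega
    have hn' : (0 : ℝ) < n := by exact_mod_cast hn
    obtain ⟨x₀, -⟩ := hex n hn₀
    have hcard : 0 < Fintype.card (ι n) := Fintype.card_pos_iff.2 ⟨x₀⟩
    have hcard' : (0 : ℝ) < (Fintype.card (ι n) : ℝ) := by exact_mod_cast hcard
    have hsub : (Finset.univ : Finset (ι n)) ⊆ (Finset.univ.filter fun x : ι n => ¬ Q n x) ∪
        (Finset.range J).biUnion fun i => Finset.univ.filter fun x : ι n => ¬ P (e i) n x := by
      intro x _
      rw [Finset.mem_union, Finset.mem_filter]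
      by_cases hx : Q n x
      · right
        obtain ⟨i, hi, hi'⟩ := hcon x hx
        rw [Finset.mem_biUnion]
        exact ⟨i, Finset.mem_range.2 hi, Finset.mem_filter.2 ⟨Finset.mem_univ _, hi'⟩⟩
      · exact Or.inl ⟨Finset.mem_univ _, hx⟩
    have h1 : (Fintype.card (ι n) : ℝ) ≤
        ((Finset.univ.filter fun x : ι n => ¬ Q n x).card : ℝ)
          + ∑ i ∈ Finset.range J, ((Finset.univ.filter fun x : ι n => ¬ P (e i) n x).card : ℝ) := by
      have h2 := (Finset.card_le_card hsub).trans (Finset.card_union_le _ _)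
      have h3 := h2.trans (Nat.add_le_add_left Finset.card_biUnion_le _)
      rw [Finset.card_univ] at h3
      exact_mod_cast h3
    have h4 : ∑ i ∈ Finset.range J, ((Finset.univ.filter fun x : ι n => ¬ P (e i) n x).card : ℝ)
        ≤ ∑ i ∈ Finset.range J, ((c (e i) : ℝ) / n * (Fintype.card (ι n) : ℝ)) :=
      Finset.sum_le_sum fun i _ => hc (e i) n hn
    have h5 : (c₀ : ℝ) / n * (Fintype.card (ι n) : ℝ)
        + ∑ i ∈ Finset.range J, ((c (e i) : ℝ) / n * (Fintype.card (ι n) : ℝ))
        = (C J : ℝ) / n * (Fintype.card (ι n) : ℝ) := by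
      rw [← Finset.sum_mul, ← add_mul, ← Finset.sum_div, ← add_div]
      simp [hC]
    have h6 : (C J : ℝ) / n < 1 := by
      rw [div_lt_one hn']
      exact_mod_cast hJ
    have h7 := hc₀ n hn
    nlinarith
  -- the largest `J ≤ n` with `C J < n + n₀`
  have key' : ∀ n : ℕ, ∃ x : ι (n + n₀), Q (n + n₀) x ∧
      ∀ i, i < n → C (i + 1) < n + n₀ → P (e i) (n + n₀) x := by
    intro n
    by_cases h0 : C 0 < n + n₀
    · set J := Nat.findGreatest (fun J => C J < n + n₀) n with hJdef
      have hJ : C J < n + n₀ := Nat.findGreatest_spec (P := fun J => C J < n + n₀) (Nat.zero_le n) h0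
      obtain ⟨x, hx, hx'⟩ := key J (n + n₀) (Nat.le_add_left _ _) hJ
      refine ⟨x, hx, fun i hi hCi => hx' i ?_⟩
      exact Nat.le_findGreatest (P := fun J => C J < n + n₀) (by omega) hCi
    · obtain ⟨x, hx⟩ := hex (n + n₀) (Nat.le_add_left _ _)
      refine ⟨x, hx, fun i _ hCi => absurd ((hCmono (Nat.zero_le (i + 1))).trans_lt hCi) h0⟩
  choose x hx hx' using key'
  refine ⟨x, hx, fun j => ?_⟩
  obtain ⟨i, rfl⟩ := he j
  refine ⟨i + 1 + C (i + 1), fun n hn => hx' n i (by omega) ?_⟩
  by_cases h : C (i + 1) < n + n₀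
  · exact h
  · have : i + 1 + C (i + 1) ≤ n := hn
    omega

/-! ### Contradictory systems of equations -/

/-- For `n ≥ 3` there is a system of `m ≥ 2` equations without solution. -/
lemma exists_unsat {n m : ℕ} (hn : 3 ≤ n) (hm : 2 ≤ m) :
    ∃ B : Fin m → Eqn n, ∀ v : Fin n → Prop, ∃ i, ¬ (eqF (B i)).eval v := by
  let f : Fin 3 ↪ Fin n := Fin.castLEEmb hn
  refine ⟨fun i => (f, decide (i.val = 0)), fun v => ?_⟩
  by_contra hcon
  push Not at hcon
  have h0 := hcon ⟨0, by omega⟩
  have h1 := hcon ⟨1, by omega⟩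
  unfold eqF at h0 h1
  simp only [decide_true, if_true] at h0
  simp only [one_ne_zero, decide_false, Bool.false_eq_true, if_false, Fm.eval] at h1
  exact h1 h0

end Xor

end GridLine
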