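import Pool.Agent.Work.MP_c07f0d_lc.SZ.Calc
import Pool.Agent.Work.MP_c07f0d_lc.SD.EfSpace

/-!
# Extended Frege proofs of almost linear size of contradictory linear systems
-/

set_option linter.unusedSectionVars false

namespace SizeSep

open FregeEF LineSize GridLine GridLine.Xor

variable {F : FregeSystem} {τ : Fm ℕ}

/-! ### Counting -/

lemma cnt_le_of_false {f : ℕ → Bool} (N : ℕ) (h : ∀ i < N, f i = false) : cnt f N = 0 := by
  induction N with
  | zero => rfl
  | succ N ih =>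
    have h1 := h N (by omega)
    simp [cnt, ih (fun i hi => h i (by omega)), h1]

lemma cnt_xor (f g : ℕ → Bool) (N : ℕ) : cnt (fun i => xor (f i) (g i)) N ≤ cnt f N + cnt g N := by
  induction N with
  | zero => simp [cnt]
  | succ N ih =>
    simp only [cnt]
    rcases Bool.eq_false_or_eq_true (f N) with hf | hf <;>
      rcases Bool.eq_false_or_eq_true (g N) with hg | hg <;>
      simp only [hf, hg, Bool.xor_true, Bool.xor_false, Bool.not_true, Bool.not_false, if_true,
        Bool.false_eq_true, if_false] <;> omega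

lemma cnt_single (a N : ℕ) : cnt (fun i => decide (i = a)) N ≤ 1 := by
  have key : cnt (fun i => decide (i = a)) N = if a < N then 1 else 0 := by
    induction N with
    | zero => simp [cnt]
    | succ N ih =>
      simp only [cnt, ih]
      by_cases h1 : a < N
      · have h2 : ¬ N = a := by omega
        simp [h1, h2, Nat.lt_succ_of_lt h1]
      · by_cases h2 : N = a
        · subst h2
          simp
        · have h3 : ¬ a < N + 1 := by omega
          simp [h1, h2, h3]
  rw [key]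
  split_ifs <;> omega

/-! ### One equation -/

lemma single_valid (v : ℕ → Prop)
    (h : ∀ p ∈ [Fm.iff (.var 0) (xor2 .bot (.var 1))], p.eval v) :
    (Fm.iff (.var 0) (.var 1)).eval v := by
  simp only [List.mem_cons, List.not_mem_nil, or_false, forall_eq, Fm.eval, Fm.iff, xor2] at h ⊢
  tauto

/-- A chain with one variable. -/
lemma single (s : St F τ) {N a : ℕ} {P : ℕ → Fm ℕ} (ha : a < N)
    (hP : Chain s.L s.k (fun i => decide (i = a)) N P) (hN : N ≤ s.k) :
    ∃ s' : St F τ, Cont F.K s s' ∧ s'.k = s.k ∧ Fm.iff (P N) (.var a) ∈ s'.L := by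
  have h1 : P a = .bot := by
    rw [hP.const (i := 0) (Nat.zero_le a) ha.le (fun l _ hl => by
      have : ¬ l = a := by omega
      simp [this]), hP.zero]
  have h2 : P N = P (a + 1) := hP.const (by omega) le_rfl (fun l hl _ => by
      have : ¬ l = a := by omega
      simp [this])
  have h3 := hP.ax a ha (by simp)
  rw [h1, ← h2] at h3
  obtain ⟨s', b1, b2, b3⟩ := s.rule (M := 1) le_rfl [Fm.iff (.var 0) (xor2 .bot (.var 1))]
    (Fm.iff (.var 0) (.var 1)) [P N, .var a] (by decide) single_valid (by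
      simp only [List.mem_cons, List.not_mem_nil, or_false, forall_eq_or_imp, forall_eq]
      exact ⟨hP.size _ le_rfl, le_rfl⟩) (by
      simp only [List.mem_cons, List.not_mem_nil, or_false, forall_eq_or_imp, forall_eq]
      exact ⟨hP.bel _ le_rfl, bel_var (by omega)⟩) (by
      simp only [List.mem_cons, List.not_mem_nil, or_false, forall_eq]
      simpa [Fm.subst, sub, xor2, Fm.iff] using h3)
  refine ⟨s', b1.mono (by omega), b2, ?_⟩
  simpa [Fm.subst, sub, xor2, Fm.iff] using b3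

/-- The premises for one equation. -/
def lPrem (r : Bool) : List (Fm ℕ) :=
  [.imp (.var 0) (LineSize.litF r (xor2 (xor2 (.var 1) (.var 2)) (.var 3))),
    Fm.iff (.var 4) (.var 1), Fm.iff (.var 5) (.var 2), Fm.iff (.var 6) (.var 3),
    Fm.iff (.var 7) (xor2 (.var 4) (.var 5)), Fm.iff (.var 8) (xor2 (.var 7) (.var 6))]

lemma l_test (r : Bool) :
    smallTest (lPrem r) (.imp (.var 0) (LineSize.litF r (.var 8))) = true := by
  cases r <;> decide

lemma l_valid (r : Bool) (v : ℕ → Prop) (h : ∀ p ∈ lPrem r, p.eval v) :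
    (Fm.imp (.var 0) (LineSize.litF r (.var 8))).eval v := by
  simp only [lPrem, List.mem_cons, List.not_mem_nil, or_false, forall_eq_or_imp, forall_eq] at h
  obtain ⟨h1, h2, h3, h4, h5, h6⟩ := h
  cases r <;>
    simp only [LineSize.litF, Fm.iff, xor2, Fm.eval, Bool.false_eq_true, if_false, if_true]
      at h1 h2 h3 h4 h5 h6 ⊢ <;>
    (by_cases a1 : v 1 <;> by_cases a2 : v 2 <;> by_cases a3 : v 3 <;> simp_all)

lemma litF_substN {α β : Type} (p : Bool) (φ : Fm α) (σ : α → Fm β) :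
    (LineSize.litF p φ).subst σ = LineSize.litF p (φ.subst σ) := by
  cases p <;> simp [LineSize.litF, Fm.subst]

/-- The set of the three variables of an equation. -/
def tri (x y z : ℕ) : ℕ → Bool :=
  fun i => xor (xor (decide (i = x)) (decide (i = y))) (decide (i = z))

lemma cnt_tri (x y z N : ℕ) : cnt (tri x y z) N ≤ 3 := by
  have h1 := cnt_xor (fun i => xor (decide (i = x)) (decide (i = y))) (fun i => decide (i = z)) N
  have h2 := cnt_xor (fun i => decide (i = x)) (fun i => decide (i = y)) N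
  have h3 := cnt_single x N
  have h4 := cnt_single y N
  have h5 := cnt_single z N
  unfold tri
  omega

/-- One equation. -/
lemma leaf (s : St F τ) {n x y z : ℕ} (r : Bool) (G : Fm ℕ) (hG : G.size ≤ 1) (hGk : Bel s.k G)
    (hx : x < n) (hy : y < n) (hz : z < n) (hn : n ≤ s.k)
    (hE : Fm.imp G (LineSize.litF r (xor2 (xor2 (.var x) (.var y)) (.var z))) ∈ s.L) :
    ∃ (s' : St F τ) (Q : ℕ → Fm ℕ), Cont (200 * F.K) s s' ∧ Chain s'.L s'.k (tri x y z) n Q ∧
      Fm.imp G (LineSize.litF r (Q n)) ∈ s'.L := by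
  have hK := F.K_pos
  obtain ⟨s1, Px, a1, b1⟩ := mk_chain s (fun i => decide (i = x)) n hn
  obtain ⟨s2, Py, a2, b2⟩ := mk_chain s1 (fun i => decide (i = y)) n (hn.trans a1.2.1)
  obtain ⟨s3, Pz, a3, b3⟩ := mk_chain s2 (fun i => decide (i = z)) n
    ((hn.trans a1.2.1).trans a2.2.1)
  obtain ⟨s4, R, a4, b4⟩ := mk_chain s3 (fun i => xor (decide (i = x)) (decide (i = y))) n
    (((hn.trans a1.2.1).trans a2.2.1).trans a3.2.1)
  obtain ⟨s5, Q, a5, b5⟩ := mk_chain s4 (tri x y z) n
    ((((hn.trans a1.2.1).trans a2.2.1).trans a3.2.1).trans a4.2.1)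
  have hn5 : n ≤ s5.k := (((((hn.trans a1.2.1).trans a2.2.1).trans a3.2.1).trans a4.2.1).trans
    a5.2.1)
  have cx := cnt_single x n
  have cy := cnt_single y n
  have cz := cnt_single z n
  have cR := cnt_xor (fun i => decide (i = x)) (fun i => decide (i = y)) n
  have cQ := cnt_tri x y z n
  have c25 : Cont (23 * 7) s1 s5 := by
    refine ((a2.trans a3 le_rfl).trans (a4.trans a5 le_rfl) le_rfl).mono ?_
    omega
  have hPx := b1.cont c25
  have hPy := b2.cont ((a3.trans a4 le_rfl).trans a5 le_rfl)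
  have hPz := b3.cont (a4.trans a5 le_rfl)
  have hR := b4.cont a5
  obtain ⟨s6, a6, k6, m6⟩ := single s5 hx hPx hn5
  obtain ⟨s7, a7, k7, m7⟩ := single s6 hy (hPy.cont a6) (by omega)
  obtain ⟨s8, a8, k8, m8⟩ := single s7 hz (hPz.cont (a6.trans a7 le_rfl)) (by omega)
  have c58 := (a6.trans a7 le_rfl).trans a8 le_rfl
  obtain ⟨s9, a9, k9, m9⟩ := merge s8 (hPx.cont c58) (hPy.cont c58) (hR.cont c58) (by omega) n le_rfl
  have c59 := c58.trans a9 le_rfl
  obtain ⟨s10, a10, k10, m10⟩ := merge s9 (hR.cont c59) (hPz.cont c59)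
    (b5.cont c59) (by omega) n le_rfl
  have c510 := c59.trans a10 le_rfl
  have hθ : ∀ t ∈ [G, Fm.var x, .var y, .var z, Px n, Py n, Pz n, R n, Q n],
      t.size ≤ 1 ∧ Bel s10.k t := by
    intro t ht
    simp only [List.mem_cons, List.not_mem_nil, or_false] at ht
    have hk : s10.k = s5.k := by omega
    rw [hk]
    rcases ht with rfl | rfl | rfl | rfl | rfl | rfl | rfl | rfl | rfl
    · exact ⟨hG, hGk.mono (by have := c25.2.1; have := a1.2.1; omega)⟩
    · exact ⟨le_rfl, bel_var (by omega)⟩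
    · exact ⟨le_rfl, bel_var (by omega)⟩
    · exact ⟨le_rfl, bel_var (by omega)⟩
    · exact ⟨hPx.size _ le_rfl, hPx.bel _ le_rfl⟩
    · exact ⟨hPy.size _ le_rfl, hPy.bel _ le_rfl⟩
    · exact ⟨hPz.size _ le_rfl, hPz.bel _ le_rfl⟩
    · exact ⟨hR.size _ le_rfl, hR.bel _ le_rfl⟩
    · exact ⟨b5.size _ le_rfl, b5.bel _ le_rfl⟩
  have hs10 : s.L ⊆ s10.L := fun t ht => c510.1 (c25.1 (a1.1 ht))
  obtain ⟨s11, a11, k11, m11⟩ := s10.rule (M := 1) le_rfl (lPrem r)
    (.imp (.var 0) (LineSize.litF r (.var 8))) [G, .var x, .var y, .var z, Px n, Py n, Pz n, R n, Q n]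
    (l_test r) (l_valid r) (fun t ht => (hθ t ht).1) (fun t ht => (hθ t ht).2) (by
      simp only [lPrem, List.mem_cons, List.not_mem_nil, or_false, forall_eq_or_imp, forall_eq]
      refine ⟨?_, ?_, ?_, ?_, ?_, ?_⟩
      · simpa [litF_substN, Fm.subst, sub, xor2] using hs10 hE
      · simpa [Fm.subst, sub, xor2, Fm.iff] using a10.1 (a9.1 (a8.1 (a7.1 m6)))
      · simpa [Fm.subst, sub, xor2, Fm.iff] using a10.1 (a9.1 (a8.1 m7))
      · simpa [Fm.subst, sub, xor2, Fm.iff] using a10.1 (a9.1 m8)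
      · simpa [Fm.subst, sub, xor2, Fm.iff] using a10.1 m9
      · simpa [Fm.subst, sub, xor2, Fm.iff] using m10)
  refine ⟨s11, Q, ?_, (b5.cont c510).cont a11, ?_⟩
  · refine ((a1.trans c25 le_rfl).trans (c510.trans a11 le_rfl) le_rfl).mono ?_
    have e1 : F.K * (1 + cnt (fun i => decide (i = x)) n + cnt (fun i => decide (i = y)) n)
        ≤ F.K * 3 := Nat.mul_le_mul_left _ (by omega)
    have e2 : F.K * (1 + cnt (fun i => xor (decide (i = x)) (decide (i = y))) n
        + cnt (fun i => decide (i = z)) n) ≤ F.K * 4 := Nat.mul_le_mul_left _ (by omega)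
    omega
  · simpa [litF_substN, Fm.subst, sub] using m11

/-! ### The sum of a list of equations -/

variable {n m : ℕ}

/-- The variables of the sum of a list of equations. -/
noncomputable def fl (A : Fin m → Cl n) (l : List (Fin m)) : ℕ → Bool :=
  fun i => valB (fun u => memF (A u) i) l

/-- The right hand side of the sum. -/
def bl (A : Fin m → Cl n) (l : List (Fin m)) : Bool := valB (fun u => clRhs (A u)) l

/-- The equation, with variables in `ℕ`. -/
def eqN (c : Cl n) : Fm ℕ := (xorF c).subst fun i : Fin n => (.var (i : ℕ) : Fm ℕ)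

lemma eqN_eq (c : Cl n) : eqN c = LineSize.litF (clRhs c)
    (xor2 (xor2 (.var (c.1 0 : ℕ)) (.var (c.1 1 : ℕ))) (.var (c.1 2 : ℕ))) := by
  unfold eqN xorF LineSize.litF xF
  split_ifs <;> simp [Fm.subst, xor2]

lemma memF_tri (c : Cl n) (i : ℕ) : memF c i = tri (c.1 0) (c.1 1) (c.1 2) i := by
  have h := congrFun (tog3 (fun _ => false) c) i
  simp only [tog, Bool.false_xor] at h
  rw [← h]
  rfl

lemma cnt_congr {f g : ℕ → Bool} (h : ∀ i, f i = g i) (N : ℕ) : cnt f N = cnt g N := by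
  have : f = g := funext h
  rw [this]

lemma cnt_fl (A : Fin m → Cl n) (l : List (Fin m)) (N : ℕ) : cnt (fl A l) N ≤ 3 * l.length := by
  induction l with
  | nil =>
    rw [cnt_le_of_false (f := fl A []) N (fun i _ => rfl)]
    omega
  | cons u l ih =>
    have h1 := cnt_xor (fun i => memF (A u) i) (fl A l) N
    have h2 : cnt (fun i => memF (A u) i) N ≤ 3 := by
      rw [cnt_congr (memF_tri (A u))]
      exact cnt_tri _ _ _ _
    have h3 : cnt (fl A (u :: l)) N = cnt (fun i => xor (memF (A u) i) (fl A l i)) N := rfl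
    rw [h3, List.length_cons]
    omega

/-- The premises for the sum of two equations. -/
def sPrem (a b : Bool) : List (Fm ℕ) :=
  [.imp (.var 0) (LineSize.litF a (.var 1)), .imp (.var 0) (LineSize.litF b (.var 2)),
    Fm.iff (.var 3) (xor2 (.var 1) (.var 2))]

lemma s_test (a b : Bool) :
    smallTest (sPrem a b) (.imp (.var 0) (LineSize.litF (xor a b) (.var 3))) = true := by
  cases a <;> cases b <;> decide

lemma s_valid (a b : Bool) (v : ℕ → Prop) (h : ∀ p ∈ sPrem a b, p.eval v) :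
    (Fm.imp (.var 0) (LineSize.litF (xor a b) (.var 3))).eval v := by
  simp only [sPrem, List.mem_cons, List.not_mem_nil, or_false, forall_eq_or_imp, forall_eq] at h
  obtain ⟨h1, h2, h3⟩ := h
  cases a <;> cases b <;>
    simp only [LineSize.litF, Fm.iff, xor2, Fm.eval, Bool.false_eq_true, if_false, if_true,
      Bool.xor_false, Bool.xor_true, Bool.not_true, Bool.not_false] at h1 h2 h3 ⊢ <;>
    (by_cases a1 : v 1 <;> by_cases a2 : v 2 <;> simp_all)

/-- The sum of a list of equations, by repeated halving. -/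
lemma sum_tree (A : Fin m → Cl n) (G : Fm ℕ) (hG : G.size ≤ 1) : ∀ (κ : ℕ) (l : List (Fin m))
    (s : St F τ), l.length ≤ 2 ^ κ → Bel s.k G → n ≤ s.k →
    (∀ u ∈ l, Fm.imp G (eqN (A u)) ∈ s.L) →
    ∃ (s' : St F τ) (Q : ℕ → Fm ℕ), Cont (200 * F.K * (2 ^ κ * (κ + 1))) s s' ∧
      Chain s'.L s'.k (fl A l) n Q ∧ Fm.imp G (LineSize.litF (bl A l) (Q n)) ∈ s'.L := by
  have hK := F.K_pos
  intro κ
  induction κ with
  | zero =>
    intro l s hl hGk hn hE
    match l, hl, hE with
    | [], _, _ =>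
      obtain ⟨s1, Q, a1, b1⟩ := mk_chain s (fl A []) n hn
      have h0 : Q n = .bot := by
        rw [b1.const (i := 0) (Nat.zero_le n) le_rfl (fun _ _ _ => rfl), b1.zero]
      obtain ⟨s2, a2, k2, m2⟩ := s1.rule (M := 1) le_rfl [] (.imp (.var 0) (.neg .bot)) [G]
        (by decide) (by intro v _; exact fun _ h => h) (by simpa using hG)
        (by simpa using hGk.mono a1.2.1) (by simp)
      refine ⟨s2, Q, ?_, b1.cont a2, ?_⟩
      · refine (a1.trans a2 le_rfl).mono ?_
        rw [cnt_le_of_false (f := fl A []) n (fun i _ => rfl)]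
        omega
      · rw [h0]
        have : bl A [] = false := rfl
        rw [this]
        simpa [LineSize.litF, Fm.subst, sub] using m2
    | [u], _, hE =>
      have h1 := hE u (List.mem_singleton.2 rfl)
      rw [eqN_eq] at h1
      obtain ⟨s', Q, a, b, c⟩ := leaf s (clRhs (A u)) G hG hGk ((A u).1 0).2 ((A u).1 1).2
        ((A u).1 2).2 hn h1
      refine ⟨s', Q, a.mono (by omega), ?_, ?_⟩
      · have : fl A [u] = tri ((A u).1 0) ((A u).1 1) ((A u).1 2) := by
          funext i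
          rw [← memF_tri]
          simp [fl, valB]
        rw [this]
        exact b
      · have : bl A [u] = clRhs (A u) := by simp [bl, valB]
        rw [this]
        exact c
    | _ :: _ :: _, hl, _ => simp at hl
  | succ κ ih =>
    intro l s hl hGk hn hE
    have l1 : (l.take (2 ^ κ)).length ≤ 2 ^ κ := by
      rw [List.length_take]
      omega
    have l2 : (l.drop (2 ^ κ)).length ≤ 2 ^ κ := by
      rw [List.length_drop]
      rw [pow_succ] at hl
      omega
    obtain ⟨s1, P, a1, b1, c1⟩ := ih (l.take (2 ^ κ)) s l1 hGk hn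
      (fun u hu => hE u (List.mem_of_mem_take hu))
    obtain ⟨s2, Q, a2, b2, c2⟩ := ih (l.drop (2 ^ κ)) s1 l2 (hGk.mono a1.2.1) (hn.trans a1.2.1)
      (fun u hu => a1.1 (hE u (List.mem_of_mem_drop hu)))
    have hfl : fl A l = fun i => xor (fl A (l.take (2 ^ κ)) i) (fl A (l.drop (2 ^ κ)) i) := by
      funext i
      show valB _ l = xor (valB _ _) (valB _ _)
      rw [← valB_append, List.take_append_drop]
    have hbl : bl A l = xor (bl A (l.take (2 ^ κ))) (bl A (l.drop (2 ^ κ))) := by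
      show valB _ l = xor (valB _ _) (valB _ _)
      rw [← valB_append, List.take_append_drop]
    have hn2 : n ≤ s2.k := (hn.trans a1.2.1).trans a2.2.1
    obtain ⟨s3, R, a3, b3⟩ := mk_chain s2 (fl A l) n hn2
    have hn3 : n ≤ s3.k := hn2.trans a3.2.1
    have b3' := b3
    rw [hfl] at b3'
    have hP := b1.cont (a2.trans a3 le_rfl)
    have hQ := b2.cont a3
    obtain ⟨s4, a4, k4, m4⟩ := merge s3 hP hQ b3' hn3 n le_rfl
    have hθ : ∀ t ∈ [G, P n, Q n, R n], t.size ≤ 1 ∧ Bel s4.k t := by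
      intro t ht
      rw [k4]
      simp only [List.mem_cons, List.not_mem_nil, or_false] at ht
      rcases ht with rfl | rfl | rfl | rfl
      · exact ⟨hG, hGk.mono ((a1.2.1.trans a2.2.1).trans a3.2.1)⟩
      · exact ⟨hP.size _ le_rfl, hP.bel _ le_rfl⟩
      · exact ⟨hQ.size _ le_rfl, hQ.bel _ le_rfl⟩
      · exact ⟨b3.size _ le_rfl, b3.bel _ le_rfl⟩
    obtain ⟨s5, a5, k5, m5⟩ := s4.rule (M := 1) le_rfl
      (sPrem (bl A (l.take (2 ^ κ))) (bl A (l.drop (2 ^ κ))))
      (.imp (.var 0) (LineSize.litF (xor (bl A (l.take (2 ^ κ))) (bl A (l.drop (2 ^ κ)))) (.var 3)))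
      [G, P n, Q n, R n] (s_test _ _) (s_valid _ _) (fun t ht => (hθ t ht).1)
      (fun t ht => (hθ t ht).2) (by
        simp only [sPrem, List.mem_cons, List.not_mem_nil, or_false, forall_eq_or_imp, forall_eq]
        refine ⟨?_, ?_, ?_⟩
        · simpa [litF_substN, Fm.subst, sub] using a4.1 (a3.1 (a2.1 c1))
        · simpa [litF_substN, Fm.subst, sub] using a4.1 (a3.1 c2)
        · simpa [Fm.subst, sub, xor2, Fm.iff] using m4)
    refine ⟨s5, R, ?_, b3.cont (a4.trans a5 le_rfl), ?_⟩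
    · refine (((a1.trans a2 le_rfl).trans a3 le_rfl).trans (a4.trans a5 le_rfl) le_rfl).mono ?_
      have e1 := cnt_fl A l n
      have e2 := cnt_fl A (l.take (2 ^ κ)) n
      have e3 := cnt_fl A (l.drop (2 ^ κ)) n
      have hp : 1 ≤ 2 ^ κ := Nat.one_le_two_pow
      rw [pow_succ] at hl ⊢
      generalize 2 ^ κ = p at *
      have e4 : F.K * (1 + cnt (fl A (l.take p)) n + cnt (fl A (l.drop p)) n)
          ≤ F.K * (1 + 6 * p) := Nat.mul_le_mul_left _ (by omega)
      have e5 : 23 * cnt (fl A l) n ≤ F.K * (138 * p) := by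
        calc 23 * cnt (fl A l) n ≤ 1 * (138 * p) := by omega
          _ ≤ F.K * (138 * p) := Nat.mul_le_mul_right _ hK
      have e6 : F.K * 1 ≤ F.K * p := Nat.mul_le_mul_left _ hp
      have e7 : 200 * F.K * (p * 2 * (κ + 1 + 1)) = 200 * F.K * (p * (κ + 1))
          + 200 * F.K * (p * (κ + 1)) + 400 * (F.K * p) := by ring
      have e8 : F.K * (1 + 6 * p) = F.K * 1 + 6 * (F.K * p) := by ring
      have e9 : F.K * (138 * p) = 138 * (F.K * p) := by ring
      rw [e7]
      omega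
    · rw [hbl]
      simpa [litF_substN, Fm.subst, sub] using m5

/-! ### The conjunction -/

/-- Balanced conjunction of `f s, ..., f (s + 2 ^ κ - 1)`. -/
def conjT {α : Type} (f : ℕ → Fm α) : ℕ → ℕ → Fm α
  | 0, s => f s
  | κ + 1, s => .and (conjT f κ s) (conjT f κ (s + 2 ^ κ))

lemma conjT_subst {α β : Type} (f : ℕ → Fm α) (σ : α → Fm β) (κ : ℕ) : ∀ s,
    (conjT f κ s).subst σ = conjT (fun i => (f i).subst σ) κ s := by
  induction κ with
  | zero => exact fun s => rfl
  | succ κ ih =>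
    intro s
    simp only [conjT, Fm.subst, ih]

lemma conjT_size {α : Type} {a : ℕ} (f : ℕ → Fm α) (hf : ∀ i, (f i).size ≤ a) (κ : ℕ) : ∀ s,
    (conjT f κ s).size + 1 ≤ 2 ^ κ * (a + 1) := by
  induction κ with
  | zero => intro s; simpa [conjT] using hf s
  | succ κ ih =>
    intro s
    have h1 := ih s
    have h2 := ih (s + 2 ^ κ)
    simp only [conjT, Fm.size]
    have h3 : 2 ^ (κ + 1) * (a + 1) = 2 ^ κ * (a + 1) + 2 ^ κ * (a + 1) := by ring
    omega

lemma conjT_bel {k : ℕ} (f : ℕ → Fm ℕ) (hf : ∀ i, Bel k (f i)) (κ : ℕ) : ∀ s,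
    Bel k (conjT f κ s) := by
  induction κ with
  | zero => exact fun s => hf s
  | succ κ ih =>
    intro s x hx
    rcases hx with h | h
    · exact ih _ x h
    · exact ih _ x h

lemma c_valid1 (v : ℕ → Prop) (h : ∀ p ∈ [Fm.iff (.var 0) (.var 1)], p.eval v) :
    (Fm.imp (.var 1) (.var 0)).eval v := by
  simp only [List.mem_cons, List.not_mem_nil, or_false, forall_eq, Fm.eval, Fm.iff] at h ⊢
  tauto

lemma c_valid2 (v : ℕ → Prop) (h : ∀ p ∈ [Fm.iff (.var 0) (.var 1)], p.eval v) :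
    (Fm.imp (.var 0) (.var 1)).eval v := by
  simp only [List.mem_cons, List.not_mem_nil, or_false, forall_eq, Fm.eval, Fm.iff] at h ⊢
  tauto

lemma c_valid3 (v : ℕ → Prop)
    (h : ∀ p ∈ [.imp (.var 0) (.var 1), .imp (.var 2) (.var 3),
      Fm.iff (.var 4) (.and (.var 1) (.var 3))], p.eval v) :
    (Fm.imp (.and (.var 0) (.var 2)) (.var 4)).eval v := by
  simp only [List.mem_cons, List.not_mem_nil, or_false, forall_eq_or_imp, forall_eq, Fm.eval,
    Fm.iff] at h ⊢
  tauto

lemma c_valid4 (v : ℕ → Prop)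
    (h : ∀ p ∈ [.imp (.var 0) (.var 1), Fm.iff (.var 3) (.and (.var 0) (.var 2))], p.eval v) :
    (Fm.imp (.var 3) (.var 1)).eval v := by
  simp only [List.mem_cons, List.not_mem_nil, or_false, forall_eq_or_imp, forall_eq, Fm.eval,
    Fm.iff] at h ⊢
  tauto

lemma c_valid5 (v : ℕ → Prop)
    (h : ∀ p ∈ [.imp (.var 2) (.var 1), Fm.iff (.var 3) (.and (.var 0) (.var 2))], p.eval v) :
    (Fm.imp (.var 3) (.var 1)).eval v := by
  simp only [List.mem_cons, List.not_mem_nil, or_false, forall_eq_or_imp, forall_eq, Fm.eval,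
    Fm.iff] at h ⊢
  tauto

lemma conj_ef {a : ℕ} (ha : 1 ≤ a) (f : ℕ → Fm ℕ) (hf : ∀ i, (f i).size ≤ a) :
    ∀ (κ s₀ : ℕ) (s : St F τ), (∀ i, Bel s.k (f i)) →
    ∃ (s' : St F τ) (G : Fm ℕ), Cont (20 * F.K * (a + 1) * (2 ^ κ * (κ + 1))) s s' ∧
      G.size ≤ 1 ∧ Bel s'.k G ∧ Fm.imp (conjT f κ s₀) G ∈ s'.L ∧
      ∀ i < 2 ^ κ, Fm.imp G (f (s₀ + i)) ∈ s'.L := by
  have hK := F.K_pos
  intro κ
  induction κ with
  | zero =>
    intro s₀ s hb
    obtain ⟨s1, a1, k1, m1⟩ := s.ext (f s₀) (hb s₀)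
    have hθ : ∀ t ∈ [Fm.var s.k, f s₀], t.size ≤ a ∧ Bel s1.k t := by
      intro t ht
      simp only [List.mem_cons, List.not_mem_nil, or_false] at ht
      rcases ht with rfl | rfl
      · exact ⟨ha, bel_var (by omega)⟩
      · exact ⟨hf _, (hb _).mono a1.2.1⟩
    obtain ⟨s2, a2, k2, m2⟩ := s1.rule ha [Fm.iff (.var 0) (.var 1)] (.imp (.var 1) (.var 0))
      [.var s.k, f s₀] (by decide) c_valid1 (fun t ht => (hθ t ht).1) (fun t ht => (hθ t ht).2) (by
        simp only [List.mem_cons, List.not_mem_nil, or_false, forall_eq]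
        simpa [Fm.subst, sub, Fm.iff] using m1)
    obtain ⟨s3, a3, k3, m3⟩ := s2.rule ha [Fm.iff (.var 0) (.var 1)] (.imp (.var 0) (.var 1))
      [.var s.k, f s₀] (by decide) c_valid2 (fun t ht => (hθ t ht).1)
      (fun t ht => (hθ t ht).2.mono (by omega)) (by
        simp only [List.mem_cons, List.not_mem_nil, or_false, forall_eq]
        simpa [Fm.subst, sub, Fm.iff] using a2.1 m1)
    refine ⟨s3, .var s.k, ?_, le_rfl, bel_var (by omega), ?_, ?_⟩
    · refine ((a1.trans a2 le_rfl).trans a3 le_rfl).mono ?_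
      have h1 := hf s₀
      have h2 : a ≤ F.K * a := Nat.le_mul_of_pos_left _ hK
      have h3 : 20 * F.K * (a + 1) * (2 ^ 0 * (0 + 1)) = 20 * (F.K * a) + 20 * F.K := by ring
      rw [h3]
      omega
    · have := a3.1 m2
      simpa [Fm.subst, sub, conjT] using this
    · intro i hi
      have : i = 0 := by simpa using hi
      subst this
      simpa [Fm.subst, sub] using m3
  | succ κ ih =>
    intro s₀ s hb
    obtain ⟨s1, G1, a1, g1, h1, i1, j1⟩ := ih s₀ s hb
    obtain ⟨s2, G2, a2, g2, h2, i2, j2⟩ := ih (s₀ + 2 ^ κ) s1 (fun i => (hb i).mono a1.2.1)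
    have hG1 : Bel s2.k G1 := h1.mono a2.2.1
    obtain ⟨s3, a3, k3, m3⟩ := s2.ext (.and G1 G2) (fun x hx => hx.elim (hG1 x) (h2 x))
    have hb3 : ∀ i, Bel s3.k (f i) := fun i => (hb i).mono ((a1.2.1.trans a2.2.1).trans a3.2.1)
    have hp : 1 ≤ 2 ^ κ := Nat.one_le_two_pow
    have hM : 1 ≤ 2 ^ κ * (a + 1) := Nat.mul_pos hp (by omega)
    have z1 := conjT_size f hf κ s₀
    have z2 := conjT_size f hf κ (s₀ + 2 ^ κ)
    obtain ⟨s4, a4, k4, m4⟩ := s3.rule hM [.imp (.var 0) (.var 1), .imp (.var 2) (.var 3),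
      Fm.iff (.var 4) (.and (.var 1) (.var 3))] (.imp (.and (.var 0) (.var 2)) (.var 4))
      [conjT f κ s₀, G1, conjT f κ (s₀ + 2 ^ κ), G2, .var s2.k] (by decide) c_valid3 (by
        simp only [List.mem_cons, List.not_mem_nil, or_false, forall_eq_or_imp, forall_eq]
        exact ⟨by omega, by omega, by omega, by omega, hM⟩) (by
        simp only [List.mem_cons, List.not_mem_nil, or_false, forall_eq_or_imp, forall_eq]
        exact ⟨conjT_bel f hb3 κ _, hG1.mono a3.2.1, conjT_bel f hb3 κ _, h2.mono a3.2.1,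
          bel_var (by omega)⟩) (by
        simp only [List.mem_cons, List.not_mem_nil, or_false, forall_eq_or_imp, forall_eq]
        refine ⟨?_, ?_, ?_⟩
        · simpa [Fm.subst, sub] using a3.1 (a2.1 i1)
        · simpa [Fm.subst, sub] using a3.1 i2
        · simpa [Fm.subst, sub, Fm.iff] using m3)
    have hθ : ∀ i, ∀ t ∈ [G1, f i, G2, .var s2.k], t.size ≤ a ∧ Bel s3.k t := by
      intro i t ht
      simp only [List.mem_cons, List.not_mem_nil, or_false] at ht
      rcases ht with rfl | rfl | rfl | rfl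
      · exact ⟨g1.trans ha, hG1.mono a3.2.1⟩
      · exact ⟨hf _, hb3 _⟩
      · exact ⟨g2.trans ha, h2.mono a3.2.1⟩
      · exact ⟨ha, bel_var (by omega)⟩
    obtain ⟨s5, a5, k5, m5⟩ := s4.loop (fun i => .imp (.var s2.k) (f (s₀ + i))) (F.K * a) (2 ^ κ) (by
      intro i hi s' hs' hk'
      obtain ⟨s'', b1, b2, b3⟩ := s'.rule ha [.imp (.var 0) (.var 1),
        Fm.iff (.var 3) (.and (.var 0) (.var 2))] (.imp (.var 3) (.var 1))
        [G1, f (s₀ + i), G2, .var s2.k] (by decide) c_valid4 (fun t ht => (hθ _ t ht).1)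
        (fun t ht => (hθ _ t ht).2.mono (by omega)) (by
          simp only [List.mem_cons, List.not_mem_nil, or_false, forall_eq_or_imp, forall_eq]
          refine ⟨?_, ?_⟩
          · simpa [Fm.subst, sub] using hs' (a4.1 (a3.1 (a2.1 (j1 i hi))))
          · simpa [Fm.subst, sub, Fm.iff] using hs' (a4.1 m3))
      exact ⟨s'', b1, b2, by simpa [Fm.subst, sub] using b3⟩)
    obtain ⟨s6, a6, k6, m6⟩ := s5.loop (fun i => .imp (.var s2.k) (f (s₀ + 2 ^ κ + i))) (F.K * a)
      (2 ^ κ) (by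
      intro i hi s' hs' hk'
      obtain ⟨s'', b1, b2, b3⟩ := s'.rule ha [.imp (.var 2) (.var 1),
        Fm.iff (.var 3) (.and (.var 0) (.var 2))] (.imp (.var 3) (.var 1))
        [G1, f (s₀ + 2 ^ κ + i), G2, .var s2.k] (by decide) c_valid5 (fun t ht => (hθ _ t ht).1)
        (fun t ht => (hθ _ t ht).2.mono (by omega)) (by
          simp only [List.mem_cons, List.not_mem_nil, or_false, forall_eq_or_imp, forall_eq]
          refine ⟨?_, ?_⟩
          · simpa [Fm.subst, sub] using hs' (a5.1 (a4.1 (a3.1 (j2 i hi))))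
          · simpa [Fm.subst, sub, Fm.iff] using hs' (a5.1 (a4.1 m3)))
      exact ⟨s'', b1, b2, by simpa [Fm.subst, sub] using b3⟩)
    refine ⟨s6, .var s2.k, ?_, le_rfl, bel_var (by omega), ?_, ?_⟩
    · refine ((((a1.trans a2 le_rfl).trans a3 le_rfl).trans (a4.trans a5 le_rfl) le_rfl).trans
        a6 le_rfl).mono ?_
      rw [pow_succ]
      generalize 2 ^ κ = p at *
      have e1 : (Fm.and G1 G2).size ≤ 3 := by
        simp only [Fm.size]
        omega
      have e2 : F.K * 1 ≤ F.K * p := Nat.mul_le_mul_left _ hp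
      have e3 : 20 * F.K * (a + 1) * (p * 2 * (κ + 1 + 1)) = 20 * F.K * (a + 1) * (p * (κ + 1))
          + 20 * F.K * (a + 1) * (p * (κ + 1)) + 40 * (F.K * p * a) + 40 * (F.K * p) := by ring
      have e4 : F.K * (p * (a + 1)) = F.K * p * a + F.K * p := by ring
      have e5 : F.K * a * p = F.K * p * a := by ring
      rw [e3, e4, e5]
      omega
    · have := a6.1 (a5.1 m4)
      simpa [Fm.subst, sub, conjT] using this
    · intro i hi
      rcases Nat.lt_or_ge i (2 ^ κ) with hc | hc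
      · exact a6.1 (m5 i hc)
      · have h5 := m6 (i - 2 ^ κ) (by rw [pow_succ] at hi; omega)
        have h6 : s₀ + 2 ^ κ + (i - 2 ^ κ) = s₀ + i := by omega
        rw [h6] at h5
        exact h5

/-! ### The tautologies -/

/-- The equations, padded by the true formula. -/
def eqE (A : Fin m → Cl n) (i : ℕ) : Fm (Fin n) := if h : i < m then xorF (A ⟨i, h⟩) else .neg .bot

lemma eqE_size (A : Fin m → Cl n) (i : ℕ) : (eqE A i).size ≤ 26 := by
  unfold eqE
  split_ifs
  · exact xorF_size _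
  · simp [Fm.size]

/-- The negation of the balanced conjunction of the equations. -/
def tauF (A : Fin m → Cl n) : Fm (Fin n) := .neg (conjT (eqE A) (Nat.clog 2 m) 0)

/-- The negation of the balanced conjunction of the equations, with variables in `ℕ`. -/
def tauN (A : Fin m → Cl n) : Fm ℕ := (tauF A).subst fun i : Fin n => (.var (i : ℕ) : Fm ℕ)

lemma tauN_eq (A : Fin m → Cl n) : tauN A
    = .neg (conjT (fun i => (eqE A i).subst fun i : Fin n => (.var (i : ℕ) : Fm ℕ)) (Nat.clog 2 m) 0) := by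
  unfold tauN tauF
  rw [Fm.subst, conjT_subst]

lemma bel_toN (φ : Fm (Fin n)) : Bel n (φ.subst fun i : Fin n => (.var (i : ℕ) : Fm ℕ)) := by
  induction φ with
  | var i => exact bel_var i.2
  | bot => exact bel_bot _
  | neg φ ih => exact fun j hj => ih j hj
  | and φ ψ ih1 ih2 => exact fun j hj => hj.elim (ih1 j) (ih2 j)
  | or φ ψ ih1 ih2 => exact fun j hj => hj.elim (ih1 j) (ih2 j)
  | imp φ ψ ih1 ih2 => exact fun j hj => hj.elim (ih1 j) (ih2 j)

lemma size_toN (φ : Fm (Fin n)) :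
    (φ.subst fun i : Fin n => (.var (i : ℕ) : Fm ℕ)).size = φ.size := by
  induction φ <;> simp_all [Fm.subst, Fm.size]

lemma ef_suffix {R : List Rule} {L : List (Fm ℕ)} {E : List (ℕ × Fm ℕ)} (h : IsEF R τ L E)
    {φ : Fm ℕ} (hφ : φ ∈ L) : ∃ L' E', IsEF R τ (φ :: L') E' ∧ lsize (φ :: L') ≤ lsize L := by
  induction h with
  | nil => simp at hφ
  | @step L E ψ hL hi ih =>
    rcases List.mem_cons.1 hφ with h | h
    · subst h; exact ⟨L, E, hL.step hi, le_rfl⟩
    · obtain ⟨L', E', h1, h2⟩ := ih h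
      exact ⟨L', E', h1, by rw [lsize_cons ψ]; omega⟩
  | @ext L E q ψ hL h1 h2 h3 ih =>
    rcases List.mem_cons.1 hφ with h | h
    · subst h; exact ⟨L, _, hL.ext q ψ h1 h2 h3, le_rfl⟩
    · obtain ⟨L', E', h4, h5⟩ := ih h
      exact ⟨L', E', h4, by rw [lsize_cons (Fm.iff _ _)]; omega⟩

lemma f_valid (v : ℕ → Prop) (h : ∀ p ∈ [.imp (.var 0) (.var 1), Fm.imp (.var 1) .bot], p.eval v) :
    (Fm.neg (.var 0)).eval v := by
  simp only [List.mem_cons, List.not_mem_nil, or_false, forall_eq_or_imp, forall_eq, Fm.eval] at h ⊢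
  tauto

/-- Extended Frege proofs of almost linear size. -/
theorem ef_size (F : FregeSystem) (A : Fin m → Cl n)
    (h : ¬ ∃ x : Fin n → Bool, ∀ i, chi (clSup (A i)) x = sg (clRhs (A i))) :
    ∃ L E, F.IsEFProof (tauN A) L E ∧ lsize L ≤ 2000 * F.K * (m * (Nat.clog 2 m + 1)) := by
  classical
  obtain ⟨hm, hn, us, hus, hmemF, hval⟩ := list_spec A h
  have hK := F.K_pos
  set κ := Nat.clog 2 m with hκ
  have hkm : 2 ^ κ ≤ 2 * m := two_pow_clog_le hm
  have hmk : m ≤ 2 ^ κ := Nat.le_pow_clog (by norm_num) _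
  set f : ℕ → Fm ℕ := fun i => (eqE A i).subst fun i : Fin n => (.var (i : ℕ) : Fm ℕ) with hf
  have hfs : ∀ i, (f i).size ≤ 26 := fun i => by
    rw [hf]
    exact (size_toN _).trans_le (eqE_size A i)
  have hfb : ∀ i, Bel n (f i) := fun i => bel_toN _
  have hτ : Bel n (tauN A) := bel_toN _
  let s0 : St F (tauN A) := ⟨n, [], [], .nil, by simp, hτ⟩
  obtain ⟨s1, G, a1, g1, h1, i1, j1⟩ := conj_ef (a := 26) (by omega) f hfs κ 0 s0 hfb
  have hn1 : n ≤ s1.k := a1.2.1
  obtain ⟨s2, Q, a2, b2, c2⟩ := sum_tree A G g1 κ us s1 (hus.trans hmk) h1 hn1 (by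
    intro u _
    have := j1 u (u.2.trans_le hmk)
    simp only [Nat.zero_add, hf, eqE, u.2, dif_pos] at this
    exact this)
  have hQ : Q n = .bot := by
    rw [b2.const (i := 0) (Nat.zero_le n) le_rfl (fun i _ _ => hmemF i), b2.zero]
  have hb : bl A us = true := hval
  rw [hb, hQ] at c2
  have c2' : Fm.imp G .bot ∈ s2.L := c2
  have z := conjT_size f hfs κ 0
  obtain ⟨s3, a3, k3, m3⟩ := s2.rule (M := 2 ^ κ * 27) (by omega)
    [.imp (.var 0) (.var 1), Fm.imp (.var 1) .bot] (.neg (.var 0)) [conjT f κ 0, G] (by decide)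
    f_valid (by
      simp only [List.mem_cons, List.not_mem_nil, or_false, forall_eq_or_imp, forall_eq]
      exact ⟨by omega, by omega⟩) (by
      simp only [List.mem_cons, List.not_mem_nil, or_false, forall_eq_or_imp, forall_eq]
      exact ⟨conjT_bel f (fun i => (hfb i).mono (hn1.trans a2.2.1)) κ _, h1.mono a2.2.1⟩) (by
      simp only [List.mem_cons, List.not_mem_nil, or_false, forall_eq_or_imp, forall_eq]
      refine ⟨?_, ?_⟩
      · simpa [Fm.subst, sub] using a2.1 i1
      · simpa [Fm.subst, sub] using c2')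
  have m3' : tauN A ∈ s3.L := by
    have h9 : Fm.neg (conjT f κ 0) ∈ s3.L := by simpa [Fm.subst, sub] using m3
    have h10 : ∀ φ, φ = Fm.neg (conjT f κ 0) → φ ∈ s3.L := fun φ hφ => hφ ▸ h9
    exact h10 _ (tauN_eq A)
  obtain ⟨L', E', e1, e2⟩ := ef_suffix s3.ef m3'
  refine ⟨tauN A :: L', E', ⟨e1, rfl⟩, e2.trans ?_⟩
  have t1 := ((a1.trans a2 le_rfl).trans a3 le_rfl).2.2
  have t2 : lsize s0.L = 0 := rfl
  rw [t2] at t1
  refine t1.trans ?_
  have k1 : F.K * (2 ^ κ * (κ + 1)) ≤ F.K * (2 * m * (κ + 1)) :=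
    Nat.mul_le_mul_left _ (Nat.mul_le_mul_right _ hkm)
  have k2 : 20 * F.K * (26 + 1) * (2 ^ κ * (κ + 1)) = 540 * (F.K * (2 ^ κ * (κ + 1))) := by ring
  have k3 : 200 * F.K * (2 ^ κ * (κ + 1)) = 200 * (F.K * (2 ^ κ * (κ + 1))) := by ring
  have k4 : F.K * (2 ^ κ * 27) = 27 * (F.K * (2 ^ κ * 1)) := by ring
  have k5 : F.K * (2 ^ κ * 1) ≤ F.K * (2 ^ κ * (κ + 1)) :=
    Nat.mul_le_mul_left _ (Nat.mul_le_mul_left _ (by omega))
  have k6 : F.K * (2 * m * (κ + 1)) = 2 * (F.K * (m * (κ + 1))) := by ring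
  have k7 : 2000 * F.K * (m * (κ + 1)) = 2000 * (F.K * (m * (κ + 1))) := by ring
  rw [k2, k3, k4, k7]
  omega

end SizeSep
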