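import Pool.Agent.Work.MP_c07f0d_lc.SZ.Seq
import Pool.Agent.Work.MP_c07f0d_lc.SZ.FregeUp

/-!
# The size separation: assembly
-/

set_option linter.unusedSectionVars false

namespace SizeSep

open FregeEF LineSize GridLine GridLine.Xor Filter

/-- The tautologies. -/
noncomputable def tau (n : ℕ) : Fm ℕ := tauN (sysA n)

lemma tau_ge (n : ℕ) : 2 * (n + 3) < (tau n).size := tauN_size_ge (sysA n)

lemma tau_le (n : ℕ) : (tau n).size ≤ 400 * (n + 1) := by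
  have := tauN_size_le (sysA n) (by omega)
  unfold tau
  omega

lemma clog_le (n : ℕ) : Nat.clog 2 (2 * (n + 3)) + 1 ≤ 3 * Nat.log 2 (tau n).size := by
  have h1 := tau_ge n
  have h2 : Nat.clog 2 (2 * (n + 3)) ≤ Nat.log 2 (tau n).size + 1 := by
    apply Nat.clog_le_of_le_pow
    have := Nat.lt_pow_succ_log_self (b := 2) (by norm_num) (tau n).size
    exact h1.le.trans this.le
  have h3 : 1 ≤ Nat.log 2 (tau n).size := Nat.log_pos (by norm_num) (by omega)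
  omega

lemma tau_ef (F : FregeSystem) (n : ℕ) : ∃ L E, F.IsEFProof (tau n) L E ∧
    lsize L ≤ 6000 * F.K * ((tau n).size * Nat.log 2 (tau n).size) := by
  obtain ⟨L, E, h1, h2⟩ := ef_size F (sysA n) (sysA_unsat n)
  refine ⟨L, E, h1, h2.trans ?_⟩
  have h3 : 2 * (n + 3) * (Nat.clog 2 (2 * (n + 3)) + 1)
      ≤ (tau n).size * (3 * Nat.log 2 (tau n).size) :=
    Nat.mul_le_mul (tau_ge n).le (clog_le n)
  calc 2000 * F.K * (2 * (n + 3) * (Nat.clog 2 (2 * (n + 3)) + 1))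
      ≤ 2000 * F.K * ((tau n).size * (3 * Nat.log 2 (tau n).size)) := Nat.mul_le_mul_left _ h3
    _ = _ := by ring

lemma tau_frege (F : FregeSystem) (n : ℕ) : ∃ L, F.IsProof (tau n) L ∧
    lsize L ≤ 12000 * F.K * ((tau n).size ^ 2 * Nat.log 2 (tau n).size) := by
  obtain ⟨L, h1, h2⟩ := frege_size F (sysA n) (sysA_unsat n)
  refine ⟨L, h1, h2.trans ?_⟩
  have hg := tau_ge n
  have h3 : 2 * (n + 3) * (2 * (n + 3) + (n + 3)) * (Nat.clog 2 (2 * (n + 3)) + 1)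
      ≤ (tau n).size * (2 * (tau n).size) * (3 * Nat.log 2 (tau n).size) :=
    Nat.mul_le_mul (Nat.mul_le_mul hg.le (by omega)) (clog_le n)
  calc 2000 * F.K * (2 * (n + 3) * (2 * (n + 3) + (n + 3)) * (Nat.clog 2 (2 * (n + 3)) + 1))
      ≤ 2000 * F.K * ((tau n).size * (2 * (tau n).size) * (3 * Nat.log 2 (tau n).size)) :=
        Nat.mul_le_mul_left _ h3
    _ = _ := by ring

lemma tau_hard (F : FregeSystem) (ε : ℝ) (hε : 0 < ε) : ∃ δ : ℝ, 0 < δ ∧ ∃ n₀ : ℕ, ∀ n ≥ n₀,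
    (∀ L, F.IsProof (tau n) L → ((tau n).size : ℝ) ^ (2 - ε) ≤ lsize L) ∧
    ∀ (s T : ℕ) (M : List (Fm ℕ)), Run F.rules [] s T M → tau n ∈ M →
      (s : ℝ) ≤ ((tau n).size : ℝ) ^ (2 - ε) → (2 : ℝ) ^ (((tau n).size : ℝ) ^ δ) < T := by
  obtain ⟨k, hk⟩ := exists_nat_ge (2 / ε)
  obtain ⟨n₁, h1⟩ := hard F k
  have hδ : 0 < dl (F, k) / 2 := half_pos (dl_pos _)
  obtain ⟨n₂, h2⟩ := eventually_atTop.1 (pow_le_two_rpow hδ 2 1 one_pos)
  have hkε : 2 * (1 / ((k : ℝ) + 2)) ≤ ε := by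
    have hk0 : (0 : ℝ) < (k : ℝ) + 2 := by positivity
    rw [mul_one_div, div_le_iff₀ hk0]
    rw [div_le_iff₀ hε] at hk
    nlinarith
  have hrun : ∀ n ≥ n₁, ∀ (s T : ℕ) (M : List (Fm ℕ)), Run F.rules [] s T M → tau n ∈ M →
      (s : ℝ) ≤ ((tau n).size : ℝ) ^ (2 - ε) →
      (2 : ℝ) ^ (((tau n).size : ℝ) ^ (dl (F, k) / 2)) < T := by
    intro n hn s T M h h' hs
    refine h1 n hn s T M h h' (hs.trans ?_)
    have h3 : (1 : ℝ) ≤ ((tau n).size : ℝ) := by exact_mod_cast (tau n).size_pos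
    exact Real.rpow_le_rpow_of_exponent_le h3 (by linarith)
  refine ⟨dl (F, k) / 2, hδ, max n₁ n₂, fun n hn => ⟨?_, hrun n ((le_max_left _ _).trans hn)⟩⟩
  intro L hL
  by_contra hcon
  push Not at hcon
  obtain ⟨hd, hhead⟩ := hL
  have hmem : tau n ∈ L := List.mem_of_mem_head? (by rw [hhead]; rfl)
  have h3 := hrun n ((le_max_left _ _).trans hn) (lsize L) L.length L (run_of_deriv hd le_rfl) hmem
    hcon.le
  have hge : n₂ ≤ (tau n).size := by
    have h4 := tau_ge n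
    have h5 : n₂ ≤ n := (le_max_right _ _).trans hn
    omega
  have h4 := h2 _ hge
  rw [one_mul] at h4
  have h5 : (L.length : ℝ) ≤ (lsize L : ℝ) := by exact_mod_cast FregeEF.length_le_lsize L
  have h6 : (1 : ℝ) ≤ ((tau n).size : ℝ) := by exact_mod_cast (tau n).size_pos
  have h7 : ((tau n).size : ℝ) ^ (2 - ε) ≤ ((tau n).size : ℝ) ^ (2 : ℝ) :=
    Real.rpow_le_rpow_of_exponent_le h6 (by linarith)
  linarith

end SizeSep
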