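import Pool.Agent.Work.MP_c07f0d_lc.SZ.Ef

/-!
# Frege proofs of almost quadratic size: the calculus, the members of a conjunction, segments
-/

set_option linter.unusedSectionVars false

namespace SizeSep

open FregeEF LineSize GridLine GridLine.Xor

variable {F : FregeSystem}

/-! ### The members of a balanced conjunction -/

lemma and_left_valid (v : ℕ → Prop)
    (h : ∀ p ∈ [Fm.imp (.var 0) (.and (.var 1) (.var 2))], p.eval v) :
    (Fm.imp (.var 0) (.var 1)).eval v := by
  simp only [List.mem_cons, List.not_mem_nil, or_false, forall_eq, Fm.eval] at h ⊢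
  tauto

lemma and_right_valid (v : ℕ → Prop)
    (h : ∀ p ∈ [Fm.imp (.var 0) (.and (.var 1) (.var 2))], p.eval v) :
    (Fm.imp (.var 0) (.var 2)).eval v := by
  simp only [List.mem_cons, List.not_mem_nil, or_false, forall_eq, Fm.eval] at h ⊢
  tauto

/-- Every member of a balanced conjunction follows from it. -/
lemma conj_pb (f : ℕ → Fm ℕ) (G : Fm ℕ) {M : ℕ} (hG : G.size ≤ M) : ∀ (κ s₀ c : ℕ),
    (conjT f κ s₀).size ≤ M → F.PB (.imp G (conjT f κ s₀)) c →
    ∀ i < 2 ^ κ, F.PB (.imp G (f (s₀ + i))) (c + F.K * M * κ) := by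
  have hM : 1 ≤ M := G.size_pos.trans hG
  intro κ
  induction κ with
  | zero =>
    intro s₀ c hs h i hi
    have : i = 0 := by simpa using hi
    subst this
    simpa [conjT] using h
  | succ κ ih =>
    intro s₀ c hs h i hi
    have hs1 : (conjT f κ s₀).size ≤ M := by
      simp only [conjT, Fm.size] at hs
      omega
    have hs2 : (conjT f κ (s₀ + 2 ^ κ)).size ≤ M := by
      simp only [conjT, Fm.size] at hs
      omega
    have hθ : ∀ t ∈ [G, conjT f κ s₀, conjT f κ (s₀ + 2 ^ κ)], t.size ≤ M := by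
      simp only [List.mem_cons, List.not_mem_nil, or_false, forall_eq_or_imp, forall_eq]
      exact ⟨hG, hs1, hs2⟩
    have e : c + F.K * M * (κ + 1) = (c + 0 + F.K * M) + F.K * M * κ := by ring
    rcases Nat.lt_or_ge i (2 ^ κ) with hc | hc
    · have h1 := F.infer [Fm.imp (.var 0) (.and (.var 1) (.var 2))] (.imp (.var 0) (.var 1))
        [G, conjT f κ s₀, conjT f κ (s₀ + 2 ^ κ)] [c] M (by decide) and_left_valid hM hθ
        (.cons (by simpa [Fm.subst, sub, conjT] using h) .nil)
      have h2 : F.PB (.imp G (conjT f κ s₀)) (c + 0 + F.K * M) := by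
        simpa [Fm.subst, sub] using h1
      rw [e]
      exact ih s₀ _ hs1 h2 i hc
    · have h1 := F.infer [Fm.imp (.var 0) (.and (.var 1) (.var 2))] (.imp (.var 0) (.var 2))
        [G, conjT f κ s₀, conjT f κ (s₀ + 2 ^ κ)] [c] M (by decide) and_right_valid hM hθ
        (.cons (by simpa [Fm.subst, sub, conjT] using h) .nil)
      have h2 : F.PB (.imp G (conjT f κ (s₀ + 2 ^ κ))) (c + 0 + F.K * M) := by
        simpa [Fm.subst, sub] using h1
      rw [e]
      have h3 := ih (s₀ + 2 ^ κ) _ hs2 h2 (i - 2 ^ κ) (by rw [pow_succ] at hi; omega)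
      have h4 : s₀ + 2 ^ κ + (i - 2 ^ κ) = s₀ + i := by omega
      rwa [h4] at h3

/-! ### Parities over dyadic segments -/

/-- The number of `i` in the segment with `f i`. -/
def cs (f : ℕ → Bool) : ℕ → ℕ → ℕ
  | 0, s => if f s then 1 else 0
  | j + 1, s => cs f j s + cs f j (s + 2 ^ j)

lemma cs_xor (f g : ℕ → Bool) (j : ℕ) : ∀ s,
    cs (fun i => xor (f i) (g i)) j s ≤ cs f j s + cs g j s := by
  induction j with
  | zero =>
    intro s
    simp only [cs]
    rcases Bool.eq_false_or_eq_true (f s) with hf | hf <;>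
      rcases Bool.eq_false_or_eq_true (g s) with hg | hg <;>
      simp [hf, hg]
  | succ j ih =>
    intro s
    simp only [cs]
    have h1 := ih s
    have h2 := ih (s + 2 ^ j)
    omega

lemma cs_zero {f : ℕ → Bool} (h : ∀ i, f i = false) (j : ℕ) : ∀ s, cs f j s = 0 := by
  induction j with
  | zero => intro s; simp [cs, h s]
  | succ j ih => intro s; simp [cs, ih]

lemma cs_single (a j : ℕ) : ∀ s,
    cs (fun i => decide (i = a)) j s = if s ≤ a ∧ a < s + 2 ^ j then 1 else 0 := by
  induction j with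
  | zero =>
    intro s
    simp only [cs, pow_zero]
    by_cases h : s = a
    · subst h; simp
    · have h1 : ¬ (s ≤ a ∧ a < s + 1) := by omega
      rw [if_neg h1]
      simp [h]
  | succ j ih =>
    intro s
    simp only [cs, ih]
    have hp : 0 < 2 ^ j := by positivity
    have e : 2 ^ (j + 1) = 2 ^ j + 2 ^ j := by ring
    rw [e]
    split_ifs <;> omega

lemma cs_single_le (a j s : ℕ) : cs (fun i => decide (i = a)) j s ≤ 1 := by
  rw [cs_single]
  split_ifs <;> omega

/-- The exclusive or of two optional formulas. -/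
def comb : Option (Fm ℕ) → Option (Fm ℕ) → Option (Fm ℕ)
  | none, r => r
  | some a, none => some a
  | some a, some b => some (xor2 a b)

/-- The formula of an optional formula. -/
def val : Option (Fm ℕ) → Fm ℕ
  | none => .bot
  | some a => a

/-- The parity of the variables `i` with `f i` in the segment of length `2 ^ j` starting at `s`. -/
def seg (f : ℕ → Bool) : ℕ → ℕ → Option (Fm ℕ)
  | 0, s => if f s then some (.var s) else none
  | j + 1, s => comb (seg f j s) (seg f j (s + 2 ^ j))

/-- The parity formula. -/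
def par (f : ℕ → Bool) (j s : ℕ) : Fm ℕ := val (seg f j s)

lemma seg_size (f : ℕ → Bool) (j : ℕ) : ∀ s a, seg f j s = some a →
    a.size + 5 ≤ 6 * cs f j s * 2 ^ j := by
  induction j with
  | zero =>
    intro s a h
    simp only [seg] at h
    split_ifs at h with hf
    · simp only [Option.some.injEq] at h
      subst h
      simp [cs, hf, Fm.size]
    
  | succ j ih =>
    intro s a h
    simp only [seg] at h
    have e : 6 * cs f (j + 1) s * 2 ^ (j + 1)
        = 2 * (6 * cs f j s * 2 ^ j) + 2 * (6 * cs f j (s + 2 ^ j) * 2 ^ j) := by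
      simp only [cs]
      ring
    rw [e]
    rcases h1 : seg f j s with _ | b
    · rw [h1] at h
      have h2 : seg f j (s + 2 ^ j) = some a := h
      have := ih _ _ h2
      omega
    · have i1 := ih _ _ h1
      rcases h2 : seg f j (s + 2 ^ j) with _ | c
      · rw [h1, h2] at h
        simp only [comb, Option.some.injEq] at h
        subst h
        omega
      · have i2 := ih _ _ h2
        rw [h1, h2] at h
        simp only [comb, Option.some.injEq] at h
        subst h
        simp only [xor2, Fm.size]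
        omega

lemma par_size (f : ℕ → Bool) (j s : ℕ) : (par f j s).size ≤ 6 * cs f j s * 2 ^ j + 1 := by
  unfold par
  rcases h : seg f j s with _ | a
  · simp [val, Fm.size]
  · have := seg_size f j s a h
    simp only [val]
    omega

lemma seg_zero {f : ℕ → Bool} (h : ∀ i, f i = false) (j : ℕ) : ∀ s, seg f j s = none := by
  induction j with
  | zero => intro s; simp [seg, h s]
  | succ j ih => intro s; simp [seg, ih, comb]

lemma par_zero {f : ℕ → Bool} (h : ∀ i, f i = false) (j s : ℕ) : par f j s = .bot := by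
  unfold par
  rw [seg_zero h]
  rfl

lemma seg_single (a j : ℕ) : ∀ s, seg (fun i => decide (i = a)) j s =
    if s ≤ a ∧ a < s + 2 ^ j then some (.var a) else none := by
  induction j with
  | zero =>
    intro s
    simp only [seg, pow_zero]
    by_cases h : s = a
    · subst h; simp
    · have h1 : ¬ (s ≤ a ∧ a < s + 1) := by omega
      rw [if_neg h1]
      simp [h]
  | succ j ih =>
    intro s
    simp only [seg, ih]
    have hp : 0 < 2 ^ j := by positivity
    have e : 2 ^ (j + 1) = 2 ^ j + 2 ^ j := by ring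
    rw [e]
    by_cases h1 : s ≤ a ∧ a < s + 2 ^ j
    · have h2 : ¬ (s + 2 ^ j ≤ a ∧ a < s + 2 ^ j + 2 ^ j) := by omega
      have h3 : s ≤ a ∧ a < s + (2 ^ j + 2 ^ j) := by omega
      rw [if_pos h1, if_neg h2, if_pos h3]
      rfl
    · rw [if_neg h1]
      by_cases h2 : s + 2 ^ j ≤ a ∧ a < s + 2 ^ j + 2 ^ j
      · have h3 : s ≤ a ∧ a < s + (2 ^ j + 2 ^ j) := by omega
        rw [if_pos h2, if_pos h3]
        rfl
      · have h3 : ¬ (s ≤ a ∧ a < s + (2 ^ j + 2 ^ j)) := by omega
        rw [if_neg h2, if_neg h3]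
        rfl

lemma par_single {a j : ℕ} (h : a < 2 ^ j) : par (fun i => decide (i = a)) j 0 = .var a := by
  unfold par
  rw [seg_single, if_pos (by omega)]
  rfl

lemma comb_pb (l r : Option (Fm ℕ)) {M : ℕ} (hl : (val l).size ≤ M) (hr : (val r).size ≤ M) :
    F.PB (Fm.iff (val (comb l r)) (xor2 (val l) (val r))) (F.K * M) := by
  have hM : 1 ≤ M := (val l).size_pos.trans hl
  rcases l with _ | a
  · have h := F.infer [] (Fm.iff (.var 0) (xor2 .bot (.var 0))) [val r] [] M (by decide)
      (by intro v _; simp only [Fm.eval, Fm.iff, xor2]; tauto) hM (by simpa using hr) .nil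
    have h' : F.PB (Fm.iff (val r) (xor2 .bot (val r))) (F.K * M) := by
      simpa [Fm.subst, sub, Fm.iff, xor2] using h
    exact h'
  · rcases r with _ | b
    · have h := F.infer [] (Fm.iff (.var 0) (xor2 (.var 0) .bot)) [a] [] M (by decide)
        (by intro v _; simp only [Fm.eval, Fm.iff, xor2]; tauto) hM (by simpa [val] using hl) .nil
      have h' : F.PB (Fm.iff a (xor2 a .bot)) (F.K * M) := by
        simpa [Fm.subst, sub, Fm.iff, xor2] using h
      exact h'
    · have h := F.infer [] (Fm.iff (xor2 (.var 0) (.var 1)) (xor2 (.var 0) (.var 1))) [a, b] [] M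
        (by decide) (by intro v _; exact ⟨id, id⟩) hM (by
          simp only [List.mem_cons, List.not_mem_nil, or_false, forall_eq_or_imp, forall_eq]
          exact ⟨hl, hr⟩) .nil
      have h' : F.PB (Fm.iff (xor2 a b) (xor2 a b)) (F.K * M) := by
        simpa [Fm.subst, sub, Fm.iff, xor2] using h
      exact h'

/-- The premises for one segment. -/
def gPrem : List (Fm ℕ) :=
  [Fm.iff (.var 0) (xor2 (.var 1) (.var 2)), Fm.iff (.var 3) (xor2 (.var 4) (.var 5)),
    Fm.iff (.var 6) (xor2 (.var 7) (.var 8)), Fm.iff (.var 1) (xor2 (.var 4) (.var 7)),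
    Fm.iff (.var 2) (xor2 (.var 5) (.var 8))]

lemma g_valid (v : ℕ → Prop) (h : ∀ p ∈ gPrem, p.eval v) :
    (Fm.iff (.var 0) (xor2 (.var 3) (.var 6))).eval v := by
  simp only [gPrem, List.mem_cons, List.not_mem_nil, or_false, forall_eq_or_imp, forall_eq,
    Fm.eval, Fm.iff, xor2] at h ⊢
  obtain ⟨h1, h2, h3, h4, h5⟩ := h
  by_cases a4 : v 4 <;> by_cases a5 : v 5 <;> by_cases a7 : v 7 <;> by_cases a8 : v 8 <;>
    simp_all

/-- The exclusive or of two parities. -/
lemma merge_pb (f g : ℕ → Bool) (j : ℕ) : ∀ s, ∃ c,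
    F.PB (Fm.iff (par (fun i => xor (f i) (g i)) j s) (xor2 (par f j s) (par g j s))) c ∧
    c + 4 * F.K ≤ F.K * (48 * (cs f j s + cs g j s) * 2 ^ j + 8 * 2 ^ j) := by
  induction j with
  | zero =>
    intro s
    refine ⟨F.K * 1, ?_, ?_⟩
    · rcases Bool.eq_false_or_eq_true (f s) with hf | hf <;>
        rcases Bool.eq_false_or_eq_true (g s) with hg | hg
      · have h := F.infer [] (Fm.iff .bot (xor2 (.var 0) (.var 0))) [.var s] [] 1 (by decide)
          (by intro v _; simp only [Fm.eval, Fm.iff, xor2]; tauto) le_rfl (by simp [Fm.size]) .nil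
        simpa [Fm.subst, sub, Fm.iff, xor2, par, seg, val, hf, hg] using h
      · have h := F.infer [] (Fm.iff (.var 0) (xor2 (.var 0) .bot)) [.var s] [] 1 (by decide)
          (by intro v _; simp only [Fm.eval, Fm.iff, xor2]; tauto) le_rfl (by simp [Fm.size]) .nil
        simpa [Fm.subst, sub, Fm.iff, xor2, par, seg, val, hf, hg] using h
      · have h := F.infer [] (Fm.iff (.var 0) (xor2 .bot (.var 0))) [.var s] [] 1 (by decide)
          (by intro v _; simp only [Fm.eval, Fm.iff, xor2]; tauto) le_rfl (by simp [Fm.size]) .nil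
        simpa [Fm.subst, sub, Fm.iff, xor2, par, seg, val, hf, hg] using h
      · have h := F.infer [] (Fm.iff (.bot : Fm ℕ) (xor2 .bot .bot)) [.var s] [] 1 (by decide)
          (by intro v _; simp only [Fm.eval, Fm.iff, xor2]; tauto) le_rfl (by simp [Fm.size]) .nil
        simpa [Fm.subst, sub, Fm.iff, xor2, par, seg, val, hf, hg] using h
    · have h1 : F.K * 5 ≤ F.K * (48 * (cs f 0 s + cs g 0 s) * 2 ^ 0 + 8 * 2 ^ 0) :=
        Nat.mul_le_mul_left _ (by omega)
      omega
  | succ j ih =>
    intro s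
    obtain ⟨c1, p1, q1⟩ := ih s
    obtain ⟨c2, p2, q2⟩ := ih (s + 2 ^ j)
    set h := fun i => xor (f i) (g i) with hh
    set M := 6 * (cs f (j + 1) s + cs g (j + 1) s) * 2 ^ (j + 1) + 1 with hM
    have x1 : cs f (j + 1) s = cs f j s + cs f j (s + 2 ^ j) := rfl
    have x2 : cs g (j + 1) s = cs g j s + cs g j (s + 2 ^ j) := rfl
    have y0 : cs h (j + 1) s ≤ cs f (j + 1) s + cs g (j + 1) s := cs_xor f g (j + 1) s
    have y1 : cs h j s ≤ cs f j s + cs g j s := cs_xor f g j s
    have y2 : cs h j (s + 2 ^ j) ≤ cs f j (s + 2 ^ j) + cs g j (s + 2 ^ j) := cs_xor f g j (s + 2 ^ j)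
    have hp : 2 ^ j ≤ 2 ^ (j + 1) := Nat.pow_le_pow_right (by norm_num) (by omega)
    have bd : ∀ u t : ℕ, u ≤ cs f (j + 1) s + cs g (j + 1) s → t ≤ 2 ^ (j + 1) →
        6 * u * t + 1 ≤ M := by
      intro u t hu ht
      rw [hM]
      have := Nat.mul_le_mul (Nat.mul_le_mul_left 6 hu) ht
      omega
    have z0 : (par h (j + 1) s).size ≤ M := (par_size _ _ _).trans (bd _ _ y0 le_rfl)
    have z1 : (par h j s).size ≤ M := (par_size _ _ _).trans (bd _ _ (by omega) hp)
    have z2 : (par h j (s + 2 ^ j)).size ≤ M := (par_size _ _ _).trans (bd _ _ (by omega) hp)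
    have z3 : (par f (j + 1) s).size ≤ M := (par_size _ _ _).trans (bd _ _ (by omega) le_rfl)
    have z4 : (par f j s).size ≤ M := (par_size _ _ _).trans (bd _ _ (by omega) hp)
    have z5 : (par f j (s + 2 ^ j)).size ≤ M := (par_size _ _ _).trans (bd _ _ (by omega) hp)
    have z6 : (par g (j + 1) s).size ≤ M := (par_size _ _ _).trans (bd _ _ (by omega) le_rfl)
    have z7 : (par g j s).size ≤ M := (par_size _ _ _).trans (bd _ _ (by omega) hp)
    have z8 : (par g j (s + 2 ^ j)).size ≤ M := (par_size _ _ _).trans (bd _ _ (by omega) hp)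
    have k0 : F.PB (Fm.iff (par h (j + 1) s) (xor2 (par h j s) (par h j (s + 2 ^ j)))) (F.K * M) :=
      comb_pb _ _ z1 z2
    have k3 : F.PB (Fm.iff (par f (j + 1) s) (xor2 (par f j s) (par f j (s + 2 ^ j)))) (F.K * M) :=
      comb_pb _ _ z4 z5
    have k6 : F.PB (Fm.iff (par g (j + 1) s) (xor2 (par g j s) (par g j (s + 2 ^ j)))) (F.K * M) :=
      comb_pb _ _ z7 z8
    have fin := F.infer gPrem (Fm.iff (.var 0) (xor2 (.var 3) (.var 6)))
      [par h (j + 1) s, par h j s, par h j (s + 2 ^ j), par f (j + 1) s, par f j s,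
        par f j (s + 2 ^ j), par g (j + 1) s, par g j s, par g j (s + 2 ^ j)]
      [F.K * M, F.K * M, F.K * M, c1, c2] M (by decide) g_valid (by omega) (by
        simp only [List.mem_cons, List.not_mem_nil, or_false, forall_eq_or_imp, forall_eq]
        exact ⟨z0, z1, z2, z3, z4, z5, z6, z7, z8⟩) (by
        refine .cons ?_ (.cons ?_ (.cons ?_ (.cons ?_ (.cons ?_ .nil))))
        · simpa [Fm.subst, sub, Fm.iff, xor2] using k0
        · simpa [Fm.subst, sub, Fm.iff, xor2] using k3
        · simpa [Fm.subst, sub, Fm.iff, xor2] using k6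
        · simpa [Fm.subst, sub, Fm.iff, xor2] using p1
        · simpa [Fm.subst, sub, Fm.iff, xor2] using p2)
    have fin' : F.PB (Fm.iff (par h (j + 1) s) (xor2 (par f (j + 1) s) (par g (j + 1) s)))
        (3 * (F.K * M) + c1 + c2 + F.K * M) := by
      refine FregeSystem.PB.mono (s := [F.K * M, F.K * M, F.K * M, c1, c2].sum + F.K * M) ?_ ?_
      · simpa [Fm.subst, sub, Fm.iff, xor2] using fin
      · simp only [List.sum_cons, List.sum_nil]
        omega
    refine ⟨_, fin', ?_⟩
    have w1 : F.K * M = 6 * (F.K * (cs f (j + 1) s + cs g (j + 1) s) * 2 ^ (j + 1)) + F.K := by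
      rw [hM]; ring
    have w2 : F.K * (48 * (cs f j s + cs g j s) * 2 ^ j + 8 * 2 ^ j)
        + F.K * (48 * (cs f j (s + 2 ^ j) + cs g j (s + 2 ^ j)) * 2 ^ j + 8 * 2 ^ j)
        = 24 * (F.K * (cs f (j + 1) s + cs g (j + 1) s) * 2 ^ (j + 1)) + 8 * (F.K * 2 ^ (j + 1)) := by
      rw [x1, x2]; ring
    have w3 : F.K * (48 * (cs f (j + 1) s + cs g (j + 1) s) * 2 ^ (j + 1) + 8 * 2 ^ (j + 1))
        = 48 * (F.K * (cs f (j + 1) s + cs g (j + 1) s) * 2 ^ (j + 1)) + 8 * (F.K * 2 ^ (j + 1)) := by
      ring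
    rw [w3]
    omega

end SizeSep
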