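import Pool.Agent.Work.MP_c07f0d_lc.SZ.Ef
import Pool.Agent.Work.MP_c07f0d_lc.SD.XorSpace

/-!
# From Frege proofs of the tautology to refutations of the linear system
-/

set_option linter.unusedSectionVars false

namespace SizeSep

open FregeEF LineSize GridLine GridLine.Xor

/-! ### Runs -/

section Runs

variable {α β : Type} {R : List Rule}

lemma lsize_mono_of_sub {L : List (Fm α)} {φ : Fm α} (h : φ ∈ L) : lsize [φ] ≤ lsize L := by
  rw [lsize_cons, lsize_nil]
  have := size_le_lsize h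
  omega

/-- A derivation is a run. -/
lemma run_of_deriv {L : List (Fm α)} (h : IsDeriv R [] L) {s : ℕ} (hs : lsize L ≤ s) :
    Run R [] s L.length L := by
  induction h with
  | nil => exact Run.start
  | hyp _ hφ _ => simp at hφ
  | @step L φ _ hi ih =>
    rw [lsize_cons] at hs
    exact Run.step (ih (by omega)) (Or.inr ⟨φ, Or.inr hi, fun ψ hψ => List.mem_cons.1 hψ⟩)
      (by rw [lsize_cons]; exact hs)

/-- Substitution in a run. -/
lemma run_subst {Γ : List (Fm α)} {Γ' : List (Fm β)} {s T : ℕ} {M : List (Fm α)} (σ : α → Fm β)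
    (hσ : ∀ x, (σ x).size ≤ 1) (hΓ : ∀ φ ∈ Γ, φ.subst σ ∈ Γ') (h : Run R Γ s T M) :
    Run R Γ' s T (M.map (Fm.subst σ)) := by
  induction h with
  | start => exact Run.start
  | @step T M M' _ hst hsz ih =>
    refine Run.step ih ?_ ?_
    · rcases hst with h | ⟨φ, hφ, hM⟩
      · left
        intro ψ hψ
        obtain ⟨p, hp, rfl⟩ := List.mem_map.1 hψ
        exact List.mem_map_of_mem (h hp)
      · right
        refine ⟨φ.subst σ, ?_, ?_⟩
        · rcases hφ with h | h
          · exact Or.inl (hΓ φ h)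
          · exact Or.inr (h.subst σ)
        · intro ψ hψ
          obtain ⟨p, hp, rfl⟩ := List.mem_map.1 hψ
          rcases hM p hp with h | h
          · exact Or.inl (by rw [h])
          · exact Or.inr (List.mem_map_of_mem h)
    · have := lsize_map_subst_le σ 1 le_rfl M' hσ
      omega

lemma run_mono_s {Γ : List (Fm α)} {s s' T : ℕ} {M : List (Fm α)} (h : Run R Γ s T M)
    (hs : s ≤ s') : Run R Γ s' T M := by
  induction h with
  | start => exact Run.start
  | step _ hst hsz ih => exact Run.step ih hst (hsz.trans hs)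

end Runs

/-! ### Deriving the conjunction -/

lemma and_valid (v : ℕ → Prop) (h : ∀ p ∈ [Fm.var 0, Fm.var 1], p.eval v) :
    (Fm.and (.var 0) (.var 1)).eval v := by
  simp only [List.mem_cons, List.not_mem_nil, or_false, forall_eq_or_imp, forall_eq, Fm.eval] at h ⊢
  exact h

lemma ad_conj (F : FregeSystem) {α : Type} {Γ : List (Fm α)} {a : ℕ} (ha : 1 ≤ a) (f : ℕ → Fm α)
    (hf : ∀ i, (f i).size ≤ a)
    (h0 : ∀ i, Ad F Γ [] [f i] ((F.K + 2) * (a + 1)) (2 * F.K)) : ∀ κ s₀,
    Ad F Γ [] [conjT f κ s₀] ((F.K + 2) * (2 ^ κ * (a + 1))) (6 * F.K * 2 ^ κ - 4 * F.K) := by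
  have hK := F.K_pos
  intro κ
  induction κ with
  | zero =>
    intro s₀
    exact (h0 s₀).mono (by simp) (by simp) (by omega)
  | succ κ ih =>
    intro s₀
    have z1 := conjT_size f hf κ s₀
    have z2 := conjT_size f hf κ (s₀ + 2 ^ κ)
    have hp : 1 ≤ 2 ^ κ := Nat.one_le_two_pow
    set Z := 2 ^ κ * (a + 1) with hZ
    have hZ1 : 1 ≤ Z := Nat.mul_pos hp (by omega)
    have hZ2 : 2 ^ (κ + 1) * (a + 1) = 2 * Z := by
      rw [hZ]
      ring
    rw [hZ2]
    have e1 : (F.K + 2) * (2 * Z) = 2 * (F.K * Z) + 4 * Z := by ring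
    have e2 : (F.K + 2) * Z = F.K * Z + 2 * Z := by ring
    have h1 := ih s₀
    have h2 := ih (s₀ + 2 ^ κ)
    rw [e2] at h1 h2
    rw [e1]
    have h3 := Ad.both (U := 2 * (F.K * Z) + 4 * Z) h1 h2 (by omega) (by
      rw [lsize_cons, lsize_nil]
      omega)
    have h4 := Ad.rule (F := F) (Γ := Γ) (M := Z) hZ1 [.var 0, .var 1] (.and (.var 0) (.var 1))
      [conjT f κ s₀, conjT f κ (s₀ + 2 ^ κ)] (by decide) and_valid (by
        simp only [List.mem_cons, List.not_mem_nil, or_false, forall_eq_or_imp, forall_eq]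
        omega)
    have h4' : Ad F Γ ([conjT f κ s₀] ++ [conjT f κ (s₀ + 2 ^ κ)]) [conjT f (κ + 1) s₀] (F.K * Z)
        (2 * F.K) := by
      simpa [Fm.subst, sub, conjT] using h4
    have h5 := Ad.trans (U := 2 * (F.K * Z) + 4 * Z) h3 h4' le_rfl (by
      rw [lsize_append, lsize_cons, lsize_nil, lsize_cons, lsize_nil]
      omega)
    refine h5.mono (fun _ h => h) le_rfl ?_
    have e3 : 6 * F.K * 2 ^ (κ + 1) = 2 * (6 * F.K * 2 ^ κ) := by ring
    have e4 : 6 * F.K * 1 ≤ 6 * F.K * 2 ^ κ := Nat.mul_le_mul_left _ hp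
    rw [e3]
    omega

/-! ### The refutation -/

variable {n m : ℕ}

/-- Back to the variables in `Fin n`. -/
def back (n : ℕ) (x : ℕ) : Fm (Fin n) := if h : x < n then .var ⟨x, h⟩ else .bot

lemma back_size (x : ℕ) : (back n x).size ≤ 1 := by
  unfold back
  split_ifs <;> exact le_rfl

lemma back_toN (φ : Fm (Fin n)) :
    (φ.subst fun i : Fin n => (.var (i : ℕ) : Fm ℕ)).subst (back n) = φ := by
  rw [Fm.subst_subst]
  have : (fun x : Fin n => (Fm.var (x : ℕ)).subst (back n)) = fun x => Fm.var x := by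
    funext x
    simp [Fm.subst, back]
  rw [this, Fm.subst_var]

lemma contra_valid (v : ℕ → Prop) (h : ∀ p ∈ [Fm.neg (.var 0), Fm.var 0], p.eval v) :
    (Fm.bot : Fm ℕ).eval v := by
  simp only [List.mem_cons, List.not_mem_nil, or_false, forall_eq_or_imp, forall_eq, Fm.eval] at h
  exact h.1 h.2

theorem refutation_of_run (F : FregeSystem) (A : Fin m → Cl n) (hm : 1 ≤ m) {s T : ℕ}
    {M : List (Fm ℕ)} (h : Run F.rules [] s T M) (hτ : tauN A ∈ M) :
    ∃ T' M', T' ≤ T + 20 * F.K * m ∧ Run F.rules (xors A) (s + 270 * F.K * m) T' M' ∧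
      Fm.bot ∈ M' := by
  have hK := F.K_pos
  set κ := Nat.clog 2 m with hκ
  have hkm : 2 ^ κ ≤ 2 * m := two_pow_clog_le hm
  have h1 : Run F.rules (xors A) s T (M.map (Fm.subst (back n))) :=
    run_subst (back n) back_size (by simp) h
  have h2 : tauF A ∈ M.map (Fm.subst (back n)) := by
    have := List.mem_map_of_mem (f := Fm.subst (back n)) hτ
    rwa [tauN, back_toN] at this
  have h3 : Run F.rules (xors A) s (T + 1) [tauF A] :=
    run_erase h1 (by simpa using h2) ((lsize_mono_of_sub h2).trans (run_lsize h1))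
  have h4 : lsize [tauF A] ≤ s := run_lsize h3
  have z := conjT_size (eqE A) (eqE_size A) κ 0
  set Z := 2 ^ κ * (26 + 1) with hZ
  have hZm : Z ≤ 54 * m := by
    rw [hZ]
    omega
  have hZ1 : 1 ≤ Z := by omega
  have h0 : ∀ i, Ad F (xors A) [] [eqE A i] ((F.K + 2) * (26 + 1)) (2 * F.K) := by
    intro i
    by_cases hi : i < m
    · have e : eqE A i = xorF (A ⟨i, hi⟩) := by
        unfold eqE
        rw [dif_pos hi]
      have hmem : eqE A i ∈ xors A := by
        rw [e]
        exact List.mem_ofFn.mpr ⟨⟨i, hi⟩, rfl⟩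
      exact (Ad.hyp (F := F) hmem).mono (by simp) ((eqE_size A i).trans (by omega)) (by omega)
    · have e : eqE A i = .neg .bot := by
        unfold eqE
        rw [dif_neg hi]
      rw [e]
      have h := Ad.rule (F := F) (Γ := xors A) (M := 1) le_rfl [] (.neg .bot) [] (by decide)
        (by intro v _; exact fun h => h) (by simp)
      exact h.mono (by simp) (by omega) le_rfl
  have h5 := ad_conj F (a := 26) (by omega) (eqE A) (eqE_size A) h0 κ 0
  rw [← hZ] at h5
  have e1 : (F.K + 2) * Z = F.K * Z + 2 * Z := by ring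
  rw [e1] at h5
  have e2 : F.K * Z ≤ F.K * (54 * m) := Nat.mul_le_mul_left _ hZm
  have e3 : F.K * (54 * m) = 54 * (F.K * m) := by ring
  have e4 : 270 * F.K * m = 270 * (F.K * m) := by ring
  have e5 : m ≤ F.K * m := Nat.le_mul_of_pos_left _ hK
  have e6 : F.K ≤ F.K * m := Nat.le_mul_of_pos_right _ hm
  rw [e4]
  have h6 := run_mono_s h3 (s' := s + 270 * (F.K * m)) (by omega)
  obtain ⟨T2, a2, b2⟩ := h5 _ _ _ h6 (by simp) (by omega)
  have h7 := Ad.rule (F := F) (Γ := xors A) (M := Z) hZ1 [.neg (.var 0), .var 0] .bot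
    [conjT (eqE A) κ 0] (by decide) contra_valid (by
      simp only [List.mem_cons, List.not_mem_nil, or_false, forall_eq]
      omega)
  obtain ⟨T3, a3, b3⟩ := h7 _ _ _ b2 (by
    intro ψ hψ
    simp only [List.map_cons, List.map_nil, List.mem_cons, List.not_mem_nil, or_false] at hψ
    rcases hψ with rfl | rfl
    · simp [Fm.subst, sub, tauF, hκ]
    · simp [Fm.subst, sub]) (by
    rw [lsize_append, lsize_cons, lsize_nil]
    omega)
  refine ⟨T3, _, ?_, b3, by simp [Fm.subst]⟩
  have e7 : 6 * F.K * 2 ^ κ ≤ 6 * F.K * (2 * m) := Nat.mul_le_mul_left _ hkm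
  have e8 : 6 * F.K * (2 * m) = 12 * (F.K * m) := by ring
  have e9 : 20 * F.K * m = 20 * (F.K * m) := by ring
  rw [e9]
  omega

end SizeSep
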