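import Pool.Agent.Work.MP_c07f0d_lc.SZ.Low
import Pool.Agent.Work.MP_c07f0d_lc.SZ.Arith
import Pool.Agent.Work.MP_c07f0d_lc.SD.Sep
import Pool.Agent.Work.MP_c07f0d_lc.SD.Main

/-!
# One sequence of tautologies for all Frege systems
-/

set_option linter.unusedSectionVars false

namespace SizeSep

open FregeEF LineSize GridLine GridLine.Xor Filter

/-! ### Countability -/

lemma exists_bound (φ : Fm ℕ) : ∃ m, ∀ x, φ.Occurs x → x < m := by
  induction φ with
  | var y => exact ⟨y + 1, fun x (hx : y = x) => by omega⟩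
  | bot => exact ⟨0, fun x hx => hx.elim⟩
  | neg φ ih => exact ih
  | and φ ψ ih1 ih2 =>
    obtain ⟨a, ha⟩ := ih1
    obtain ⟨b, hb⟩ := ih2
    exact ⟨max a b, fun x hx => hx.elim (fun h => (ha x h).trans_le (le_max_left _ _))
      (fun h => (hb x h).trans_le (le_max_right _ _))⟩
  | or φ ψ ih1 ih2 =>
    obtain ⟨a, ha⟩ := ih1
    obtain ⟨b, hb⟩ := ih2
    exact ⟨max a b, fun x hx => hx.elim (fun h => (ha x h).trans_le (le_max_left _ _))
      (fun h => (hb x h).trans_le (le_max_right _ _))⟩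
  | imp φ ψ ih1 ih2 =>
    obtain ⟨a, ha⟩ := ih1
    obtain ⟨b, hb⟩ := ih2
    exact ⟨max a b, fun x hx => hx.elim (fun h => (ha x h).trans_le (le_max_left _ _))
      (fun h => (hb x h).trans_le (le_max_right _ _))⟩

instance countableFm : Countable (Fm ℕ) := by
  rw [← Set.countable_univ_iff]
  have h : (Set.univ : Set (Fm ℕ)) ⊆ 
      ⋃ p : ℕ × ℕ, ((allFm p.1 p.2 : Finset (Fm ℕ)) : Set (Fm ℕ)) := by
    intro φ _
    obtain ⟨m, hm⟩ := exists_bound φ
    exact Set.mem_iUnion.2 ⟨(m, φ.size), mem_allFm φ hm _ le_rfl⟩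
  exact (Set.countable_iUnion fun p : ℕ × ℕ => (allFm p.1 p.2).countable_toSet).mono h

instance countableRule : Countable Rule := by
  apply Function.Injective.countable (f := fun r : Rule => (r.prem, r.concl))
  rintro ⟨a, b⟩ ⟨c, d⟩ h
  simp only [Prod.mk.injEq] at h
  obtain ⟨rfl, rfl⟩ := h
  rfl

instance countableFrege : Countable FregeSystem := by
  apply Function.Injective.countable (f := fun F : FregeSystem => F.rules)
  rintro ⟨a, b, c⟩ ⟨d, e, f⟩ h
  simp only at h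
  subst h
  rfl

/-! ### The constants -/

open Classical in
lemma exists_consts (p : FregeSystem × ℕ) : ∃ δ : ℝ, 0 < δ ∧ ∃ c : ℕ, ∀ n : ℕ, 1 ≤ n →
    ((Finset.univ.filter fun A : Fin (2 * n) → Cl n =>
      ¬ Separates p.1 (1 / ((p.2 : ℝ) + 2)) δ c (xors A)).card : ℝ)
      ≤ c / n * (Fintype.card (Fin (2 * n) → Cl n) : ℝ) := by
  have hε : (0 : ℝ) < 1 / ((p.2 : ℝ) + 2) := by positivity
  obtain ⟨C, hC⟩ := GridLine.space_degree p.1 (1 / ((p.2 : ℝ) + 2) / 8) (by positivity)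
  exact sep_cl p.1 hε (C := C) (fun ι _ _ P h1 Γ a s T ha hax M hrun hbot =>
    hC ι P h1 Γ a s T M ha hax hrun hbot) le_rfl

noncomputable def dl (p : FregeSystem × ℕ) : ℝ := (exists_consts p).choose

lemma dl_pos (p : FregeSystem × ℕ) : 0 < dl p := (exists_consts p).choose_spec.1

noncomputable def cc (p : FregeSystem × ℕ) : ℕ := (exists_consts p).choose_spec.2.choose

open Classical in
lemma cc_spec (p : FregeSystem × ℕ) (n : ℕ) (hn : 1 ≤ n) :
    ((Finset.univ.filter fun A : Fin (2 * n) → Cl n =>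
      ¬ Separates p.1 (1 / ((p.2 : ℝ) + 2)) (dl p) (cc p) (xors A)).card : ℝ)
      ≤ cc p / n * (Fintype.card (Fin (2 * n) → Cl n) : ℝ) :=
  (exists_consts p).choose_spec.2.choose_spec n hn

/-- The system `A` is hard for the pair `p`. -/
def Good (p : FregeSystem × ℕ) {n : ℕ} (A : Fin (2 * n) → Cl n) : Prop :=
  ¬ Cheap p.1 (1 / ((p.2 : ℝ) + 2)) (dl p) (xors A)

noncomputable instance : Encodable (FregeSystem × ℕ) := Encodable.ofCountable _

/-- The system `A` is hard for all pairs with a code at most `J`. -/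
def GoodTo (J : ℕ) {n : ℕ} (A : Fin (2 * n) → Cl n) : Prop :=
  ∀ p : FregeSystem × ℕ, Encodable.encode p ≤ J → Good p A

/-- The number of bad systems for the code `j` is controlled by this constant. -/
noncomputable def cj (j : ℕ) : ℕ :=
  match Encodable.decode (α := FregeSystem × ℕ) j with
  | some p => cc p
  | none => 0

open Classical in
/-- The systems which are bad for the code `j`. -/
noncomputable def bad (n j : ℕ) : Finset (Fin (2 * n) → Cl n) :=
  Finset.univ.filter fun A => ∃ p : FregeSystem × ℕ, Encodable.encode p = j ∧ ¬ Good p A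

open Classical in
lemma card_bad {n : ℕ} (hn : 1 ≤ n) (j : ℕ) :
    ((bad n j).card : ℝ) ≤ cj j / n * (Fintype.card (Fin (2 * n) → Cl n) : ℝ) := by
  by_cases h : ∃ p : FregeSystem × ℕ, Encodable.encode p = j
  · obtain ⟨p, hp⟩ := h
    have h1 : cj j = cc p := by
      unfold cj
      rw [← hp, Encodable.encodek]
    rw [h1]
    refine le_trans ?_ (cc_spec p n hn)
    refine Nat.cast_le.2 (Finset.card_le_card ?_)
    intro A hA
    obtain ⟨q, hq, hA'⟩ := (Finset.mem_filter.1 hA).2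
    have : q = p := Encodable.encode_injective (hq.trans hp.symm)
    subst this
    exact Finset.mem_filter.2 ⟨Finset.mem_univ _, fun hs => hA' hs.1⟩
  · have h2 : bad n j = ∅ := by
      rw [Finset.eq_empty_iff_forall_notMem]
      intro A hA
      obtain ⟨q, hq, -⟩ := (Finset.mem_filter.1 hA).2
      exact h ⟨q, hq⟩
    rw [h2, Finset.card_empty, Nat.cast_zero]
    positivity

lemma cl_nonempty {n : ℕ} (hn : 3 ≤ n) : Nonempty (Cl n) :=
  ⟨(Fin.castLEEmb hn, fun _ => false)⟩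

open Classical in
lemma exists_goodTo (J n : ℕ) (hn : 9 + ∑ j ∈ Finset.range (J + 1), cj j < n) :
    ∃ A : Fin (2 * n) → Cl n, ¬ Sol A ∧ GoodTo J A := by
  by_contra hcon
  push Not at hcon
  have hn1 : 1 ≤ n := by omega
  have hn0 : (0 : ℝ) < n := by exact_mod_cast hn1
  have := cl_nonempty (n := n) (by omega)
  set tot : ℝ := (Fintype.card (Fin (2 * n) → Cl n) : ℝ) with htot
  have htot0 : 0 < tot := by
    rw [htot]
    exact_mod_cast Fintype.card_pos
  have hsub : (Finset.univ : Finset (Fin (2 * n) → Cl n)) ⊆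
      (Finset.univ.filter fun A : Fin (2 * n) → Cl n => Sol A) ∪
        (Finset.range (J + 1)).biUnion (bad n) := by
    intro A _
    by_cases hS : Sol A
    · exact Finset.mem_union_left _ (Finset.mem_filter.2 ⟨Finset.mem_univ _, hS⟩)
    · have h1 := hcon A hS
      unfold GoodTo at h1
      push Not at h1
      obtain ⟨p, hp, hA⟩ := h1
      refine Finset.mem_union_right _ (Finset.mem_biUnion.2 ⟨Encodable.encode p,
        Finset.mem_range.2 (by omega), Finset.mem_filter.2 ⟨Finset.mem_univ _, p, rfl, hA⟩⟩)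
  have h1 : tot ≤ ((Finset.univ.filter fun A : Fin (2 * n) → Cl n => Sol A).card : ℝ)
      + ∑ j ∈ Finset.range (J + 1), ((bad n j).card : ℝ) := by
    rw [htot, ← Finset.card_univ]
    exact_mod_cast (Finset.card_le_card hsub).trans ((Finset.card_union_le _ _).trans
      (Nat.add_le_add_left Finset.card_biUnion_le _))
  have h2 := few_sol (Δ := 2) le_rfl hn1
  have h3 : ∑ j ∈ Finset.range (J + 1), ((bad n j).card : ℝ)
      ≤ ∑ j ∈ Finset.range (J + 1), ((cj j : ℝ) / n * tot) :=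
    Finset.sum_le_sum fun j _ => card_bad hn1 j
  have h4 : ∑ j ∈ Finset.range (J + 1), ((cj j : ℝ) / n * tot)
      = (∑ j ∈ Finset.range (J + 1), (cj j : ℝ)) / n * tot := by
    rw [← Finset.sum_mul, ← Finset.sum_div]
  have h5 : tot ≤ (9 + ∑ j ∈ Finset.range (J + 1), (cj j : ℝ)) / n * tot := by
    calc tot ≤ 9 / n * tot + (∑ j ∈ Finset.range (J + 1), (cj j : ℝ)) / n * tot := by
          rw [← h4]
          exact h1.trans (add_le_add h2 h3)
      _ = _ := by ring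
  have h6 : (9 + ∑ j ∈ Finset.range (J + 1), (cj j : ℝ)) / n < 1 := by
    rw [div_lt_one hn0]
    exact_mod_cast hn
  have h7 : (9 + ∑ j ∈ Finset.range (J + 1), (cj j : ℝ)) / n * tot < 1 * tot :=
    mul_lt_mul_of_pos_right h6 htot0
  linarith

/-- There are contradictory systems in at least three variables. -/
lemma exists_unsat {n : ℕ} (hn : 3 ≤ n) : ∃ A : Fin (2 * n) → Cl n, ¬ Sol A := by
  refine ⟨fun i => (Fin.castLEEmb hn, fun _ => decide (i.val = 0)), ?_⟩
  rintro ⟨x, hx⟩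
  have h0 := hx ⟨0, by omega⟩
  have h1 := hx ⟨1, by omega⟩
  have e0 : clSup ((Fin.castLEEmb hn, fun _ => decide ((0 : ℕ) = 0)) : Cl n)
      = clSup ((Fin.castLEEmb hn, fun _ => decide ((1 : ℕ) = 0)) : Cl n) := rfl
  have h2 := h0.symm.trans ((congrArg (fun S => chi S x) e0).trans h1)
  norm_num [clRhs, sg] at h2

open Classical in
lemma exists_best {n : ℕ} (hn : 3 ≤ n) : ∃ A : Fin (2 * n) → Cl n, ¬ Sol A ∧
    ∀ J ≤ n, (∃ B : Fin (2 * n) → Cl n, ¬ Sol B ∧ GoodTo J B) → GoodTo J A := by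
  by_cases h : ∃ J ≤ n, ∃ B : Fin (2 * n) → Cl n, ¬ Sol B ∧ GoodTo J B
  · obtain ⟨J, hJ, hB⟩ := h
    set J' := Nat.findGreatest (fun J => ∃ B : Fin (2 * n) → Cl n, ¬ Sol B ∧ GoodTo J B) n with hJ'
    obtain ⟨A, hA, hG⟩ := Nat.findGreatest_spec
      (P := fun J => ∃ B : Fin (2 * n) → Cl n, ¬ Sol B ∧ GoodTo J B) hJ hB
    refine ⟨A, hA, fun i hi hBi p hp => hG p (hp.trans ?_)⟩
    exact Nat.le_findGreatest hi hBi
  · obtain ⟨A, hA⟩ := exists_unsat hn
    exact ⟨A, hA, fun J hJ hB => absurd ⟨J, hJ, hB⟩ h⟩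

/-- The systems of equations. -/
noncomputable def sysA (n : ℕ) : Fin (2 * (n + 3)) → Cl (n + 3) :=
  (exists_best (n := n + 3) (by omega)).choose

lemma sysA_unsat (n : ℕ) : ¬ Sol (sysA n) := (exists_best (n := n + 3) (by omega)).choose_spec.1

lemma sysA_good (p : FregeSystem × ℕ) : ∃ n₀, ∀ n ≥ n₀, Good p (sysA n) := by
  set J := Encodable.encode p with hJ
  refine ⟨J + 9 + ∑ j ∈ Finset.range (J + 1), cj j, fun n hn => ?_⟩
  have h1 := exists_goodTo J (n + 3) (by omega)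
  exact (exists_best (n := n + 3) (by omega)).choose_spec.2 J (by omega) h1 p le_rfl

/-! ### The tautologies -/

variable {n m : ℕ}

lemma conjT_size_ge {α : Type} (f : ℕ → Fm α) (κ : ℕ) : ∀ s, 2 ^ κ ≤ (conjT f κ s).size := by
  induction κ with
  | zero => exact fun s => (f s).size_pos
  | succ κ ih =>
    intro s
    have h1 := ih s
    have h2 := ih (s + 2 ^ κ)
    simp only [conjT, Fm.size]
    rw [pow_succ]
    omega

lemma conjT_eval {α : Type} (f : ℕ → Fm α) (v : α → Prop) (κ : ℕ) : ∀ s,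
    (conjT f κ s).eval v → ∀ i < 2 ^ κ, (f (s + i)).eval v := by
  induction κ with
  | zero =>
    intro s h i hi
    have : i = 0 := by simpa using hi
    subst this
    exact h
  | succ κ ih =>
    intro s h i hi
    rcases Nat.lt_or_ge i (2 ^ κ) with hc | hc
    · exact ih s h.1 i hc
    · have h5 := ih (s + 2 ^ κ) h.2 (i - 2 ^ κ) (by rw [pow_succ] at hi; omega)
      have h6 : s + 2 ^ κ + (i - 2 ^ κ) = s + i := by omega
      rwa [h6] at h5

lemma tauN_size_le (A : Fin m → Cl n) (hm : 1 ≤ m) : (tauN A).size ≤ 54 * m := by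
  rw [tauN, size_toN, tauF, Fm.size]
  have h1 := conjT_size (eqE A) (eqE_size A) (Nat.clog 2 m) 0
  have h2 : 2 ^ Nat.clog 2 m ≤ 2 * m := two_pow_clog_le hm
  omega

lemma tauN_size_ge (A : Fin m → Cl n) : m < (tauN A).size := by
  rw [tauN, size_toN, tauF, Fm.size]
  have h1 := conjT_size_ge (eqE A) (Nat.clog 2 m) 0
  have h2 : m ≤ 2 ^ Nat.clog 2 m := Nat.le_pow_clog (by norm_num) _
  omega

lemma tauN_taut (A : Fin m → Cl n) (hA : ¬ Sol A) (v : ℕ → Prop) : (tauN A).eval v := by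
  classical
  rw [tauN, Fm.eval_subst, tauF]
  intro h
  apply hA
  refine ⟨fun i => decide (v i), fun u => ?_⟩
  have h1 := conjT_eval (eqE A) _ (Nat.clog 2 m) 0 h u
    (u.2.trans_le (Nat.le_pow_clog (by norm_num) _))
  rw [Nat.zero_add] at h1
  unfold eqE at h1
  rw [dif_pos u.2] at h1
  rw [← xorF_eval]
  simpa [Fm.eval] using h1

/-! ### The lower bound -/

lemma hard (F : FregeSystem) (k : ℕ) : ∃ n₀ : ℕ, ∀ n ≥ n₀, ∀ (s T : ℕ) (M : List (Fm ℕ)),
    Run F.rules [] s T M → tauN (sysA n) ∈ M →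
    (s : ℝ) ≤ ((tauN (sysA n)).size : ℝ) ^ (2 - 2 * (1 / ((k : ℝ) + 2))) →
    (2 : ℝ) ^ (((tauN (sysA n)).size : ℝ) ^ (dl (F, k) / 2)) < T := by
  obtain ⟨n₁, h1⟩ := sysA_good (F, k)
  have hδ : 0 < dl (F, k) / 2 := half_pos (dl_pos _)
  have hK : (0 : ℝ) ≤ (F.K : ℝ) := Nat.cast_nonneg _
  have hε : (0 : ℝ) < 1 / ((k : ℝ) + 2) := by positivity
  have hε2 : (1 : ℝ) / ((k : ℝ) + 2) ≤ 1 / 2 := by
    apply one_div_le_one_div_of_le (by norm_num)
    have : (0 : ℝ) ≤ k := Nat.cast_nonneg _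
    linarith
  have h2 := arith_s (a := 108) (b := 540 * F.K) (by norm_num) (by positivity) hε hε2
  have h3 := arith_T (a := 108) (b := 40 * F.K + 1) (by norm_num) (by positivity) hδ
  obtain ⟨n₂, h4⟩ := eventually_atTop.1 (h2.and h3)
  refine ⟨max n₁ n₂, fun n hn s T M hrun hτ hs => ?_⟩
  by_contra hcon
  push Not at hcon
  have hgood := h1 n ((le_max_left _ _).trans hn)
  obtain ⟨a1, a2⟩ := h4 (n + 3) (((le_max_right _ _).trans hn).trans (by omega))
  obtain ⟨T', M', b1, b2, b3⟩ := refutation_of_run F (sysA n) (by omega) hrun hτ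
  apply hgood
  have hsz : ((tauN (sysA n)).size : ℝ) ≤ 108 * ((n + 3 : ℕ) : ℝ) := by
    have := tauN_size_le (sysA n) (by omega)
    calc ((tauN (sysA n)).size : ℝ) ≤ ((54 * (2 * (n + 3)) : ℕ) : ℝ) := by exact_mod_cast this
      _ = _ := by push_cast; ring
  have hsz0 : (0 : ℝ) ≤ ((tauN (sysA n)).size : ℝ) := Nat.cast_nonneg _
  refine ⟨_, T', M', ?_, ?_, b2, b3⟩
  · have e1 : ((tauN (sysA n)).size : ℝ) ^ (2 - 2 * (1 / ((k : ℝ) + 2)))
        ≤ (108 * ((n + 3 : ℕ) : ℝ)) ^ (2 - 2 * (1 / ((k : ℝ) + 2))) :=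
      Real.rpow_le_rpow hsz0 hsz (by linarith)
    calc ((s + 270 * F.K * (2 * (n + 3)) : ℕ) : ℝ)
        = (s : ℝ) + 540 * F.K * ((n + 3 : ℕ) : ℝ) := by push_cast; ring
      _ ≤ (108 * ((n + 3 : ℕ) : ℝ)) ^ (2 - 2 * (1 / ((k : ℝ) + 2)))
          + 540 * F.K * ((n + 3 : ℕ) : ℝ) := by linarith
      _ ≤ _ := a1
  · have e1 : ((tauN (sysA n)).size : ℝ) ^ (dl (F, k) / 2)
        ≤ (108 * ((n + 3 : ℕ) : ℝ)) ^ (dl (F, k) / 2) :=
      Real.rpow_le_rpow hsz0 hsz hδ.le
    have e2 : (2 : ℝ) ^ (((tauN (sysA n)).size : ℝ) ^ (dl (F, k) / 2))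
        ≤ (2 : ℝ) ^ ((108 * ((n + 3 : ℕ) : ℝ)) ^ (dl (F, k) / 2)) :=
      Real.rpow_le_rpow_of_exponent_le (by norm_num) e1
    have e3 : (2 : ℝ) * (dl (F, k) / 2) = dl (F, k) := by ring
    rw [e3] at a2
    calc (T' : ℝ) ≤ ((T + 20 * F.K * (2 * (n + 3)) : ℕ) : ℝ) := by exact_mod_cast b1
      _ = (T : ℝ) + 40 * F.K * ((n + 3 : ℕ) : ℝ) := by push_cast; ring
      _ ≤ (2 : ℝ) ^ ((108 * ((n + 3 : ℕ) : ℝ)) ^ (dl (F, k) / 2))
          + (40 * F.K + 1) * ((n + 3 : ℕ) : ℝ) := by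
          have : (0 : ℝ) ≤ ((n + 3 : ℕ) : ℝ) := Nat.cast_nonneg _
          linarith
      _ ≤ _ := a2

end SizeSep
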