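import Pool.Agent.Work.MP_c07f0d_lc.SZ.Bot

/-!
# Extended Frege proofs: small inferences, extension axioms, conjunction trees
-/

set_option linter.unusedSectionVars false

namespace GridLine

open LineSize FregeEF

namespace Xor

/-- `L` is an extended Frege derivation, meant as a proof of `τ`; all variables are below `N`. -/
def Ef (F : FregeSystem) (τ : Fm ℕ) (N : ℕ) (L : List (Fm ℕ)) : Prop :=
  (∃ E, IsEF F.rules τ L E) ∧ (∀ ψ ∈ L, ∀ x, ψ.Occurs x → x < N) ∧ ∀ x, τ.Occurs x → x < N

variable {F : FregeSystem} {τ : Fm ℕ} {N : ℕ} {L : List (Fm ℕ)}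

lemma occ_subst {α β : Type} {σ : α → Fm β} {x : β} {φ : Fm α}
    (h : (φ.subst σ).Occurs x) : ∃ y, φ.Occurs y ∧ (σ y).Occurs x := by
  induction φ with
  | var y => exact ⟨y, rfl, h⟩
  | bot => exact h.elim
  | neg φ ih => exact ih h
  | and φ ψ ih1 ih2 =>
    rcases h with h | h
    · obtain ⟨y, h1, h2⟩ := ih1 h
      exact ⟨y, Or.inl h1, h2⟩
    · obtain ⟨y, h1, h2⟩ := ih2 h
      exact ⟨y, Or.inr h1, h2⟩
  | or φ ψ ih1 ih2 =>
    rcases h with h | h
    · obtain ⟨y, h1, h2⟩ := ih1 h
      exact ⟨y, Or.inl h1, h2⟩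
    · obtain ⟨y, h1, h2⟩ := ih2 h
      exact ⟨y, Or.inr h1, h2⟩
  | imp φ ψ ih1 ih2 =>
    rcases h with h | h
    · obtain ⟨y, h1, h2⟩ := ih1 h
      exact ⟨y, Or.inl h1, h2⟩
    · obtain ⟨y, h1, h2⟩ := ih2 h
      exact ⟨y, Or.inr h1, h2⟩

lemma ef_nil (hτ : ∀ x, τ.Occurs x → x < N) : Ef F τ N [] :=
  ⟨⟨[], IsEF.nil⟩, by simp, hτ⟩

/-- An extension axiom. -/
lemma ef_ext (h : Ef F τ N L) {φ : Fm ℕ} (hφ : ∀ x, φ.Occurs x → x < N) :
    Ef F τ (N + 1) (Fm.iff (.var N) φ :: L) := by
  obtain ⟨⟨E, hE⟩, h1, h2⟩ := h
  refine ⟨⟨_, IsEF.ext N φ hE (fun h => lt_irrefl _ (hφ _ h))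
    (fun ψ hψ h => lt_irrefl _ (h1 ψ hψ _ h)) (fun h => lt_irrefl _ (h2 _ h))⟩, ?_, ?_⟩
  · intro ψ hψ x hx
    rcases List.mem_cons.1 hψ with rfl | hψ
    · have h3 : N = x ∨ φ.Occurs x := by
        rcases hx with (h | h) | (h | h)
        · exact Or.inl h
        · exact Or.inr h
        · exact Or.inr h
        · exact Or.inl h
      rcases h3 with h3 | h3
      · omega
      · have := hφ x h3
        omega
    · have := h1 ψ hψ x hx
      omega
  · intro x hx
    have := h2 x hx
    omega

lemma iff_size {α : Type} (φ ψ : Fm α) : (Fm.iff φ ψ).size = 2 * φ.size + 2 * ψ.size + 3 := by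
  simp only [Fm.iff, Fm.size]
  omega

/-- A small inference. -/
lemma ef_rule (h : Ef F τ N L) {M : ℕ} (hM1 : 1 ≤ M) (prem : List (Fm ℕ)) (concl : Fm ℕ)
    (θ : List (Fm ℕ)) (ht : smallTest prem concl = true)
    (hv : ∀ v : ℕ → Prop, (∀ p ∈ prem, p.eval v) → concl.eval v)
    (hθ : ∀ x ∈ θ, x.size ≤ M ∧ ∀ y, x.Occurs y → y < N)
    (hp : ∀ p ∈ prem, p.subst (sub θ) ∈ L) :
    ∃ A, Ef F τ N (A ++ L) ∧ concl.subst (sub θ) ∈ A ++ L ∧ lsize A ≤ F.K * M := by
  obtain ⟨L₀, h1, h2, h3⟩ := F.K_spec prem concl ht hv
  have hb : ∀ x, (sub θ x).size ≤ M ∧ ∀ y, (sub θ x).Occurs y → y < N := by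
    intro x
    unfold sub
    by_cases hx : x < θ.length
    · rw [List.getD_eq_getElem?_getD, List.getElem?_eq_getElem hx]
      exact hθ _ (List.getElem_mem hx)
    · rw [List.getD_eq_getElem?_getD, List.getElem?_eq_none (by omega)]
      exact ⟨by simpa [Fm.size] using hM1, fun y hy => hy.elim⟩
  have key : ∀ Q : List (Fm ℕ), IsDeriv F.rules prem Q →
      ∃ A, Ef F τ N (A ++ L) ∧ (∀ φ ∈ Q, φ.subst (sub θ) ∈ A ++ L) ∧ lsize A ≤ lsize Q * M := by
    intro Q hQ
    induction hQ with
    | nil => exact ⟨[], h, by simp, by simp [lsize]⟩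
    | @hyp Q φ _ hφ ih =>
      obtain ⟨A, a1, a2, a3⟩ := ih
      refine ⟨A, a1, ?_, ?_⟩
      · intro ψ hψ
        rcases List.mem_cons.1 hψ with rfl | hψ
        · exact List.mem_append_right _ (hp _ hφ)
        · exact a2 ψ hψ
      · rw [lsize_cons, Nat.add_mul]
        omega
    | @step Q φ _ hi ih =>
      obtain ⟨A, ⟨⟨E, a1⟩, b1, c1⟩, a2, a3⟩ := ih
      refine ⟨φ.subst (sub θ) :: A, ⟨⟨E, ?_⟩, ?_, c1⟩, ?_, ?_⟩
      · refine IsEF.step a1 ((hi.subst (sub θ)).mono ?_)
        intro x hx
        obtain ⟨y, hy, rfl⟩ := List.mem_map.1 hx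
        exact a2 y hy
      · intro ψ hψ x hx
        rcases List.mem_cons.1 hψ with rfl | hψ
        · obtain ⟨y, _, hy⟩ := occ_subst hx
          exact (hb y).2 x hy
        · exact b1 ψ hψ x hx
      · intro ψ hψ
        rcases List.mem_cons.1 hψ with rfl | hψ
        · exact List.mem_cons_self
        · exact List.mem_cons_of_mem _ (a2 ψ hψ)
      · have h5 := Fm.size_subst_le (sub θ) M hM1 φ fun x _ => (hb x).1
        rw [lsize_cons, lsize_cons, Nat.add_mul]
        omega
  obtain ⟨A, a1, a2, a3⟩ := key L₀ h1
  exact ⟨A, a1, a2 _ h2, a3.trans (Nat.mul_le_mul_right _ h3)⟩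

/-- A formula which occurs as a line is the last line of a shorter derivation. -/
lemma ef_last {R : List Rule} : ∀ {L : List (Fm ℕ)} {E : List (ℕ × Fm ℕ)}, IsEF R τ L E →
    ∀ φ ∈ L, ∃ B E', IsEF R τ (φ :: B) E' ∧ lsize (φ :: B) ≤ lsize L := by
  intro L E h
  induction h with
  | nil => simp
  | @step L E ψ h1 h2 ih =>
    intro φ hφ
    rcases List.mem_cons.1 hφ with rfl | hφ
    · exact ⟨L, E, IsEF.step h1 h2, le_rfl⟩
    · obtain ⟨B, E', h3, h4⟩ := ih φ hφ
      refine ⟨B, E', h3, h4.trans ?_⟩
      rw [lsize_cons]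
      omega
  | @ext L E q ψ h1 h2 h3 h4 ih =>
    intro φ hφ
    rcases List.mem_cons.1 hφ with rfl | hφ
    · exact ⟨L, _, IsEF.ext q ψ h1 h2 h3 h4, le_rfl⟩
    · obtain ⟨B, E', h5, h6⟩ := ih φ hφ
      refine ⟨B, E', h5, h6.trans ?_⟩
      rw [lsize_cons]
      omega

/-- A derivation which contains `τ` gives a proof of `τ`. -/
lemma ef_proof (h : Ef F τ N L) (hτ : τ ∈ L) :
    ∃ L' E, F.IsEFProof τ L' E ∧ lsize L' ≤ lsize L := by
  obtain ⟨⟨E, hE⟩, -, -⟩ := h
  obtain ⟨B, E', h1, h2⟩ := ef_last hE τ hτ
  exact ⟨_, E', ⟨h1, rfl⟩, h2⟩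

/-- Conjunction trees. -/
inductive CT (α : Type) : Type
  | leaf : Fm α → CT α
  | node : CT α → CT α → CT α

namespace CT

variable {α : Type}

/-- The conjunction. -/
def fm : CT α → Fm α
  | leaf x => x
  | node a b => .and a.fm b.fm

/-- The members of the conjunction. -/
def leaves : CT α → List (Fm α)
  | leaf x => [x]
  | node a b => a.leaves ++ b.leaves

/-- The sum of the sizes of all subtrees. -/
def W : CT α → ℕ
  | leaf x => x.size
  | node a b => a.W + b.W + (Fm.and a.fm b.fm).size

lemma conjOf' {G : List (Fm α)} : ∀ t : CT α, (∀ x ∈ t.leaves, x ∈ G) → ConjOf G t.fm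
  | leaf x, h => .leaf (h x (by simp [leaves]))
  | node a b, h => .node (conjOf' a fun x hx => h x (by simp [leaves, hx]))
      (conjOf' b fun x hx => h x (by simp [leaves, hx]))

/-- The balanced conjunction of the members of a nonempty list of length at most `2 ^ k`. -/
def mk : ℕ → List (Fm α) → CT α
  | 0, l => leaf (l.headD .bot)
  | k + 1, l => if l.length ≤ 1 then leaf (l.headD .bot) else
      node (mk k (l.take (l.length / 2))) (mk k (l.drop (l.length / 2)))

lemma size_mk : ∀ (k : ℕ) (l : List (Fm α)), l ≠ [] → (mk k l).fm.size + 1 ≤ lsize l + l.length := by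
  have h0 : ∀ l : List (Fm α), l ≠ [] → (l.headD .bot).size + 1 ≤ lsize l + l.length := by
    intro l hl
    cases l with
    | nil => exact absurd rfl hl
    | cons x l =>
      rw [lsize_cons, List.length_cons, List.headD_cons]
      omega
  intro k
  induction k with
  | zero => exact h0
  | succ k ih =>
    intro l hl
    show (if l.length ≤ 1 then leaf (l.headD .bot) else _ : CT α).fm.size + 1 ≤ _
    split_ifs with h
    · exact h0 l hl
    · have h1 := ih (l.take (l.length / 2)) (fun h2 => by
        have := congrArg List.length h2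
        rw [List.length_take, List.length_nil] at this
        omega)
      have h2 := ih (l.drop (l.length / 2)) (fun h2 => by
        have := congrArg List.length h2
        rw [List.length_drop, List.length_nil] at this
        omega)
      have h3 : lsize l = lsize (l.take (l.length / 2)) + lsize (l.drop (l.length / 2)) := by
        rw [← lsize_append, List.take_append_drop]
      have h4 : l.length = (l.take (l.length / 2)).length + (l.drop (l.length / 2)).length := by
        rw [← List.length_append, List.take_append_drop]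
      show (Fm.and (mk k (l.take (l.length / 2))).fm (mk k (l.drop (l.length / 2))).fm).size + 1 ≤ _
      simp only [Fm.size]
      omega

lemma W_mk : ∀ (k : ℕ) (l : List (Fm α)), l ≠ [] → (mk k l).W ≤ (k + 1) * (lsize l + l.length) := by
  have h0 : ∀ l : List (Fm α), l ≠ [] → (l.headD .bot).size ≤ lsize l + l.length := by
    intro l hl
    have := size_mk 0 l hl
    have h : (mk 0 l).fm.size = (l.headD .bot).size := rfl
    omega
  intro k
  induction k with
  | zero =>
    intro l hl
    have := h0 l hl
    show (l.headD .bot).size ≤ _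
    omega
  | succ k ih =>
    intro l hl
    have h5 := size_mk (k + 1) l hl
    show (if l.length ≤ 1 then leaf (l.headD .bot) else _ : CT α).W ≤ _
    have h6 : (mk (k + 1) l).fm.size = (if l.length ≤ 1 then leaf (l.headD .bot) else
      node (mk k (l.take (l.length / 2))) (mk k (l.drop (l.length / 2))) : CT α).fm.size := rfl
    rw [h6] at h5
    split_ifs with h
    · have := h0 l hl
      show (l.headD .bot).size ≤ _
      nlinarith
    · rw [if_neg h] at h5
      have h1 := ih (l.take (l.length / 2)) (fun h2 => by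
        have := congrArg List.length h2
        rw [List.length_take, List.length_nil] at this
        omega)
      have h2 := ih (l.drop (l.length / 2)) (fun h2 => by
        have := congrArg List.length h2
        rw [List.length_drop, List.length_nil] at this
        omega)
      have h3 : lsize l = lsize (l.take (l.length / 2)) + lsize (l.drop (l.length / 2)) := by
        rw [← lsize_append, List.take_append_drop]
      have h4 : l.length = (l.take (l.length / 2)).length + (l.drop (l.length / 2)).length := by
        rw [← List.length_append, List.take_append_drop]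
      show _ + _ + (Fm.and _ _).size ≤ _
      have h7 : (node (mk k (l.take (l.length / 2))) (mk k (l.drop (l.length / 2)))).fm.size =
        (Fm.and (mk k (l.take (l.length / 2))).fm (mk k (l.drop (l.length / 2))).fm).size := rfl
      rw [h7] at h5
      have h8 : (k + 1 + 1) * (lsize l + l.length) = (k + 1) * (lsize (l.take (l.length / 2)) +
          (l.take (l.length / 2)).length) + (k + 1) * (lsize (l.drop (l.length / 2)) +
          (l.drop (l.length / 2)).length) + (lsize l + l.length) := by
        rw [← Nat.mul_add]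
        have : lsize (l.take (l.length / 2)) + (l.take (l.length / 2)).length +
          (lsize (l.drop (l.length / 2)) + (l.drop (l.length / 2)).length) =
          lsize l + l.length := by omega
        rw [this]
        ring
      omega

lemma leaves_mk : ∀ (k : ℕ) (l : List (Fm α)), l ≠ [] → l.length ≤ 2 ^ k → (mk k l).leaves = l := by
  have h0 : ∀ l : List (Fm α), l ≠ [] → l.length ≤ 1 → [l.headD .bot] = l := by
    intro l hl h
    match l, hl, h with
    | [x], _, _ => rfl
  intro k
  induction k with
  | zero =>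
    intro l hl h
    exact h0 l hl h
  | succ k ih =>
    intro l hl h
    show (if l.length ≤ 1 then leaf (l.headD .bot) else _ : CT α).leaves = _
    split_ifs with h1
    · exact h0 l hl h1
    · rw [pow_succ] at h
      show _ ++ _ = _
      rw [ih, ih, List.take_append_drop]
      · intro h2
        have := congrArg List.length h2
        rw [List.length_drop, List.length_nil] at this
        omega
      · rw [List.length_drop]
        omega
      · intro h2
        have := congrArg List.length h2
        rw [List.length_take, List.length_nil] at this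
        omega
      · rw [List.length_take]
        omega

end CT

/-- Decomposing a conjunction: every member follows from the variable of the root. -/
theorem ef_tree : ∀ (t : CT ℕ) {N : ℕ} {L : List (Fm ℕ)} (r q : ℕ), Ef F τ N L → r < N → q < N →
    (∀ x, t.fm.Occurs x → x < N) → Fm.iff (.var q) t.fm ∈ L → Fm.imp (.var r) (.var q) ∈ L →
    ∃ N' A, N ≤ N' ∧ Ef F τ N' (A ++ L) ∧ lsize A ≤ (2 * F.K + 12) * t.W ∧
      ∀ x ∈ t.leaves, Fm.imp (.var r) x ∈ A ++ L := by
  intro t
  induction t with
  | leaf x =>
    intro N L r q hL hr hq hv h1 h2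
    have hs := one_le_size x
    obtain ⟨A, a1, a2, a3⟩ := ef_rule hL (M := x.size) hs
      [Fm.iff (.var 0) (.var 1), .imp (.var 2) (.var 0)] (.imp (.var 2) (.var 1))
      [.var q, x, .var r] (by decide) (by
        intro v hv
        have e1 := hv (Fm.iff (.var 0) (.var 1)) (by simp)
        have e2 := hv (.imp (.var 2) (.var 0)) (by simp)
        simp only [Fm.iff, Fm.eval] at e1 e2 ⊢
        tauto) (by
        intro z hz
        simp only [List.mem_cons, List.not_mem_nil, or_false] at hz
        rcases hz with rfl | rfl | rfl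
        · exact ⟨hs, fun y hy => by cases hy; exact hq⟩
        · exact ⟨le_rfl, hv⟩
        · exact ⟨hs, fun y hy => by cases hy; exact hr⟩) (by
        intro p hp
        simp only [List.mem_cons, List.not_mem_nil, or_false] at hp
        rcases hp with rfl | rfl
        · exact h1
        · exact h2)
    refine ⟨N, A, le_rfl, a1, ?_, ?_⟩
    · show _ ≤ (2 * F.K + 12) * x.size
      nlinarith
    · intro y hy
      simp only [CT.leaves, List.mem_cons, List.not_mem_nil, or_false] at hy
      subst hy
      exact a2
  | node a b iha ihb =>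
    intro N L r q hL hr hq hv h1 h2
    have hva : ∀ x, a.fm.Occurs x → x < N := fun x hx => hv x (Or.inl hx)
    have hvb : ∀ x, b.fm.Occurs x → x < N := fun x hx => hv x (Or.inr hx)
    have hsa := one_le_size a.fm
    have hsb := one_le_size b.fm
    have hs : (Fm.and a.fm b.fm).size = a.fm.size + b.fm.size + 1 := rfl
    -- the two extension axioms
    have l1 := ef_ext hL hva
    have l2 := ef_ext l1 (φ := b.fm) fun x hx => by
      have := hvb x hx
      omega
    set L2 := Fm.iff (.var (N + 1)) b.fm :: Fm.iff (.var N) a.fm :: L with hL2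
    have hsub : ∀ x ∈ L, x ∈ L2 := fun x hx => by simp [hL2, hx]
    -- the two implications
    obtain ⟨A1, c1, d1, e1⟩ := ef_rule l2 (M := (Fm.and a.fm b.fm).size) (by omega)
      [Fm.iff (.var 0) (.and (.var 1) (.var 2)), Fm.iff (.var 3) (.var 1), .imp (.var 4) (.var 0)]
      (.imp (.var 4) (.var 3)) [.var q, a.fm, b.fm, .var N, .var r] (by decide) (by
        intro v hv
        have e1 := hv (Fm.iff (.var 0) (.and (.var 1) (.var 2))) (by simp)
        have e2 := hv (Fm.iff (.var 3) (.var 1)) (by simp)
        have e3 := hv (.imp (.var 4) (.var 0)) (by simp)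
        simp only [Fm.iff, Fm.eval] at e1 e2 e3 ⊢
        tauto) (by
        intro z hz
        simp only [List.mem_cons, List.not_mem_nil, or_false] at hz
        rcases hz with rfl | rfl | rfl | rfl | rfl
        · exact ⟨by simp only [Fm.size]; omega, fun y hy => by cases hy; omega⟩
        · exact ⟨by omega, fun y hy => by have := hva y hy; omega⟩
        · exact ⟨by omega, fun y hy => by have := hvb y hy; omega⟩
        · exact ⟨by simp only [Fm.size]; omega, fun y hy => by cases hy; omega⟩
        · exact ⟨by simp only [Fm.size]; omega, fun y hy => by cases hy; omega⟩) (by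
        intro p hp
        simp only [List.mem_cons, List.not_mem_nil, or_false] at hp
        rcases hp with rfl | rfl | rfl
        · exact hsub _ h1
        · exact List.mem_cons_of_mem _ List.mem_cons_self
        · exact hsub _ h2)
    obtain ⟨A2, c2, d2, e2⟩ := ef_rule c1 (M := (Fm.and a.fm b.fm).size) (by omega)
      [Fm.iff (.var 0) (.and (.var 1) (.var 2)), Fm.iff (.var 3) (.var 2), .imp (.var 4) (.var 0)]
      (.imp (.var 4) (.var 3)) [.var q, a.fm, b.fm, .var (N + 1), .var r] (by decide) (by
        intro v hv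
        have e1 := hv (Fm.iff (.var 0) (.and (.var 1) (.var 2))) (by simp)
        have e2 := hv (Fm.iff (.var 3) (.var 2)) (by simp)
        have e3 := hv (.imp (.var 4) (.var 0)) (by simp)
        simp only [Fm.iff, Fm.eval] at e1 e2 e3 ⊢
        tauto) (by
        intro z hz
        simp only [List.mem_cons, List.not_mem_nil, or_false] at hz
        rcases hz with rfl | rfl | rfl | rfl | rfl
        · exact ⟨by simp only [Fm.size]; omega, fun y hy => by cases hy; omega⟩
        · exact ⟨by omega, fun y hy => by have := hva y hy; omega⟩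
        · exact ⟨by omega, fun y hy => by have := hvb y hy; omega⟩
        · exact ⟨by simp only [Fm.size]; omega, fun y hy => by cases hy; omega⟩
        · exact ⟨by simp only [Fm.size]; omega, fun y hy => by cases hy; omega⟩) (by
        intro p hp
        simp only [List.mem_cons, List.not_mem_nil, or_false] at hp
        rcases hp with rfl | rfl | rfl
        · exact List.mem_append_right _ (hsub _ h1)
        · exact List.mem_append_right _ List.mem_cons_self
        · exact List.mem_append_right _ (hsub _ h2))
    -- the two subtrees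
    obtain ⟨N3, A3, n3, c3, e3, f3⟩ := iha (N := N + 1 + 1) (L := A2 ++ (A1 ++ L2)) r N c2
      (by omega) (by omega) (fun x hx => by have := hva x hx; omega)
      (List.mem_append_right _ (List.mem_append_right _
        (List.mem_cons_of_mem _ List.mem_cons_self))) (List.mem_append_right _ d1)
    obtain ⟨N4, A4, n4, c4, e4, f4⟩ := ihb (N := N3) (L := A3 ++ (A2 ++ (A1 ++ L2))) r (N + 1) c3
      (by omega) (by omega) (fun x hx => by have := hvb x hx; omega)
      (List.mem_append_right _ (List.mem_append_right _ (List.mem_append_right _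
        List.mem_cons_self))) (List.mem_append_right _ d2)
    refine ⟨N4, A4 ++ (A3 ++ (A2 ++ (A1 ++ [Fm.iff (.var (N + 1)) b.fm,
      Fm.iff (.var N) a.fm]))), by omega, ?_, ?_, ?_⟩
    · simpa only [List.append_assoc, List.cons_append, List.nil_append] using c4
    · simp only [lsize_append, lsize_cons, lsize_nil, iff_size]
      show _ ≤ (2 * F.K + 12) * (a.W + b.W + (Fm.and a.fm b.fm).size)
      have h5 : (Fm.var (N + 1) : Fm ℕ).size = 1 := rfl
      have h6 : (Fm.var N : Fm ℕ).size = 1 := rfl
      rw [h5, h6]
      nlinarith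
    · intro x hx
      have h5 : ∀ y, y ∈ A4 ++ (A3 ++ (A2 ++ (A1 ++ L2))) → y ∈ A4 ++ (A3 ++ (A2 ++ (A1 ++
          [Fm.iff (.var (N + 1)) b.fm, Fm.iff (.var N) a.fm]))) ++ L := by
        intro y hy
        simp only [List.append_assoc, List.cons_append, List.nil_append]
        exact hy
      rcases List.mem_append.1 hx with hx | hx
      · exact h5 _ (List.mem_append_right _ (f3 x hx))
      · exact h5 _ (f4 x hx)

/-- The variable of a conjunction, and the members of the conjunction. -/
theorem ef_root (t : CT ℕ) (hL : Ef F τ N L) (hv : ∀ x, t.fm.Occurs x → x < N) :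
    ∃ N' A, N < N' ∧ Ef F τ N' (A ++ L) ∧ lsize A ≤ (4 * F.K + 19) * t.W ∧
      Fm.iff (.var N) t.fm ∈ A ++ L ∧ ∀ x ∈ t.leaves, Fm.imp (.var N) x ∈ A ++ L := by
  have hs := one_le_size t.fm
  have hW : t.fm.size ≤ t.W := by
    cases t with
    | leaf x => exact le_rfl
    | node a b => exact Nat.le_add_left _ _
  have l1 := ef_ext hL hv
  obtain ⟨A1, c1, d1, e1⟩ := ef_rule l1 (M := 1) le_rfl [] (.imp (.var 0) (.var 0)) [.var N]
    (by decide) (fun v _ h => h) (by
      intro z hz
      simp only [List.mem_cons, List.not_mem_nil, or_false] at hz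
      subst hz
      exact ⟨le_rfl, fun y hy => by cases hy; omega⟩) (by simp)
  obtain ⟨N2, A2, n2, c2, e2, f2⟩ := ef_tree t N N c1 (by omega) (by omega)
    (fun x hx => by have := hv x hx; omega) (List.mem_append_right _ List.mem_cons_self) d1
  refine ⟨N2, A2 ++ (A1 ++ [Fm.iff (.var N) t.fm]), by omega, ?_, ?_, ?_, ?_⟩
  · simpa only [List.append_assoc, List.cons_append, List.nil_append] using c2
  · simp only [lsize_append, lsize_cons, lsize_nil, iff_size]
    have h6 : (Fm.var N : Fm ℕ).size = 1 := rfl
    rw [h6]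
    nlinarith
  · simp
  · intro x hx
    have := f2 x hx
    simpa only [List.append_assoc, List.cons_append, List.nil_append] using this

/-- The last step. -/
theorem ef_close {t : Fm ℕ} {r : ℕ} (hL : Ef F τ N L) (hv : ∀ x, t.Occurs x → x < N) (hr : r < N)
    (h1 : Fm.iff (.var r) t ∈ L) (h2 : Fm.imp (.var r) .bot ∈ L) :
    ∃ A, Ef F τ N (A ++ L) ∧ Fm.neg t ∈ A ++ L ∧ lsize A ≤ F.K * t.size := by
  have hs := one_le_size t
  exact ef_rule hL (M := t.size) hs [Fm.iff (.var 0) (.var 1), .imp (.var 0) .bot]
    (.neg (.var 1)) [.var r, t] (by decide) (by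
      intro v hv
      have e1 := hv (Fm.iff (.var 0) (.var 1)) (by simp)
      have e2 := hv (.imp (.var 0) .bot) (by simp)
      simp only [Fm.iff, Fm.eval] at e1 e2 ⊢
      tauto) (by
      intro z hz
      simp only [List.mem_cons, List.not_mem_nil, or_false] at hz
      rcases hz with rfl | rfl
      · exact ⟨hs, fun y hy => by cases hy; exact hr⟩
      · exact ⟨le_rfl, hv⟩) (by
      intro p hp
      simp only [List.mem_cons, List.not_mem_nil, or_false] at hp
      rcases hp with rfl | rfl
      · exact h1
      · exact h2)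

end Xor

end GridLine
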